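import Mathlib

/-!
# Flows of uniform random walks on acyclic directed graphs

The passing inequality and the multi-scale bound.
-/

namespace Pool.Agent.Hhelper78.RandomEdgePoly

/-- An acyclic directed graph with the visiting probabilities of the uniform random walk. -/
structure Net (V : Type) [Fintype V] [DecidableEq V] where
  rank : V → ℕ
  rank_inj : Function.Injective rank
  nbs : V → Finset V
  lt : ∀ v, ∀ w ∈ nbs v, rank v < rank w
  v0 : V
  p : V → ℝ
  p_nonneg : ∀ v, 0 ≤ p v
  rec_eq : ∀ w, p w = (if w = v0 then 1 else 0) +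
    ∑ v ∈ Finset.univ.filter (fun v => w ∈ nbs v), p v / ((nbs v).card : ℝ)

namespace Net

variable {V : Type} [Fintype V] [DecidableEq V] (N : Net V)

/-- outdegree -/
def m (v : V) : ℕ := (N.nbs v).card

/-- flow on each out-edge of `v` -/
noncomputable def g (v : V) : ℝ := N.p v / (N.m v : ℝ)

lemma g_nonneg (v : V) : 0 ≤ N.g v := div_nonneg (N.p_nonneg v) (Nat.cast_nonneg _)

lemma m_mul_g_le (v : V) : (N.m v : ℝ) * N.g v ≤ N.p v := by
  unfold g
  by_cases h : (N.m v : ℝ) = 0
  · rw [h]; simpa using N.p_nonneg v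
  · rw [mul_div_cancel₀ _ h]

lemma m_mul_g (v : V) (h : 0 < N.m v) : (N.m v : ℝ) * N.g v = N.p v := by
  unfold g
  rw [mul_div_cancel₀]
  positivity

/-- number of out-neighbours in `T` -/
def deg (v : V) (T : Finset V) : ℕ := (N.nbs v ∩ T).card

/-- Sum of the flow into `T`, computed at the tails. -/
lemma sum_in (T : Finset V) : ∑ w ∈ T, N.p w = (if N.v0 ∈ T then 1 else 0) +
    ∑ v, N.g v * (N.deg v T : ℝ) := by
  have h1 : ∑ w ∈ T, N.p w = ∑ w ∈ T, ((if w = N.v0 then (1 : ℝ) else 0) +
      ∑ v, if w ∈ N.nbs v then N.g v else 0) := by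
    refine Finset.sum_congr rfl fun w _ => ?_
    rw [N.rec_eq w, Finset.sum_filter]
    rfl
  rw [h1, Finset.sum_add_distrib, Finset.sum_comm]
  congr 1
  · rw [Finset.sum_ite_eq']
  · refine Finset.sum_congr rfl fun v _ => ?_
    rw [← Finset.sum_filter, Finset.sum_const, nsmul_eq_mul, mul_comm, deg]
    congr 2
    congr 1
    ext w
    simp [and_comm]

lemma deg_add_deg_compl (v : V) (T : Finset V) : N.deg v T + N.deg v Tᶜ = N.m v := by
  unfold deg m
  have : N.nbs v ∩ Tᶜ = N.nbs v \ T := by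
    ext w; simp
  rw [this]
  exact Finset.card_inter_add_card_sdiff _ _

/-- The flow across a level is at most one. -/
lemma cut (s : ℕ) : ∑ v ∈ Finset.univ.filter (fun v => N.rank v < s),
    N.g v * (N.deg v (Finset.univ.filter fun w => s ≤ N.rank w) : ℝ) ≤
      if N.rank N.v0 < s then 1 else 0 := by
  classical
  set S := Finset.univ.filter (fun v => N.rank v < s) with hS
  have hc : (Finset.univ.filter fun w => s ≤ N.rank w) = Sᶜ := by
    ext w; simp [hS]
  rw [hc]
  have h1 := N.sum_in S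
  have h2 : ∑ v, N.g v * (N.deg v S : ℝ) = ∑ v ∈ S, N.g v * (N.deg v S : ℝ) := by
    symm
    apply Finset.sum_subset (Finset.subset_univ _)
    intro v _ hv
    have : N.deg v S = 0 := by
      unfold deg
      rw [Finset.card_eq_zero, Finset.eq_empty_iff_forall_notMem]
      intro w hw
      rw [Finset.mem_inter] at hw
      have h3 := N.lt v w hw.1
      have h4 : N.rank w < s := by simpa [hS] using hw.2
      exact hv (by simp only [hS, Finset.mem_filter, Finset.mem_univ, true_and]; omega)
    rw [this]; simp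
  rw [h2] at h1
  have h3 : ∑ v ∈ S, N.g v * (N.deg v Sᶜ : ℝ) + ∑ v ∈ S, N.g v * (N.deg v S : ℝ) ≤
      ∑ v ∈ S, N.p v := by
    rw [← Finset.sum_add_distrib]
    refine Finset.sum_le_sum fun v _ => ?_
    have h4 := N.deg_add_deg_compl v S
    have h5 : (N.deg v S : ℝ) + (N.deg v Sᶜ : ℝ) = N.m v := by exact_mod_cast h4
    have h6 := N.m_mul_g_le v
    have h7 : N.g v * (N.deg v Sᶜ : ℝ) + N.g v * (N.deg v S : ℝ) = N.m v * N.g v := by
      rw [← h5]; ring
    linarith
  have h4 : (N.v0 ∈ S) ↔ N.rank N.v0 < s := by simp [hS]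
  simp only [h4] at h1
  linarith

lemma p_le_one (w : V) : N.p w ≤ 1 := by
  classical
  have h1 := N.sum_in {w}
  rw [Finset.sum_singleton] at h1
  have h2 := N.cut (N.rank w)
  have h3 : ∑ v, N.g v * (N.deg v {w} : ℝ) ≤
      ∑ v ∈ Finset.univ.filter (fun v => N.rank v < N.rank w),
        N.g v * (N.deg v (Finset.univ.filter fun u => N.rank w ≤ N.rank u) : ℝ) := by
    rw [Finset.sum_filter]
    refine Finset.sum_le_sum fun v _ => ?_
    split_ifs with h
    · apply mul_le_mul_of_nonneg_left _ (N.g_nonneg v)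
      unfold deg
      norm_cast
      apply Finset.card_le_card
      apply Finset.inter_subset_inter_left
      intro u hu
      rw [Finset.mem_singleton] at hu
      subst hu
      simp
    · have : N.deg v {w} = 0 := by
        unfold deg
        rw [Finset.card_eq_zero, Finset.eq_empty_iff_forall_notMem]
        intro u hu
        rw [Finset.mem_inter, Finset.mem_singleton] at hu
        obtain ⟨hu1, rfl⟩ := hu
        exact h (N.lt v u hu1)
      rw [this]; simp
  by_cases hw : w = N.v0
  · subst hw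
    simp only [Finset.mem_singleton, if_true] at h1
    rw [if_neg (lt_irrefl _)] at h2
    linarith
  · have : N.v0 ∉ ({w} : Finset V) := by
      rw [Finset.mem_singleton]
      exact fun h => hw h.symm
    rw [if_neg this] at h1
    have h4 : (if N.rank N.v0 < N.rank w then (1 : ℝ) else 0) ≤ 1 := by split_ifs <;> norm_num
    linarith

/-- number of pairs with increasing rank -/
def pairs (T : Finset V) : ℕ := ((T ×ˢ T).filter fun e => N.rank e.1 < N.rank e.2).card

lemma two_mul_pairs (T : Finset V) : 2 * N.pairs T + T.card = T.card * T.card := by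
  classical
  have h1 : (T ×ˢ T).card = T.card * T.card := Finset.card_product _ _
  have h2 : ((T ×ˢ T).filter fun e => N.rank e.2 < N.rank e.1).card = N.pairs T := by
    unfold pairs
    refine Finset.card_bij (fun e _ => (e.2, e.1)) ?_ ?_ ?_
    · intro e he
      simp only [Finset.mem_filter, Finset.mem_product] at he ⊢
      exact ⟨⟨he.1.2, he.1.1⟩, he.2⟩
    · rintro ⟨a, b⟩ _ ⟨c, e⟩ _ h
      simp only [Prod.mk.injEq] at h
      rw [Prod.mk.injEq]
      exact ⟨h.2, h.1⟩
    · rintro ⟨a, b⟩ he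
      simp only [Finset.mem_filter, Finset.mem_product] at he
      refine ⟨(b, a), ?_, rfl⟩
      simp only [Finset.mem_filter, Finset.mem_product]
      exact ⟨⟨he.1.2, he.1.1⟩, he.2⟩
  have h3 : ((T ×ˢ T).filter fun e => e.1 = e.2).card = T.card := by
    symm
    refine Finset.card_bij (fun a _ => (a, a)) ?_ ?_ ?_
    · intro a ha
      simp [ha]
    · intro a _ b _ h
      exact (Prod.mk.injEq _ _ _ _ ▸ h).1
    · rintro ⟨a, b⟩ he
      simp only [Finset.mem_filter, Finset.mem_product] at he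
      obtain ⟨⟨h1, -⟩, rfl⟩ := he
      exact ⟨a, h1, rfl⟩
  have h4 : (T ×ˢ T) = ((T ×ˢ T).filter fun e => N.rank e.1 < N.rank e.2) ∪
      (((T ×ˢ T).filter fun e => N.rank e.2 < N.rank e.1) ∪ ((T ×ˢ T).filter fun e => e.1 = e.2)) := by
    ext e
    simp only [Finset.mem_union, Finset.mem_filter]
    constructor
    · intro he
      rcases lt_trichotomy (N.rank e.1) (N.rank e.2) with h | h | h
      · exact Or.inl ⟨he, h⟩
      · exact Or.inr (Or.inr ⟨he, N.rank_inj h⟩)
      · exact Or.inr (Or.inl ⟨he, h⟩)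
    · rintro (h | h | h) <;> exact h.1
  have h5 : Disjoint ((T ×ˢ T).filter fun e => N.rank e.2 < N.rank e.1)
      ((T ×ˢ T).filter fun e => e.1 = e.2) := by
    rw [Finset.disjoint_left]
    intro e h1 h2
    rw [Finset.mem_filter] at h1 h2
    rw [h2.2] at h1
    exact lt_irrefl _ h1.2
  have h6 : Disjoint ((T ×ˢ T).filter fun e => N.rank e.1 < N.rank e.2)
      (((T ×ˢ T).filter fun e => N.rank e.2 < N.rank e.1) ∪
        ((T ×ˢ T).filter fun e => e.1 = e.2)) := by
    rw [Finset.disjoint_left]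
    intro e h1 h2
    rw [Finset.mem_union, Finset.mem_filter, Finset.mem_filter] at h2
    rw [Finset.mem_filter] at h1
    rcases h2 with h2 | h2
    · omega
    · rw [h2.2] at h1
      exact lt_irrefl _ h1.2
  rw [← h1]
  conv_rhs => rw [h4]
  rw [Finset.card_union_of_disjoint h6, Finset.card_union_of_disjoint h5, h2, h3]
  unfold pairs
  ring

/-- **Passing inequality.** -/
lemma passing (A : Finset V) : ∑ v, N.g v * (N.pairs (N.nbs v ∩ A) : ℝ) ≤ A.card := by
  classical
  have h1 : ∀ v, (N.pairs (N.nbs v ∩ A) : ℝ) ≤ ∑ a ∈ A, if N.rank v < N.rank a then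
      (N.deg v (Finset.univ.filter fun w => N.rank a ≤ N.rank w) : ℝ) else 0 := by
    intro v
    have h2 : N.pairs (N.nbs v ∩ A) = ∑ a ∈ N.nbs v ∩ A,
        ((N.nbs v ∩ A).filter fun w => N.rank a < N.rank w).card := by
      unfold pairs
      rw [Finset.card_filter, Finset.sum_product]
      refine Finset.sum_congr rfl fun a _ => ?_
      rw [Finset.card_filter]
    rw [h2]
    push_cast
    have h3 : ∑ a ∈ N.nbs v ∩ A, (((N.nbs v ∩ A).filter fun w => N.rank a < N.rank w).card : ℝ) ≤
        ∑ a ∈ N.nbs v ∩ A, if N.rank v < N.rank a then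
          (N.deg v (Finset.univ.filter fun w => N.rank a ≤ N.rank w) : ℝ) else 0 := by
      refine Finset.sum_le_sum fun a ha => ?_
      rw [Finset.mem_inter] at ha
      rw [if_pos (N.lt v a ha.1)]
      norm_cast
      unfold deg
      apply Finset.card_le_card
      intro w hw
      simp only [Finset.mem_filter, Finset.mem_inter, Finset.mem_univ, true_and] at hw ⊢
      exact ⟨hw.1.1, hw.2.le⟩
    refine h3.trans ?_
    apply Finset.sum_le_sum_of_subset_of_nonneg Finset.inter_subset_right
    intro a _ _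
    split_ifs <;> positivity
  calc ∑ v, N.g v * (N.pairs (N.nbs v ∩ A) : ℝ)
      ≤ ∑ v, N.g v * ∑ a ∈ A, (if N.rank v < N.rank a then
        (N.deg v (Finset.univ.filter fun w => N.rank a ≤ N.rank w) : ℝ) else 0) := by
        refine Finset.sum_le_sum fun v _ => ?_
        exact mul_le_mul_of_nonneg_left (h1 v) (N.g_nonneg v)
    _ = ∑ a ∈ A, ∑ v ∈ Finset.univ.filter (fun v => N.rank v < N.rank a),
        N.g v * (N.deg v (Finset.univ.filter fun w => N.rank a ≤ N.rank w) : ℝ) := by
        simp only [Finset.mul_sum]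
        rw [Finset.sum_comm]
        refine Finset.sum_congr rfl fun a _ => ?_
        rw [Finset.sum_filter]
        refine Finset.sum_congr rfl fun v _ => ?_
        split_ifs <;> simp
    _ ≤ ∑ a ∈ A, (1 : ℝ) := by
        refine Finset.sum_le_sum fun a _ => ?_
        refine (N.cut (N.rank a)).trans ?_
        split_ifs <;> norm_num
    _ = A.card := by simp

/-- The passing inequality in the form used below. -/
lemma passing' (A B : Finset V) : ∑ v ∈ B, N.g v * (N.deg v A : ℝ) ^ 2 ≤
    2 * A.card + ∑ v ∈ B, N.g v * (N.deg v A : ℝ) := by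
  have h1 : ∀ v, (N.deg v A : ℝ) ^ 2 = 2 * (N.pairs (N.nbs v ∩ A) : ℝ) + N.deg v A := by
    intro v
    have h2 := N.two_mul_pairs (N.nbs v ∩ A)
    unfold deg
    have h3 : (2 : ℝ) * (N.pairs (N.nbs v ∩ A) : ℝ) + ((N.nbs v ∩ A).card : ℝ) =
        ((N.nbs v ∩ A).card : ℝ) * ((N.nbs v ∩ A).card : ℝ) := by exact_mod_cast h2
    rw [h3]; ring
  have h2 : ∑ v ∈ B, N.g v * (N.deg v A : ℝ) ^ 2 =
      2 * ∑ v ∈ B, N.g v * (N.pairs (N.nbs v ∩ A) : ℝ) + ∑ v ∈ B, N.g v * (N.deg v A : ℝ) := by
    rw [Finset.mul_sum, ← Finset.sum_add_distrib]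
    refine Finset.sum_congr rfl fun v _ => ?_
    rw [h1 v]; ring
  rw [h2]
  have h3 : ∑ v ∈ B, N.g v * (N.pairs (N.nbs v ∩ A) : ℝ) ≤
      ∑ v, N.g v * (N.pairs (N.nbs v ∩ A) : ℝ) := by
    apply Finset.sum_le_sum_of_subset_of_nonneg (Finset.subset_univ _)
    intro v _ _
    exact mul_nonneg (N.g_nonneg v) (Nat.cast_nonneg _)
  have h4 := N.passing A
  linarith

/-- Balance: the flow into a set without sinks is at most the flow out of it. -/
lemma balance (H : Finset V) (hH : ∀ v ∈ H, 0 < N.m v) :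
    ∑ v ∈ Hᶜ, N.g v * (N.deg v H : ℝ) ≤ ∑ v ∈ H, N.g v * (N.deg v Hᶜ : ℝ) := by
  have h1 := N.sum_in H
  have h2 : ∑ v, N.g v * (N.deg v H : ℝ) = ∑ v ∈ H, N.g v * (N.deg v H : ℝ) +
      ∑ v ∈ Hᶜ, N.g v * (N.deg v H : ℝ) := (Finset.sum_add_sum_compl H _).symm
  have h3 : ∑ v ∈ H, N.p v = ∑ v ∈ H, N.g v * (N.deg v H : ℝ) +
      ∑ v ∈ H, N.g v * (N.deg v Hᶜ : ℝ) := by
    rw [← Finset.sum_add_distrib]
    refine Finset.sum_congr rfl fun v hv => ?_
    rw [← N.m_mul_g v (hH v hv), ← N.deg_add_deg_compl v H]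
    push_cast
    ring
  have h4 : (0 : ℝ) ≤ if N.v0 ∈ H then 1 else 0 := by split_ifs <;> norm_num
  linarith

/-- the vertices of outdegree less than `2 ^ (j + 1)` -/
def low (j : ℕ) : Finset V := Finset.univ.filter fun v => N.m v < 2 ^ (j + 1)

/-- the dyadic class -/
def cls (j : ℕ) : Finset V := Finset.univ.filter fun v => Nat.log 2 (N.m v) = j

/-- expected number of visits of the class -/
noncomputable def X (j : ℕ) : ℝ := ∑ v ∈ N.cls j, N.p v

lemma X_nonneg (j : ℕ) : 0 ≤ N.X j := Finset.sum_nonneg fun v _ => N.p_nonneg v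

lemma cls_sub_low (j : ℕ) : N.cls j ⊆ N.low j := by
  intro v hv
  unfold cls at hv
  unfold low
  rw [Finset.mem_filter] at hv ⊢
  refine ⟨Finset.mem_univ _, ?_⟩
  rw [← hv.2]
  exact Nat.lt_pow_succ_log_self (by norm_num) _

lemma X_le_card (j : ℕ) : N.X j ≤ (N.low j).card := by
  unfold X
  calc ∑ v ∈ N.cls j, N.p v ≤ ∑ v ∈ N.cls j, (1 : ℝ) :=
        Finset.sum_le_sum fun v _ => N.p_le_one v
    _ = (N.cls j).card := by simp
    _ ≤ (N.low j).card := by exact_mod_cast Finset.card_le_card (N.cls_sub_low j)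

/-- The step of the recursion. -/
lemma X_step {M B : ℝ} {J j : ℕ} (hj : 1 ≤ j) (hjJ : j < J) (hJ : ∀ v, N.m v < 2 ^ J)
    (hM : ((N.low j).card : ℝ) ≤ M * 2 ^ j)
    (hB : ∀ i, j < i → i < J → N.X i ≤ B * M) (hMB : 0 ≤ B * M) :
    ∃ F : ℝ, N.X j ≤ F ∧ F ≤ 2 * M + F / 2 ^ j + N.X j / 4 + B * M / 4 := by
  classical
  set A := N.low j with hA
  set H := Aᶜ with hH
  set L := N.cls j with hL
  have hHA : Hᶜ = A := by rw [hH, compl_compl]
  have hmH : ∀ v ∈ H, 2 ^ (j + 1) ≤ N.m v := by
    intro v hv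
    rw [hH, Finset.mem_compl, hA] at hv
    unfold low at hv
    rw [Finset.mem_filter] at hv
    push Not at hv
    exact hv (Finset.mem_univ _)
  have hmL : ∀ v ∈ L, 2 ^ j ≤ N.m v := by
    intro v hv
    rw [hL] at hv
    unfold cls at hv
    rw [Finset.mem_filter] at hv
    have h1 : N.m v ≠ 0 := by
      intro h
      rw [h] at hv
      simp at hv
      omega
    have := Nat.pow_log_le_self 2 h1
    rwa [hv.2] at this
  have hLA : L ⊆ A := N.cls_sub_low j
  have hdisj : Disjoint L H := by
    rw [hH, Finset.disjoint_left]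
    intro v hv hv'
    rw [Finset.mem_compl] at hv'
    exact hv' (hLA hv)
  have hposH : ∀ v ∈ H, 0 < N.m v := fun v hv => lt_of_lt_of_le (by positivity) (hmH v hv)
  have hposL : ∀ v ∈ L, 0 < N.m v := fun v hv => lt_of_lt_of_le (by positivity) (hmL v hv)
  set F := ∑ v ∈ L ∪ H, N.g v * (N.deg v A : ℝ) with hF
  have hF' : F = ∑ v ∈ L, N.g v * (N.deg v A : ℝ) + ∑ v ∈ H, N.g v * (N.deg v A : ℝ) := by
    rw [hF, Finset.sum_union hdisj]
  refine ⟨F, ?_, ?_⟩
  · -- `X j ≤ F`
    have h1 : N.X j = ∑ v ∈ L, N.g v * (N.deg v A : ℝ) + ∑ v ∈ L, N.g v * (N.deg v H : ℝ) := by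
      unfold X
      rw [← Finset.sum_add_distrib]
      refine Finset.sum_congr rfl fun v hv => ?_
      rw [← N.m_mul_g v (hposL v hv), ← N.deg_add_deg_compl v A]
      push_cast
      ring
    have h2 : ∑ v ∈ L, N.g v * (N.deg v H : ℝ) ≤ ∑ v ∈ Hᶜ, N.g v * (N.deg v H : ℝ) := by
      rw [hHA]
      apply Finset.sum_le_sum_of_subset_of_nonneg hLA
      intro v _ _
      exact mul_nonneg (N.g_nonneg v) (Nat.cast_nonneg _)
    have h3 := N.balance H hposH
    have h4 : ∑ v ∈ H, N.g v * (N.deg v Hᶜ : ℝ) = ∑ v ∈ H, N.g v * (N.deg v A : ℝ) := by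
      rw [hHA]
    rw [h1, hF']
    linarith
  · -- upper bound for `F`
    have hK : (0 : ℝ) < 2 ^ j := by positivity
    have h1 := N.passing' A (L ∪ H)
    have h2 : F ≤ (1 / 2 ^ j) * ∑ v ∈ L ∪ H, N.g v * (N.deg v A : ℝ) ^ 2 +
        (2 ^ j / 4) * ∑ v ∈ L ∪ H, N.g v := by
      rw [hF, Finset.mul_sum, Finset.mul_sum, ← Finset.sum_add_distrib]
      refine Finset.sum_le_sum fun v _ => ?_
      have h3 := N.g_nonneg v
      have h4 : (N.deg v A : ℝ) ≤ (1 / 2 ^ j) * (N.deg v A : ℝ) ^ 2 + 2 ^ j / 4 := by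
        have h5 : (1 / 2 ^ j : ℝ) * (N.deg v A : ℝ) ^ 2 + 2 ^ j / 4 - (N.deg v A : ℝ) =
            (1 / 2 ^ j) * ((N.deg v A : ℝ) - 2 ^ j / 2) ^ 2 := by
          field_simp
          ring
        have h6 : 0 ≤ (1 / 2 ^ j : ℝ) * ((N.deg v A : ℝ) - 2 ^ j / 2) ^ 2 := by positivity
        linarith
      calc N.g v * (N.deg v A : ℝ) ≤ N.g v * ((1 / 2 ^ j) * (N.deg v A : ℝ) ^ 2 + 2 ^ j / 4) :=
            mul_le_mul_of_nonneg_left h4 h3
        _ = _ := by ring
    -- the total of `g` over `L ∪ H`
    have h3 : ∑ v ∈ L ∪ H, N.g v ≤ N.X j / 2 ^ j + B * M / 2 ^ j := by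
      rw [Finset.sum_union hdisj]
      apply add_le_add
      · unfold X
        rw [Finset.sum_div]
        refine Finset.sum_le_sum fun v hv => ?_
        unfold g
        have h4 : (2 : ℝ) ^ j ≤ N.m v := by exact_mod_cast hmL v hv
        exact div_le_div_of_nonneg_left (N.p_nonneg v) hK h4
      · have h4 : ∑ v ∈ H, N.g v ≤ ∑ i ∈ Finset.Ico (j + 1) J, N.X i / 2 ^ i := by
          have h5 : H ⊆ (Finset.Ico (j + 1) J).biUnion N.cls := by
            intro v hv
            rw [Finset.mem_biUnion]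
            refine ⟨Nat.log 2 (N.m v), ?_, ?_⟩
            · rw [Finset.mem_Ico]
              constructor
              · exact Nat.le_log_of_pow_le (by norm_num) (hmH v hv)
              · exact Nat.log_lt_of_lt_pow (hposH v hv).ne' (hJ v)
            · unfold cls
              rw [Finset.mem_filter]
              exact ⟨Finset.mem_univ _, rfl⟩
          calc ∑ v ∈ H, N.g v ≤ ∑ v ∈ (Finset.Ico (j + 1) J).biUnion N.cls, N.g v := by
                apply Finset.sum_le_sum_of_subset_of_nonneg h5
                intro v _ _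
                exact N.g_nonneg v
            _ = ∑ i ∈ Finset.Ico (j + 1) J, ∑ v ∈ N.cls i, N.g v := by
                apply Finset.sum_biUnion
                intro i _ i' _ hne
                rw [Function.onFun, Finset.disjoint_left]
                intro v hv hv'
                unfold cls at hv hv'
                rw [Finset.mem_filter] at hv hv'
                exact hne (hv.2.symm.trans hv'.2)
            _ ≤ _ := by
                refine Finset.sum_le_sum fun i hi => ?_
                unfold X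
                rw [Finset.sum_div]
                refine Finset.sum_le_sum fun v hv => ?_
                unfold cls at hv
                rw [Finset.mem_filter] at hv
                rw [Finset.mem_Ico] at hi
                have h6 : N.m v ≠ 0 := by
                  intro h
                  rw [h] at hv
                  simp at hv
                  omega
                have h7 := Nat.pow_log_le_self 2 h6
                rw [hv.2] at h7
                unfold g
                have h8 : (2 : ℝ) ^ i ≤ N.m v := by exact_mod_cast h7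
                exact div_le_div_of_nonneg_left (N.p_nonneg v) (by positivity) h8
        have h5 : ∑ i ∈ Finset.Ico (j + 1) J, N.X i / 2 ^ i ≤
            ∑ i ∈ Finset.Ico (j + 1) J, B * M / 2 ^ i := by
          refine Finset.sum_le_sum fun i hi => ?_
          rw [Finset.mem_Ico] at hi
          have := hB i (by omega) hi.2
          gcongr
        have h6 : ∀ n : ℕ, ∑ i ∈ Finset.Ico (j + 1) (j + 1 + n), B * M / 2 ^ i =
            B * M * (1 / 2 ^ j - 1 / 2 ^ (j + n)) := by
          intro n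
          induction n with
          | zero => simp
          | succ n ih =>
            rw [← Nat.add_assoc, Finset.sum_Ico_succ_top (by omega), ih]
            have e1 : (2 : ℝ) ^ (j + 1 + n) = 2 ^ (j + n) * 2 := by ring
            have e2 : (2 : ℝ) ^ (j + n + 1) = 2 ^ (j + n) * 2 := by ring
            rw [e1, ← Nat.add_assoc, e2]
            field_simp
            ring
        have h7 := h6 (J - (j + 1))
        rw [show j + 1 + (J - (j + 1)) = J by omega] at h7
        rw [h7] at h5
        refine (h4.trans h5).trans ?_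
        have h8 : (0 : ℝ) ≤ 1 / 2 ^ (j + (J - (j + 1))) := by positivity
        have h9 : B * M * (1 / 2 ^ j - 1 / 2 ^ (j + (J - (j + 1)))) ≤ B * M * (1 / 2 ^ j) := by
          apply mul_le_mul_of_nonneg_left _ hMB
          linarith
        refine h9.trans (le_of_eq ?_)
        ring
    rw [← hF] at h1
    have h4 : (1 / 2 ^ j : ℝ) * ∑ v ∈ L ∪ H, N.g v * (N.deg v A : ℝ) ^ 2 ≤
        (1 / 2 ^ j) * (2 * (M * 2 ^ j) + F) := by
      apply mul_le_mul_of_nonneg_left _ (by positivity)
      linarith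
    have h5 : (2 ^ j / 4 : ℝ) * ∑ v ∈ L ∪ H, N.g v ≤
        (2 ^ j / 4) * (N.X j / 2 ^ j + B * M / 2 ^ j) := by
      apply mul_le_mul_of_nonneg_left h3 (by positivity)
    have h6 : (1 / 2 ^ j : ℝ) * (2 * (M * 2 ^ j) + F) = 2 * M + F / 2 ^ j := by
      field_simp
    have h7 : (2 ^ j / 4 : ℝ) * (N.X j / 2 ^ j + B * M / 2 ^ j) = N.X j / 4 + B * M / 4 := by
      field_simp
    linarith

/-- **Every class is visited at most `6 M` times on average.** -/
lemma X_le {M : ℝ} {J : ℕ} (hJ : ∀ v, N.m v < 2 ^ J)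
    (hM : ∀ j < J, ((N.low j).card : ℝ) ≤ M * 2 ^ j) (hM0 : 0 ≤ M) :
    ∀ t : ℕ, ∀ j < J, J ≤ j + t → N.X j ≤ 6 * M := by
  intro t
  induction t with
  | zero => intro j h1 h2; omega
  | succ t ih =>
    intro j hj hjt
    by_cases h3 : j < 3
    · have h4 := N.X_le_card j
      have h5 := hM j hj
      interval_cases j <;> norm_num at h5 <;> linarith
    · push Not at h3
      obtain ⟨F, hF1, hF2⟩ := N.X_step (B := 6) (by omega) hj hJ (hM j hj)
        (fun i hi hi' => ih i hi' (by omega)) (by positivity)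
      have h4 : (8 : ℝ) ≤ 2 ^ j := by
        calc (8 : ℝ) = 2 ^ 3 := by norm_num
          _ ≤ 2 ^ j := pow_le_pow_right₀ (by norm_num) h3
      have h5 : 0 ≤ F := (N.X_nonneg j).trans hF1
      have h6 : F / 2 ^ j ≤ F / 8 := div_le_div_of_nonneg_left h5 (by norm_num) h4
      linarith

/-- **The multi-scale bound.** -/
theorem sum_p_le {M : ℝ} {J : ℕ} (hJ1 : 1 ≤ J) (hJ : ∀ v, N.m v < 2 ^ J)
    (hM : ∀ j < J, ((N.low j).card : ℝ) ≤ M * 2 ^ j) (hM0 : 0 ≤ M) :
    ∑ v, N.p v ≤ 6 * M * J := by
  classical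
  have h1 : (Finset.univ : Finset V) = (Finset.range J).biUnion N.cls := by
    ext v
    simp only [Finset.mem_univ, Finset.mem_biUnion, Finset.mem_range, true_iff]
    refine ⟨Nat.log 2 (N.m v), ?_, ?_⟩
    · by_cases h : N.m v = 0
      · rw [h]; simp; omega
      · exact Nat.log_lt_of_lt_pow h (hJ v)
    · unfold cls
      rw [Finset.mem_filter]
      exact ⟨Finset.mem_univ _, rfl⟩
  rw [h1, Finset.sum_biUnion]
  · calc ∑ j ∈ Finset.range J, ∑ v ∈ N.cls j, N.p v ≤ ∑ j ∈ Finset.range J, 6 * M := by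
          refine Finset.sum_le_sum fun j hj => ?_
          rw [Finset.mem_range] at hj
          exact N.X_le hJ hM hM0 J j hj (by omega)
      _ = 6 * M * J := by
          rw [Finset.sum_const, Finset.card_range, nsmul_eq_mul]
          ring
  · intro i _ i' _ hne
    rw [Function.onFun, Finset.disjoint_left]
    intro v hv hv'
    unfold cls at hv hv'
    rw [Finset.mem_filter] at hv hv'
    exact hne (hv.2.symm.trans hv'.2)

end Net

end Pool.Agent.Hhelper78.RandomEdgePoly
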