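import Pool.Agent.FewFacets.Poly
import Pool.Agent.Hhelper78.RandomEdge.System
import Pool.Agent.Hhelper78.RandomEdgePoly.Flow

/-!
# The flow of an instance of arbitrary dimension, and vertices of low outdegree
-/

open scoped ENNReal
open Matrix Pool.Agent.Hhelper78.RandomEdge Pool.Agent.FewFacets

namespace Pool.Agent.Hhelper78.RandomEdgePoly

variable {d n : ℕ} (L : LPInstance d n)

/-- the improving neighbours -/
noncomputable def nbsV (v : FewFacets.Vert L) : Finset (FewFacets.Vert L) :=
  (FewFacets.outV L v).image (FewFacets.nbV L v)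

lemma mem_improving_iff (v w : FewFacets.Vert L) : w.1 ∈ L.improving v.1 ↔ w ∈ nbsV L v := by
  rw [FewFacets.improving_eq, nbsV, Set.mem_image, Finset.mem_image]
  constructor
  · rintro ⟨i, hi, h⟩
    exact ⟨i, hi, Subtype.ext h⟩
  · rintro ⟨i, hi, h⟩
    exact ⟨i, hi, congrArg Subtype.val h⟩

lemma card_nbsV (v : FewFacets.Vert L) : (nbsV L v).card = (FewFacets.outV L v).card := by
  unfold nbsV
  rw [Finset.card_image_of_injOn]
  intro i hi j hj h
  exact FewFacets.nb_inj L v ((FewFacets.mem_outV L).mp hi).1 ((FewFacets.mem_outV L).mp hj).1 h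

lemma stepProb_eq' (v w : FewFacets.Vert L) : L.stepProb v.1 w.1 =
    if w ∈ nbsV L v then ((nbsV L v).card : ℝ≥0∞)⁻¹ else 0 := by
  classical
  unfold LPInstance.stepProb
  rw [FewFacets.ncard_improving, card_nbsV]
  by_cases h : w ∈ nbsV L v
  · rw [if_pos h, if_pos ((mem_improving_iff L v w).mpr h)]
  · rw [if_neg h, if_neg (fun h' => h ((mem_improving_iff L v w).mp h'))]

/-- expected number of visits -/
noncomputable def qE (w : Fin d → ℝ) : ℝ≥0∞ := ∑' t, L.walk t w

lemma qE_rec (w : FewFacets.Vert L) : qE L w.1 = (if w.1 = L.v₀ then 1 else 0) +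
    ∑ v ∈ Finset.univ.filter (fun v => w ∈ nbsV L v),
      qE L v.1 * ((nbsV L v).card : ℝ≥0∞)⁻¹ := by
  classical
  have h1 : qE L w.1 = L.walk 0 w.1 + ∑' t, L.walk (t + 1) w.1 := by
    unfold qE
    exact tsum_eq_zero_add' ENNReal.summable
  have h2 : ∑' t, L.walk (t + 1) w.1 = ∑ v : FewFacets.Vert L, qE L v.1 * L.stepProb v.1 w.1 := by
    calc ∑' t, L.walk (t + 1) w.1 = ∑' t, ∑' v, L.walk t v * L.stepProb v w.1 := by
          refine tsum_congr fun t => ?_
          rw [LPInstance.walk]
      _ = ∑' v, ∑' t, L.walk t v * L.stepProb v w.1 := ENNReal.tsum_comm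
      _ = ∑' v, qE L v * L.stepProb v w.1 := by
          refine tsum_congr fun v => ?_
          rw [ENNReal.tsum_mul_right]
          rfl
      _ = _ := by
          apply FewFacets.tsum_vert L (fun v => qE L v * L.stepProb v w.1)
          intro v hv
          have : qE L v = 0 := by
            unfold qE
            rw [ENNReal.tsum_eq_zero]
            exact fun t => FewFacets.walk_eq_zero L t v hv
          simp only [this, zero_mul]
  rw [h1, h2]
  have h0 : L.walk 0 w.1 = if w.1 = L.v₀ then 1 else 0 := by
    unfold LPInstance.walk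
    rfl
  rw [h0]
  congr 1
  rw [Finset.sum_filter]
  refine Finset.sum_congr rfl fun v _ => ?_
  rw [stepProb_eq']
  split_ifs <;> simp

/-- the ranking -/
noncomputable def rankV : FewFacets.Vert L → ℕ :=
  (exists_rank fun v : FewFacets.Vert L => L.c ⬝ᵥ v.1).choose

lemma rankV_inj : Function.Injective (rankV L) :=
  (exists_rank fun v : FewFacets.Vert L => L.c ⬝ᵥ v.1).choose_spec.1

lemma rankV_lt (v w : FewFacets.Vert L) (h : w ∈ nbsV L v) : rankV L v < rankV L w :=
  (exists_rank fun v : FewFacets.Vert L => L.c ⬝ᵥ v.1).choose_spec.2 _ _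
    ((mem_improving_iff L v w).mpr h).2

lemma qE_ne_top (w : FewFacets.Vert L) : qE L w.1 ≠ ⊤ := by
  classical
  induction hr : rankV L w using Nat.strong_induction_on generalizing w with
  | _ m ih =>
    rw [qE_rec]
    refine ENNReal.add_ne_top.mpr ⟨by split_ifs <;> simp, ?_⟩
    rw [ENNReal.sum_ne_top]
    intro v hv
    rw [Finset.mem_filter] at hv
    refine ENNReal.mul_ne_top (ih (rankV L v) (by rw [← hr]; exact rankV_lt L v w hv.2) _ rfl) ?_
    rw [ENNReal.inv_ne_top]
    have : 0 < (nbsV L v).card := Finset.card_pos.mpr ⟨_, hv.2⟩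
    exact_mod_cast this.ne'

/-- The flow of the walk of an instance. -/
noncomputable def net : Net (FewFacets.Vert L) where
  rank := rankV L
  rank_inj := rankV_inj L
  nbs := nbsV L
  lt v w h := rankV_lt L v w h
  v0 := ⟨L.v₀, L.start⟩
  p v := (qE L v.1).toReal
  p_nonneg _ := ENNReal.toReal_nonneg
  rec_eq w := by
    classical
    have hf : ∀ v ∈ Finset.univ.filter (fun v => w ∈ nbsV L v),
        qE L v.1 * ((nbsV L v).card : ℝ≥0∞)⁻¹ ≠ ⊤ := by
      intro v hv
      rw [Finset.mem_filter] at hv
      refine ENNReal.mul_ne_top (qE_ne_top L _) ?_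
      rw [ENNReal.inv_ne_top]
      have : 0 < (nbsV L v).card := Finset.card_pos.mpr ⟨_, hv.2⟩
      exact_mod_cast this.ne'
    rw [qE_rec, ENNReal.toReal_add (by split_ifs <;> simp)]
    · congr 1
      · have : (w.1 = L.v₀) ↔ (w = ⟨L.v₀, L.start⟩) := by
          rw [Subtype.ext_iff]
        by_cases h : w.1 = L.v₀
        · rw [if_pos h, if_pos (this.mp h)]; simp
        · rw [if_neg h, if_neg (fun h' => h (this.mpr h'))]; simp
      · rw [ENNReal.toReal_sum hf]
        refine Finset.sum_congr rfl fun v _ => ?_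
        rw [ENNReal.toReal_mul, ENNReal.toReal_inv, ENNReal.toReal_natCast, div_eq_mul_inv]
    · rw [ENNReal.sum_ne_top]
      exact hf

lemma expectedSteps_le_sum : L.expectedSteps ≤ ENNReal.ofReal (∑ v, (net L).p v) := by
  classical
  have h1 : L.expectedSteps = ∑' w, ∑' t, L.walk (t + 1) w := ENNReal.tsum_comm
  rw [h1]
  calc ∑' w, ∑' t, L.walk (t + 1) w ≤ ∑' w, qE L w := by
        refine ENNReal.tsum_le_tsum fun w => ?_
        unfold qE
        rw [tsum_eq_zero_add' (f := fun t => L.walk t w) ENNReal.summable]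
        exact le_add_self
    _ = ∑ v : FewFacets.Vert L, qE L v.1 := by
        apply FewFacets.tsum_vert L (fun v => qE L v)
        intro v hv
        unfold qE
        rw [ENNReal.tsum_eq_zero]
        exact fun t => FewFacets.walk_eq_zero L t v hv
    _ = ENNReal.ofReal (∑ v, (net L).p v) := by
        rw [ENNReal.ofReal_sum_of_nonneg (fun v _ => (net L).p_nonneg v)]
        refine Finset.sum_congr rfl fun v _ => ?_
        exact (ENNReal.ofReal_toReal (qE_ne_top L v)).symm

/-! ### Vertices of low outdegree -/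

lemma choose_sub_ge (d k s : ℕ) (hs : s ≤ d) :
    d.choose (k + 1) ≤ (d - s).choose (k + 1) + s * (d - 1).choose k := by
  induction s with
  | zero => simp
  | succ s ih =>
    have h1 := ih (by omega)
    have h2 : (d - s).choose (k + 1) = (d - (s + 1)).choose k + (d - (s + 1)).choose (k + 1) := by
      rw [show d - s = (d - (s + 1)) + 1 by omega, Nat.choose_succ_succ]
    have h3 : (d - (s + 1)).choose k ≤ (d - 1).choose k := Nat.choose_le_choose k (by omega)
    rw [h2] at h1
    have h4 : (s + 1) * (d - 1).choose k = s * (d - 1).choose k + (d - 1).choose k := by ring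
    omega

lemma choose_half (d k s : ℕ) (hs : s ≤ d) (hd : 1 ≤ d) (h : 2 * s * k ≤ d) :
    d.choose k ≤ 2 * (d - s).choose k := by
  rcases k with _ | k
  · simp
  · have h1 := choose_sub_ge d k s hs
    have h2 : d * (d - 1).choose k = d.choose (k + 1) * (k + 1) := by
      have := Nat.add_one_mul_choose_eq (d - 1) k
      rwa [show d - 1 + 1 = d by omega] at this
    have h3 : 2 * (s * (d - 1).choose k) ≤ d.choose (k + 1) := by
      have h4 : d * (2 * (s * (d - 1).choose k)) = (2 * s * (k + 1)) * d.choose (k + 1) := by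
        calc d * (2 * (s * (d - 1).choose k)) = 2 * s * (d * (d - 1).choose k) := by ring
          _ = _ := by rw [h2]; ring
      have h5 : d * (2 * (s * (d - 1).choose k)) ≤ d * d.choose (k + 1) := by
        rw [h4]
        exact Nat.mul_le_mul_right _ h
      exact Nat.le_of_mul_le_mul_left h5 (by omega)
    omega

/-- the facets containing a vertex -/
noncomputable abbrev tI (v : FewFacets.Vert L) : Finset (Fin n) := tight L.A L.b v.1

lemma outV_sub (v : FewFacets.Vert L) : FewFacets.outV L v ⊆ tI L v :=
  fun _ hi => ((FewFacets.mem_outV L).mp hi).1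

lemma card_tI (v : FewFacets.Vert L) : (tI L v).card = d := L.simple _ v.2

/-- every face of dimension `k` has at least `k + 1` vertices -/
lemma face_card (v : FewFacets.Vert L) (S : Finset (Fin n)) (hS : S ⊆ tI L v) :
    (tI L v \ S).card + 1 ≤ (Finset.univ.filter fun w : FewFacets.Vert L => S ⊆ tI L w).card := by
  classical
  have h1 : insert v ((tI L v \ S).image (FewFacets.nbV L v)) ⊆
      Finset.univ.filter fun w : FewFacets.Vert L => S ⊆ tI L w := by
    intro w hw
    rw [Finset.mem_filter]
    refine ⟨Finset.mem_univ _, ?_⟩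
    rw [Finset.mem_insert, Finset.mem_image] at hw
    rcases hw with rfl | ⟨i, hi, rfl⟩
    · exact hS
    · rw [Finset.mem_sdiff] at hi
      intro a ha
      apply FewFacets.erase_sub_nb L v i hi.1
      rw [Finset.mem_erase]
      exact ⟨fun h => hi.2 (h ▸ ha), hS ha⟩
  refine le_trans (le_of_eq ?_) (Finset.card_le_card h1)
  rw [Finset.card_insert_of_notMem, Finset.card_image_of_injOn]
  · intro i hi j hj h
    have hi' := Finset.mem_sdiff.mp (Finset.mem_coe.mp hi)
    have hj' := Finset.mem_sdiff.mp (Finset.mem_coe.mp hj)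
    exact FewFacets.nb_inj L v hi'.1 hj'.1 h
  · intro h
    rw [Finset.mem_image] at h
    obtain ⟨i, hi, h⟩ := h
    rw [Finset.mem_sdiff] at hi
    exact (FewFacets.nb_spec L v i hi.1).1 (congrArg Subtype.val h)

/-- counting the faces of dimension `k` by their highest vertices -/
lemma face_count (k : ℕ) (hk : k ≤ d) :
    (k + 1) * ∑ v : FewFacets.Vert L, (tI L v \ FewFacets.outV L v).card.choose k ≤
      Fintype.card (FewFacets.Vert L) * d.choose k := by
  classical
  set P : Finset (FewFacets.Vert L × Finset (Fin n)) := Finset.univ.filter fun e =>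
    e.2 ⊆ tI L e.1 ∧ FewFacets.outV L e.1 ⊆ e.2 ∧ e.2.card = d - k with hP
  set Q : Finset (FewFacets.Vert L × Finset (Fin n)) := Finset.univ.filter fun e =>
    e.2 ⊆ tI L e.1 ∧ e.2.card = d - k with hQ
  -- the number of pairs in `P`
  have h1 : ∑ v : FewFacets.Vert L, (tI L v \ FewFacets.outV L v).card.choose k = P.card := by
    have h2 : P.card = ∑ v : FewFacets.Vert L, (P.filter fun e => e.1 = v).card :=
      Finset.card_eq_sum_card_fiberwise (fun e _ => Finset.mem_univ _)
    rw [h2]
    refine Finset.sum_congr rfl fun v _ => ?_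
    rw [← Finset.card_powersetCard]
    refine Finset.card_bij (fun T _ => (v, tI L v \ T)) ?_ ?_ ?_
    · intro T hT
      rw [Finset.mem_powersetCard] at hT
      simp only [hP, Finset.mem_filter, Finset.mem_univ, true_and, and_true]
      refine ⟨Finset.sdiff_subset, ?_, ?_⟩
      · intro i hi
        rw [Finset.mem_sdiff]
        refine ⟨outV_sub L v hi, fun h => ?_⟩
        exact (Finset.mem_sdiff.mp (hT.1 h)).2 hi
      · rw [Finset.card_sdiff_of_subset (hT.1.trans Finset.sdiff_subset), hT.2, card_tI]
    · intro T hT T' hT' h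
      rw [Finset.mem_powersetCard] at hT hT'
      have h3 : tI L v \ T = tI L v \ T' := (Prod.mk.injEq _ _ _ _ ▸ h).2
      have h4 : tI L v \ (tI L v \ T) = T :=
        Finset.sdiff_sdiff_eq_self (hT.1.trans Finset.sdiff_subset)
      have h5 : tI L v \ (tI L v \ T') = T' :=
        Finset.sdiff_sdiff_eq_self (hT'.1.trans Finset.sdiff_subset)
      rw [← h4, ← h5, h3]
    · rintro ⟨w, S⟩ he
      simp only [hP, Finset.mem_filter, Finset.mem_univ, true_and] at he
      obtain ⟨⟨h3, h4, h5⟩, rfl⟩ := he
      refine ⟨tI L w \ S, ?_, ?_⟩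
      · rw [Finset.mem_powersetCard]
        refine ⟨Finset.sdiff_subset_sdiff (le_refl _) h4, ?_⟩
        rw [Finset.card_sdiff_of_subset h3, h5, card_tI]
        omega
      · rw [Finset.sdiff_sdiff_eq_self h3]
  have h2 : Q.card = Fintype.card (FewFacets.Vert L) * d.choose k := by
    have h3 : Q.card = ∑ v : FewFacets.Vert L, (Q.filter fun e => e.1 = v).card :=
      Finset.card_eq_sum_card_fiberwise (fun e _ => Finset.mem_univ _)
    rw [h3]
    have h4 : ∀ v : FewFacets.Vert L, (Q.filter fun e => e.1 = v).card = d.choose k := by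
      intro v
      rw [← Nat.choose_symm hk]
      have h5 : d.choose (d - k) = ((tI L v).powersetCard (d - k)).card := by
        rw [Finset.card_powersetCard, card_tI]
      rw [h5]
      symm
      refine Finset.card_bij (fun T _ => (v, T)) ?_ ?_ ?_
      · intro T hT
        rw [Finset.mem_powersetCard] at hT
        simp only [hQ, Finset.mem_filter, Finset.mem_univ, true_and, and_true]
        exact hT
      · intro T _ T' _ h
        exact (Prod.mk.injEq _ _ _ _ ▸ h).2
      · rintro ⟨w, S⟩ he
        simp only [hQ, Finset.mem_filter, Finset.mem_univ, true_and] at he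
        obtain ⟨h3, rfl⟩ := he
        exact ⟨S, Finset.mem_powersetCard.mpr h3, rfl⟩
    rw [Finset.sum_congr rfl fun v _ => h4 v, Finset.sum_const, smul_eq_mul, Finset.card_univ]
  -- the sets that occur
  have hinj : Set.InjOn Prod.snd (P : Set (FewFacets.Vert L × Finset (Fin n))) := by
    rintro ⟨v, S⟩ h3 ⟨w, S'⟩ h4 h
    simp only at h
    subst h
    simp only [hP, Finset.coe_filter, Set.mem_ofPred_eq, Finset.mem_univ, true_and] at h3 h4
    have : v = w := by
      rcases le_total (L.c ⬝ᵥ v.1) (L.c ⬝ᵥ w.1) with hle | hle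
      · exact FewFacets.max_face L v w (h3.2.1.trans h4.1) hle
      · exact (FewFacets.max_face L w v (h4.2.1.trans h3.1) hle).symm
    rw [this]
  have h3 : (P.image Prod.snd).card = P.card := Finset.card_image_of_injOn hinj
  have h4 : (k + 1) * (P.image Prod.snd).card ≤
      ∑ S ∈ P.image Prod.snd, (Q.filter fun e => e.2 = S).card := by
    rw [mul_comm, ← smul_eq_mul, ← Finset.sum_const]
    refine Finset.sum_le_sum fun S hS => ?_
    rw [Finset.mem_image] at hS
    obtain ⟨⟨v, S'⟩, he, rfl⟩ := hS
    simp only [hP, Finset.mem_filter, Finset.mem_univ, true_and] at he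
    have h5 := face_card L v S' he.1
    rw [Finset.card_sdiff_of_subset he.1, card_tI, he.2.2] at h5
    have h6 : d - (d - k) = k := by omega
    rw [h6] at h5
    refine h5.trans ?_
    apply Finset.card_le_card_of_injOn (fun w => (w, S'))
    · intro w hw
      simp only [Finset.coe_filter, Set.mem_ofPred_eq, Finset.mem_univ, true_and] at hw
      simp only [hQ, Finset.coe_filter, Set.mem_ofPred_eq, Finset.mem_univ, true_and,
        Finset.mem_filter, and_true]
      exact ⟨hw, he.2.2⟩
    · intro w _ w' _ h
      exact (Prod.mk.injEq _ _ _ _ ▸ h).1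
  have h5 : ∑ S ∈ P.image Prod.snd, (Q.filter fun e => e.2 = S).card ≤ Q.card := by
    have h6 : Q.card = ∑ S : Finset (Fin n), (Q.filter fun e => e.2 = S).card :=
      Finset.card_eq_sum_card_fiberwise (fun e _ => Finset.mem_univ _)
    rw [h6]
    exact Finset.sum_le_sum_of_subset (Finset.subset_univ _)
  rw [h1, ← h2, ← h3]
  exact h4.trans h5

/-- **There are few vertices of low outdegree.** -/
lemma low_count (s : ℕ) (hs : 1 ≤ s) :
    d * (Finset.univ.filter fun v : FewFacets.Vert L => (FewFacets.outV L v).card ≤ s).card ≤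
      4 * s * Fintype.card (FewFacets.Vert L) := by
  classical
  set A := Finset.univ.filter fun v : FewFacets.Vert L => (FewFacets.outV L v).card ≤ s with hA
  have hAle : A.card ≤ Fintype.card (FewFacets.Vert L) := Finset.card_le_univ _
  by_cases hsd : d ≤ 4 * s
  · exact Nat.mul_le_mul hsd hAle
  · push Not at hsd
    set k := d / (2 * s) with hk
    have hk1 : 2 * s * k ≤ d := Nat.mul_div_le _ _
    have hk2 : d < 2 * s * (k + 1) := Nat.lt_mul_div_succ _ (by omega)
    have hkd : k ≤ d := by
      rw [hk]
      exact Nat.div_le_self _ _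
    have h1 := face_count L k hkd
    have h2 : A.card * (d - s).choose k ≤
        ∑ v : FewFacets.Vert L, (tI L v \ FewFacets.outV L v).card.choose k := by
      calc A.card * (d - s).choose k = ∑ v ∈ A, (d - s).choose k := by
            rw [Finset.sum_const, smul_eq_mul]
        _ ≤ ∑ v ∈ A, (tI L v \ FewFacets.outV L v).card.choose k := by
            refine Finset.sum_le_sum fun v hv => ?_
            rw [hA, Finset.mem_filter] at hv
            apply Nat.choose_le_choose
            rw [Finset.card_sdiff_of_subset (outV_sub L v), card_tI]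
            omega
        _ ≤ _ := Finset.sum_le_sum_of_subset (Finset.subset_univ _)
    have h3 := choose_half d k s (by omega) (by omega) hk1
    have h4 : 0 < d.choose k := Nat.choose_pos hkd
    have h5 : (k + 1) * A.card ≤ 2 * Fintype.card (FewFacets.Vert L) := by
      have h6 : (k + 1) * A.card * d.choose k ≤ 2 * Fintype.card (FewFacets.Vert L) * d.choose k := by
        calc (k + 1) * A.card * d.choose k ≤ (k + 1) * A.card * (2 * (d - s).choose k) :=
              Nat.mul_le_mul_left _ h3
          _ = 2 * ((k + 1) * (A.card * (d - s).choose k)) := by ring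
          _ ≤ 2 * ((k + 1) *
              ∑ v : FewFacets.Vert L, (tI L v \ FewFacets.outV L v).card.choose k) := by
              gcongr
          _ ≤ 2 * (Fintype.card (FewFacets.Vert L) * d.choose k) := by gcongr
          _ = _ := by ring
      exact Nat.le_of_mul_le_mul_right h6 h4
    calc d * A.card ≤ 2 * s * (k + 1) * A.card := Nat.mul_le_mul_right _ hk2.le
      _ = 2 * s * ((k + 1) * A.card) := by ring
      _ ≤ 2 * s * (2 * Fintype.card (FewFacets.Vert L)) := Nat.mul_le_mul_left _ h5
      _ = _ := by ring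

/-- **Theorem A.** -/
theorem expectedSteps_le_card (hd : 1 ≤ d) : L.expectedSteps ≤ ENNReal.ofReal
    (48 * ((Nat.log 2 d + 1 : ℕ) : ℝ) / d * (Fintype.card (FewFacets.Vert L) : ℝ)) := by
  classical
  refine (expectedSteps_le_sum L).trans (ENNReal.ofReal_le_ofReal ?_)
  have hd' : (0 : ℝ) < d := by exact_mod_cast hd
  have hm : ∀ v, (net L).m v = (FewFacets.outV L v).card := fun v => card_nbsV L v
  have hJ : ∀ v, (net L).m v < 2 ^ (Nat.log 2 d + 1) := by
    intro v
    rw [hm]
    have h1 := Finset.card_le_card (outV_sub L v)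
    rw [card_tI] at h1
    exact lt_of_le_of_lt h1 (Nat.lt_pow_succ_log_self (by norm_num) _)
  have hM : ∀ j < Nat.log 2 d + 1, (((net L).low j).card : ℝ) ≤
      (8 * (Fintype.card (FewFacets.Vert L) : ℝ) / d) * 2 ^ j := by
    intro j _
    have h1 := low_count L (2 ^ (j + 1) - 1) (by
      have : 2 ≤ 2 ^ (j + 1) := by
        calc 2 = 2 ^ 1 := by norm_num
          _ ≤ 2 ^ (j + 1) := Nat.pow_le_pow_right (by norm_num) (by omega)
      omega)
    have h2 : (net L).low j ⊆
        Finset.univ.filter fun v : FewFacets.Vert L => (FewFacets.outV L v).card ≤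
          2 ^ (j + 1) - 1 := by
      intro v hv
      unfold Net.low at hv
      rw [Finset.mem_filter, hm] at hv
      rw [Finset.mem_filter]
      exact ⟨Finset.mem_univ _, by omega⟩
    have h3 := Finset.card_le_card h2
    have h4 : d * ((net L).low j).card ≤ 4 * 2 ^ (j + 1) * Fintype.card (FewFacets.Vert L) :=
      (Nat.mul_le_mul_left d h3).trans (h1.trans (Nat.mul_le_mul_right _
        (Nat.mul_le_mul_left _ (Nat.sub_le _ _))))
    have h5 : (d : ℝ) * (((net L).low j).card : ℝ) ≤
        4 * 2 ^ (j + 1) * (Fintype.card (FewFacets.Vert L) : ℝ) := by exact_mod_cast h4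
    rw [div_mul_eq_mul_div, le_div_iff₀ hd']
    calc (((net L).low j).card : ℝ) * d = (d : ℝ) * (((net L).low j).card : ℝ) := by ring
      _ ≤ _ := h5
      _ = _ := by ring
  have h1 := (net L).sum_p_le (J := Nat.log 2 d + 1) (by omega) hJ hM (by positivity)
  refine h1.trans (le_of_eq ?_)
  ring

end Pool.Agent.Hhelper78.RandomEdgePoly
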