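import Pool.Agent.Hhelper78.RandomEdgePoly.Region

/-!
# The abstract bound: any power of the dimension
-/

namespace Pool.Agent.Hhelper78.RandomEdgePoly

/-- the bounds for the times spent in regions -/
noncomputable def lv : ℕ → ℝ → ℝ
  | 0, _ => 1
  | s + 1, ρ => 34 * (9 * ((s : ℝ) + 1) * lv s ρ) ^ (s + 3) * ρ ^ s

lemma one_le_lv {ρ : ℝ} (hρ : 1 ≤ ρ) (s : ℕ) : 1 ≤ lv s ρ := by
  induction s with
  | zero => exact le_refl _
  | succ s ih =>
    unfold lv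
    have h0 : (0 : ℝ) ≤ s := Nat.cast_nonneg _
    have h1 : 1 ≤ 9 * ((s : ℝ) + 1) * lv s ρ := by nlinarith
    have h2 : 1 ≤ (9 * ((s : ℝ) + 1) * lv s ρ) ^ (s + 3) := one_le_pow₀ h1
    have h3 : 1 ≤ ρ ^ s := one_le_pow₀ hρ
    nlinarith

lemma lv_le_succ {ρ : ℝ} (hρ : 1 ≤ ρ) (s : ℕ) : lv s ρ ≤ lv (s + 1) ρ := by
  have hl := one_le_lv hρ s
  have h0 : (0 : ℝ) ≤ s := Nat.cast_nonneg _
  have h1 : lv s ρ ≤ 9 * ((s : ℝ) + 1) * lv s ρ := by nlinarith
  have h2 : 9 * ((s : ℝ) + 1) * lv s ρ ≤ (9 * ((s : ℝ) + 1) * lv s ρ) ^ (s + 3) :=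
    le_self_pow₀ (by linarith) (by omega)
  have h3 : 1 ≤ ρ ^ s := one_le_pow₀ hρ
  have h4 : lv (s + 1) ρ = 34 * (9 * ((s : ℝ) + 1) * lv s ρ) ^ (s + 3) * ρ ^ s := rfl
  rw [h4]
  have h5 : 1 ≤ (9 * ((s : ℝ) + 1) * lv s ρ) ^ (s + 3) := by linarith
  nlinarith

lemma lv_mono {ρ : ℝ} (hρ : 1 ≤ ρ) {s r : ℕ} (h : s ≤ r) : lv s ρ ≤ lv r ρ := by
  induction r, h using Nat.le_induction with
  | base => exact le_refl _
  | succ r _ ih => exact ih.trans (lv_le_succ hρ r)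

/-- `lv` is polynomial in `ρ` -/
lemma lv_poly (s : ℕ) : ∃ (C : ℝ) (E : ℕ), 1 ≤ C ∧ ∀ ρ : ℝ, 1 ≤ ρ → lv s ρ ≤ C * ρ ^ E := by
  induction s with
  | zero => exact ⟨1, 0, le_refl _, fun ρ _ => by simp [lv]⟩
  | succ s ih =>
    obtain ⟨C, E, hC, h⟩ := ih
    have h0 : (0 : ℝ) ≤ s := Nat.cast_nonneg _
    refine ⟨34 * (9 * ((s : ℝ) + 1) * C) ^ (s + 3), E * (s + 3) + s, ?_, fun ρ hρ => ?_⟩
    · have h1 : 1 ≤ 9 * ((s : ℝ) + 1) * C := by nlinarith
      have h2 : 1 ≤ (9 * ((s : ℝ) + 1) * C) ^ (s + 3) := one_le_pow₀ h1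
      linarith
    · have h1 := h ρ hρ
      have hl := one_le_lv hρ s
      have h4 : lv (s + 1) ρ = 34 * (9 * ((s : ℝ) + 1) * lv s ρ) ^ (s + 3) * ρ ^ s := rfl
      rw [h4]
      calc 34 * (9 * ((s : ℝ) + 1) * lv s ρ) ^ (s + 3) * ρ ^ s
          ≤ 34 * (9 * ((s : ℝ) + 1) * (C * ρ ^ E)) ^ (s + 3) * ρ ^ s := by gcongr
        _ = 34 * (9 * ((s : ℝ) + 1) * C) ^ (s + 3) * ρ ^ (E * (s + 3) + s) := by
            rw [pow_add ρ, pow_mul ρ, ← mul_assoc, mul_pow _ (ρ ^ E)]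
            ring

namespace PSys

variable {V : Type} [Fintype V] [DecidableEq V] {n d : ℕ} (S : PSys V n d)

lemma regions {K ρ : ℝ} {H : Finset V} (hK0 : 0 < K) (hρ : 1 ≤ ρ) (hdK : (d : ℝ) ≤ ρ * K)
    (hH : ∀ x ∈ H, K ≤ ((S.out x).card : ℝ)) (r : ℕ)
    (hK : 2 * (r : ℝ) * (r + 1) * lv r ρ ≤ K) (s : ℕ) (hs : s ≤ r) :
    ∀ u : Finset (Fin n), u.card = d → ∀ B : Finset (Fin n), B.card < s → ∀ T : ℕ,
      ∀ x ∈ S.reg u B, S.life H (S.reg u B) T x ≤ lv s ρ := by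
  induction s with
  | zero => intro u _ B hB; omega
  | succ s ih =>
    intro u hu B hB T x hx
    have ih' := ih (by omega)
    by_cases hBs : B.card < s
    · exact (ih' u hu B hBs T x hx).trans (lv_le_succ hρ s)
    · have h1 : B.card = s := by omega
      have hl := one_le_lv hρ s
      have hmono := lv_mono hρ (show s ≤ r by omega)
      have hsr : (s : ℝ) ≤ r := by exact_mod_cast (show s ≤ r by omega)
      have hs0 : (0 : ℝ) ≤ s := Nat.cast_nonneg _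
      have h2 : 2 * (s : ℝ) * (s + 1) * lv s ρ ≤ K := by
        refine le_trans ?_ hK
        gcongr
      exact S.life_reg hK0 hl hρ hdK hH s h2 ih' hu h1 T x

/-- the vertices of large outdegree -/
noncomputable def high (K : ℝ) : Finset V := by
  classical
  exact Finset.univ.filter fun x => K ≤ ((S.out x).card : ℝ)

/-- the vertices of small outdegree -/
noncomputable def low (K : ℝ) : Finset V := by
  classical
  exact Finset.univ.filter fun x => ((S.out x).card : ℝ) < K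

lemma mem_high {K : ℝ} {x : V} : x ∈ S.high K ↔ K ≤ ((S.out x).card : ℝ) := by
  classical
  unfold high
  simp

lemma mem_low {K : ℝ} {x : V} : x ∈ S.low K ↔ ((S.out x).card : ℝ) < K := by
  classical
  unfold low
  simp

lemma green_one_sub {K : ℝ} (hK0 : 0 < K) (t : ℕ) (x₀ : V) :
    S.green Finset.univ Finset.univ (1 - ((S.op (S.high K) Finset.univ) ^ t) 1) x₀ ≤
      t * (S.low K).card := by
  classical
  induction t with
  | zero =>
    rw [pow_zero_apply, sub_self, map_zero]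
    simp
  | succ t ih =>
    set f := ((S.op (S.high K) Finset.univ) ^ t) 1 with hf
    have hf1 : ∀ y, f y ≤ 1 := S.pow_le_one t fun _ => by simp
    have h1 : ∀ y, (1 - ((S.op (S.high K) Finset.univ) ^ (t + 1)) 1 : V → ℝ) y ≤
        ((ind fun y => y ∈ S.low K) + S.op Finset.univ Finset.univ (1 - f)) y := by
      intro y
      rw [Pi.sub_apply, Pi.add_apply, Pi.one_apply, pow_succ_apply, ← hf]
      by_cases hy : y ∈ S.high K
      · have hm := S.mem_high.mp hy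
        have hm0 : (0 : ℝ) < (S.out y).card := lt_of_lt_of_le hK0 hm
        have h2 : S.op Finset.univ Finset.univ (1 - f) y =
            1 - S.op (S.high K) Finset.univ f y := by
          rw [op_mem _ _ (Finset.mem_univ _), op_mem _ _ hy]
          simp only [Finset.mem_univ, Finset.filter_true, Pi.sub_apply, Pi.one_apply,
            Finset.sum_sub_distrib, Finset.sum_const, nsmul_eq_mul, mul_one]
          field_simp
        rw [h2]
        linarith [ind_nonneg (fun y => y ∈ S.low K) y]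
      · have h2 : y ∈ S.low K := by
          rw [mem_low]
          rw [mem_high] at hy
          exact not_le.mp hy
        have h3 : (ind fun y => y ∈ S.low K) y = 1 := by
          unfold ind; rw [if_pos h2]
        rw [op_notMem _ _ hy, h3]
        have h4 : 0 ≤ S.op Finset.univ Finset.univ (1 - f) y := by
          apply S.op_nonneg
          intro z
          rw [Pi.sub_apply, Pi.one_apply]
          linarith [hf1 z]
        linarith
    refine (S.green_mono h1 x₀).trans ?_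
    rw [map_add, Pi.add_apply]
    have h2 := S.green_ind_le (H := Finset.univ) (R := Finset.univ) (S.low K) x₀
    have h3 := S.green_op_le (H := Finset.univ) (R := Finset.univ) (f := 1 - f) (by
      intro z
      rw [Pi.sub_apply, Pi.one_apply]
      linarith [hf1 z]) x₀
    push_cast
    linarith

/-- **The abstract bound.** -/
theorem green_le {K ρ : ℝ} (hK0 : 0 < K) (hρ : 1 ≤ ρ) (hd : 1 ≤ d) (hdK : (d : ℝ) ≤ ρ * K)
    (r : ℕ) (x₀ : V) : S.green Finset.univ Finset.univ 1 x₀ ≤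
      (lv (r + 1) ρ + (2 * (r : ℝ) * (r + 1) * lv r ρ * ρ) ^ r) *
        ((Fintype.card V : ℝ) / (d : ℝ) ^ r + (S.low K).card) := by
  classical
  have hd' : (0 : ℝ) < d := by exact_mod_cast hd
  have hl := one_le_lv hρ r
  have hr0 : (0 : ℝ) ≤ r := Nat.cast_nonneg _
  have hlv1 := one_le_lv hρ (r + 1)
  have hN0 : (0 : ℝ) ≤ (Fintype.card V : ℝ) / (d : ℝ) ^ r := by positivity
  have ha0 : (0 : ℝ) ≤ ((S.low K).card : ℝ) := by positivity
  by_cases hK : 2 * (r : ℝ) * (r + 1) * lv r ρ ≤ K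
  · obtain ⟨τ, hτ1, hτ2⟩ : ∃ τ : ℕ, 8 * ((r : ℝ) + 1) * lv r ρ ≤ τ ∧
        (τ : ℝ) ≤ 9 * ((r : ℝ) + 1) * lv r ρ := by
      refine ⟨⌈8 * ((r : ℝ) + 1) * lv r ρ⌉₊, Nat.le_ceil _, ?_⟩
      have h1 := Nat.ceil_lt_add_one (a := 8 * ((r : ℝ) + 1) * lv r ρ) (by positivity)
      nlinarith
    have h1 := S.good_visits (H := S.high K) (R := Finset.univ) (H' := Finset.univ) hK0 hl
      (fun x hx => S.mem_high.mp hx) r hK
      (S.regions hK0 hρ hdK (fun x hx => S.mem_high.mp hx) r hK r (le_refl _)) hτ1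
      (Finset.subset_univ _) x₀
    have h2 := S.green_one_sub hK0 τ x₀
    rw [Finset.card_univ] at h1
    have hτ0 : (1 : ℝ) ≤ τ := by
      have : 1 ≤ 8 * ((r : ℝ) + 1) * lv r ρ := by nlinarith
      linarith
    -- the coefficient
    have h3 : 34 * (τ : ℝ) ^ (r + 3) * ρ ^ r ≤ lv (r + 1) ρ := by
      have h4 : lv (r + 1) ρ = 34 * (9 * ((r : ℝ) + 1) * lv r ρ) ^ (r + 3) * ρ ^ r := rfl
      rw [h4]
      gcongr
    have h4 : 32 * (τ : ℝ) ^ 3 * ((τ : ℝ) ^ r / K ^ r) * (Fintype.card V : ℝ) ≤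
        32 * (τ : ℝ) ^ (r + 3) * ρ ^ r * ((Fintype.card V : ℝ) / (d : ℝ) ^ r) := by
      have h5 : 1 / K ^ r ≤ ρ ^ r / (d : ℝ) ^ r := by
        rw [div_le_div_iff₀ (by positivity) (by positivity), one_mul, ← mul_pow]
        exact pow_le_pow_left₀ hd'.le hdK r
      calc 32 * (τ : ℝ) ^ 3 * ((τ : ℝ) ^ r / K ^ r) * (Fintype.card V : ℝ)
          = 32 * (τ : ℝ) ^ (r + 3) * (Fintype.card V : ℝ) * (1 / K ^ r) := by ring
        _ ≤ 32 * (τ : ℝ) ^ (r + 3) * (Fintype.card V : ℝ) * (ρ ^ r / (d : ℝ) ^ r) := by gcongr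
        _ = _ := by ring
    have h5 : (τ : ℝ) ≤ (τ : ℝ) ^ (r + 3) * ρ ^ r := by
      have h6 : (1 : ℝ) ≤ ρ ^ r := one_le_pow₀ hρ
      calc (τ : ℝ) = (τ : ℝ) ^ 1 * 1 := by ring
        _ ≤ (τ : ℝ) ^ (r + 3) * ρ ^ r := by
            apply mul_le_mul _ h6 (by norm_num) (by positivity)
            exact pow_le_pow_right₀ hτ0 (by omega)
    have h6 : 0 ≤ (2 * (r : ℝ) * (r + 1) * lv r ρ * ρ) ^ r := by positivity
    have h7 : 2 * ((τ : ℝ) * (S.low K).card) ≤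
        34 * (τ : ℝ) ^ (r + 3) * ρ ^ r * (S.low K).card := by
      have : 2 * (τ : ℝ) ≤ 34 * (τ : ℝ) ^ (r + 3) * ρ ^ r := by linarith
      calc 2 * ((τ : ℝ) * (S.low K).card) = 2 * (τ : ℝ) * (S.low K).card := by ring
        _ ≤ _ := mul_le_mul_of_nonneg_right this ha0
    have h8 : 32 * (τ : ℝ) ^ (r + 3) * ρ ^ r * ((Fintype.card V : ℝ) / (d : ℝ) ^ r) ≤
        34 * (τ : ℝ) ^ (r + 3) * ρ ^ r * ((Fintype.card V : ℝ) / (d : ℝ) ^ r) := by
      have : 0 ≤ (τ : ℝ) ^ (r + 3) * ρ ^ r * ((Fintype.card V : ℝ) / (d : ℝ) ^ r) := by positivity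
      linarith
    calc S.green Finset.univ Finset.univ 1 x₀
        ≤ 34 * (τ : ℝ) ^ (r + 3) * ρ ^ r *
          ((Fintype.card V : ℝ) / (d : ℝ) ^ r + (S.low K).card) := by linarith
      _ ≤ _ := by
          apply mul_le_mul_of_nonneg_right _ (by positivity)
          linarith
  · push Not at hK
    have h1 := S.green_ind_le (H := Finset.univ) (R := Finset.univ) Finset.univ x₀
    have h2 : (ind fun y => y ∈ (Finset.univ : Finset V) : V → ℝ) = 1 := by
      ext y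
      unfold ind
      rw [if_pos (Finset.mem_univ _), Pi.one_apply]
    rw [h2, Finset.card_univ] at h1
    refine h1.trans ?_
    have h3 : (d : ℝ) ≤ 2 * (r : ℝ) * (r + 1) * lv r ρ * ρ := by
      have : ρ * K ≤ ρ * (2 * (r : ℝ) * (r + 1) * lv r ρ) :=
        mul_le_mul_of_nonneg_left hK.le (by linarith)
      linarith
    have h4 : (d : ℝ) ^ r ≤ (2 * (r : ℝ) * (r + 1) * lv r ρ * ρ) ^ r :=
      pow_le_pow_left₀ hd'.le h3 r
    have h5 : (Fintype.card V : ℝ) = (d : ℝ) ^ r * ((Fintype.card V : ℝ) / (d : ℝ) ^ r) := by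
      field_simp
    calc (Fintype.card V : ℝ) = (d : ℝ) ^ r * ((Fintype.card V : ℝ) / (d : ℝ) ^ r) := h5
      _ ≤ (2 * (r : ℝ) * (r + 1) * lv r ρ * ρ) ^ r *
          ((Fintype.card V : ℝ) / (d : ℝ) ^ r) := by gcongr
      _ ≤ _ := by
          apply mul_le_mul _ _ hN0 (by positivity)
          · linarith
          · linarith

end PSys

/-- **The abstract bound with polynomial dependence on `ρ`.** -/
theorem exists_const (r : ℕ) : ∃ (C : ℝ) (E : ℕ), 1 ≤ C ∧ 1 ≤ E ∧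
    ∀ (V : Type) [Fintype V] [DecidableEq V] (n d : ℕ) (S : PSys V n d) (K ρ : ℝ) (x₀ : V),
      0 < K → 1 ≤ ρ → 1 ≤ d → (d : ℝ) ≤ ρ * K →
      S.green Finset.univ Finset.univ 1 x₀ ≤
        C * ρ ^ E * ((Fintype.card V : ℝ) / (d : ℝ) ^ r + (S.low K).card) := by
  obtain ⟨C₁, E₁, hC₁, h₁⟩ := lv_poly (r + 1)
  obtain ⟨C₂, E₂, hC₂, h₂⟩ := lv_poly r
  have hr0 : (0 : ℝ) ≤ r := Nat.cast_nonneg _
  refine ⟨C₁ + (2 * (r : ℝ) * (r + 1) * C₂) ^ r, E₁ + (E₂ + 1) * r + 1, ?_, by omega, ?_⟩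
  · have : 0 ≤ (2 * (r : ℝ) * (r + 1) * C₂) ^ r := by positivity
    linarith
  · intro V _ _ n d S K ρ x₀ hK0 hρ hd hdK
    refine (S.green_le hK0 hρ hd hdK r x₀).trans ?_
    have hd' : (0 : ℝ) < d := by exact_mod_cast hd
    apply mul_le_mul_of_nonneg_right _ (by positivity)
    have hρ0 : (0 : ℝ) < ρ := by linarith
    have hl := one_le_lv hρ r
    have h3 : lv (r + 1) ρ ≤ C₁ * ρ ^ (E₁ + (E₂ + 1) * r + 1) := by
      refine (h₁ ρ hρ).trans ?_
      gcongr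
      omega
    have h4 : (2 * (r : ℝ) * (r + 1) * lv r ρ * ρ) ^ r ≤
        (2 * (r : ℝ) * (r + 1) * C₂) ^ r * ρ ^ (E₁ + (E₂ + 1) * r + 1) := by
      calc (2 * (r : ℝ) * (r + 1) * lv r ρ * ρ) ^ r
          ≤ (2 * (r : ℝ) * (r + 1) * (C₂ * ρ ^ E₂) * ρ) ^ r := by
            have := h₂ ρ hρ
            gcongr
        _ = (2 * (r : ℝ) * (r + 1) * C₂) ^ r * ρ ^ ((E₂ + 1) * r) := by
            rw [pow_mul, ← mul_pow]
            congr 1
            ring
        _ ≤ _ := by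
            gcongr
            omega
    rw [add_mul]
    linarith

end Pool.Agent.Hhelper78.RandomEdgePoly
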