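import Mathlib

/-!
# Skew set pairs

The skew version of the theorem of Bollobas on set pairs, by the dimension argument.
-/

namespace Pool.Agent.Hhelper78.RandomEdgePoly

open Polynomial

/-- the polynomial with the roots in `B` -/
noncomputable def rootPoly {n : ℕ} (B : Finset (Fin n)) : ℝ[X] :=
  ∏ q ∈ B, (X - C ((q : ℕ) : ℝ))

lemma rootPoly_eval {n : ℕ} (B : Finset (Fin n)) (p : Fin n) :
    (rootPoly B).eval ((p : ℕ) : ℝ) = ∏ q ∈ B, (((p : ℕ) : ℝ) - ((q : ℕ) : ℝ)) := by
  unfold rootPoly
  rw [eval_prod]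
  refine Finset.prod_congr rfl fun q _ => ?_
  simp

lemma rootPoly_eval_eq_zero {n : ℕ} (B : Finset (Fin n)) (p : Fin n) :
    (rootPoly B).eval ((p : ℕ) : ℝ) = 0 ↔ p ∈ B := by
  rw [rootPoly_eval, Finset.prod_eq_zero_iff]
  constructor
  · rintro ⟨q, hq, h⟩
    have h1 : ((p : ℕ) : ℝ) = ((q : ℕ) : ℝ) := by linarith
    have h2 : (p : ℕ) = (q : ℕ) := by exact_mod_cast h1
    rwa [Fin.ext h2]
  · intro h
    exact ⟨p, h, sub_self _⟩

lemma rootPoly_natDegree {n : ℕ} (B : Finset (Fin n)) : (rootPoly B).natDegree = B.card := by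
  unfold rootPoly
  rw [natDegree_prod_of_monic _ _ fun q _ => monic_X_sub_C _,
    Finset.sum_congr rfl fun q _ => natDegree_X_sub_C _, Finset.sum_const, smul_eq_mul, mul_one]

/-- evaluation through the coefficients -/
lemma rootPoly_eval_sum {n b : ℕ} (B : Finset (Fin n)) (hB : B.card = b) (x : ℝ) :
    (rootPoly B).eval x = ∑ s : Fin (b + 1), (rootPoly B).coeff s * x ^ (s : ℕ) := by
  rw [eval_eq_sum_range, rootPoly_natDegree, hB, Finset.sum_range]

/-- **Skew set pairs.** -/
theorem skew_pairs {ι : Type} [Fintype ι] {n a b : ℕ} (rank : ι → ℕ)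
    (hrank : Function.Injective rank) (A B : ι → Finset (Fin n)) (hA : ∀ i, (A i).card = a)
    (hB : ∀ i, (B i).card = b) (hdisj : ∀ i, Disjoint (A i) (B i))
    (hmeet : ∀ i j, rank i < rank j → ¬ Disjoint (A j) (B i)) :
    Fintype.card ι ≤ (a + b).choose b := by
  classical
  -- enumerations of the sets `A i`
  let e : ∀ i, Fin a ≃ A i := fun i => ((A i).equivFinOfCardEq (hA i)).symm
  let t : ι → Fin a → ℝ := fun i k => (((e i k : Fin n) : ℕ) : ℝ)
  let w : ι → Fin (b + 1) → ℝ := fun j s => (rootPoly (B j)).coeff s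
  let M : ι → ι → ℝ := fun i j => ∏ k, (rootPoly (B j)).eval (t i k)
  -- the class of a function
  let cl : (Fin a → Fin (b + 1)) → Sym (Fin (b + 1)) a := fun φ =>
    ⟨Finset.univ.val.map φ, by simp⟩
  let c : ι → Sym (Fin (b + 1)) a → ℝ := fun i m =>
    ∑ φ ∈ Finset.univ.filter (fun φ => cl φ = m), ∏ k, t i k ^ (φ k : ℕ)
  have hM : ∀ i j, M i j = ∑ m, c i m * ((m : Multiset (Fin (b + 1))).map (w j)).prod := by
    intro i j
    have h1 : M i j = ∑ φ : Fin a → Fin (b + 1), ∏ k, (w j (φ k) * t i k ^ (φ k : ℕ)) := by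
      show ∏ k, (rootPoly (B j)).eval (t i k) = _
      have h2 : ∀ k, (rootPoly (B j)).eval (t i k) =
          ∑ s : Fin (b + 1), w j s * t i k ^ (s : ℕ) := fun k =>
        rootPoly_eval_sum (B j) (hB j) (t i k)
      rw [Finset.prod_congr rfl fun k _ => h2 k, Finset.prod_univ_sum]
      rw [Fintype.piFinset_univ]
    have h2 : ∀ φ : Fin a → Fin (b + 1), ∏ k, (w j (φ k) * t i k ^ (φ k : ℕ)) =
        (∏ k, t i k ^ (φ k : ℕ)) * (((cl φ : Sym (Fin (b + 1)) a) :
          Multiset (Fin (b + 1))).map (w j)).prod := by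
      intro φ
      rw [Finset.prod_mul_distrib, mul_comm]
      congr 1
      show _ = ((Finset.univ.val.map φ).map (w j)).prod
      rw [Multiset.map_map]
      rfl
    rw [h1, Finset.sum_congr rfl fun φ _ => h2 φ, ← Finset.sum_fiberwise (g := cl)]
    refine Finset.sum_congr rfl fun m _ => ?_
    show _ = (∑ φ ∈ Finset.univ.filter (fun φ => cl φ = m), ∏ k, t i k ^ (φ k : ℕ)) * _
    rw [Finset.sum_mul]
    refine Finset.sum_congr rfl fun φ hφ => ?_
    rw [(Finset.mem_filter.mp hφ).2]
  have hdiag : ∀ i, M i i ≠ 0 := by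
    intro i
    show ∏ k, (rootPoly (B i)).eval (t i k) ≠ 0
    rw [Finset.prod_ne_zero_iff]
    intro k _ h
    have h1 := (rootPoly_eval_eq_zero (B i) (e i k : Fin n)).mp h
    exact Finset.disjoint_left.mp (hdisj i) (e i k).2 h1
  have hoff : ∀ i j, rank i < rank j → M j i = 0 := by
    intro i j hij
    show ∏ k, (rootPoly (B i)).eval (t j k) = 0
    obtain ⟨p, hpA, hpB⟩ := Finset.not_disjoint_iff.mp (hmeet i j hij)
    rw [Finset.prod_eq_zero_iff]
    refine ⟨(e j).symm ⟨p, hpA⟩, Finset.mem_univ _, ?_⟩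
    have h1 : t j ((e j).symm ⟨p, hpA⟩) = ((p : ℕ) : ℝ) := by
      show (((e j ((e j).symm ⟨p, hpA⟩) : Fin n) : ℕ) : ℝ) = _
      rw [Equiv.apply_symm_apply]
    rw [h1]
    exact (rootPoly_eval_eq_zero (B i) p).mpr hpB
  have hlin : LinearIndependent ℝ c := by
    rw [Fintype.linearIndependent_iff]
    intro g hg
    have h1 : ∀ j, ∑ i, g i * M i j = 0 := by
      intro j
      have h2 : ∀ m, ∑ i, g i * c i m = 0 := by
        intro m
        have := congrFun hg m
        rw [Finset.sum_apply] at this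
        simpa using this
      calc ∑ i, g i * M i j = ∑ i, ∑ m, g i * c i m *
            ((m : Multiset (Fin (b + 1))).map (w j)).prod := by
            refine Finset.sum_congr rfl fun i _ => ?_
            rw [hM, Finset.mul_sum]
            refine Finset.sum_congr rfl fun m _ => ?_
            ring
        _ = ∑ m, (∑ i, g i * c i m) * ((m : Multiset (Fin (b + 1))).map (w j)).prod := by
            rw [Finset.sum_comm]
            refine Finset.sum_congr rfl fun m _ => ?_
            rw [Finset.sum_mul]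
        _ = 0 := by
            apply Finset.sum_eq_zero
            intro m _
            rw [h2 m, zero_mul]
    intro i
    induction hr : rank i using Nat.strong_induction_on generalizing i with
    | _ r ih =>
      have h2 := h1 i
      rw [Finset.sum_eq_single i] at h2
      · exact (mul_eq_zero.mp h2).resolve_right (hdiag i)
      · intro j _ hj
        rcases lt_trichotomy (rank j) (rank i) with h | h | h
        · rw [ih (rank j) (hr ▸ h) j rfl, zero_mul]
        · exact absurd (hrank h) hj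
        · rw [hoff i j h, mul_zero]
      · intro h; exact absurd (Finset.mem_univ _) h
  have hcard := hlin.fintype_card_le_finrank
  rw [Module.finrank_fintype_fun_eq_card, Sym.card_sym_eq_choose, Fintype.card_fin] at hcard
  have h1 : b + 1 + a - 1 = a + b := by omega
  rw [h1] at hcard
  rwa [Nat.choose_symm_add] at hcard

end Pool.Agent.Hhelper78.RandomEdgePoly
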