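import Pool.Agent.Hhelper78.RandomEdgePoly.Bridge
import Pool.Agent.Hhelper78.RandomEdgePoly.Main
import Pool.Agent.Hhelper78.RandomEdgePoly.Skew

/-!
# The combinatorial system of an instance, and the count of vertices of given outdegree
-/

open scoped ENNReal
open Matrix Pool.Agent.Hhelper78.RandomEdge Pool.Agent.FewFacets

namespace Pool.Agent.Hhelper78.RandomEdgePoly

variable {d n : ℕ} (L : LPInstance d n)

/-- `v` is the unique minimiser on the face given by its in-facets. -/
lemma min_face' (v w : FewFacets.Vert L) (h : tI L v \ FewFacets.outV L v ⊆ tI L w)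
    (hle : L.c ⬝ᵥ w.1 ≤ L.c ⬝ᵥ v.1) : v = w := by
  classical
  obtain ⟨u, hu, hpos, -⟩ := FewFacets.exists_dirs L v
  have h1 := cone (x := w.1) v.2 u hu
  have h2 : L.c ⬝ᵥ (w.1 - v.1) = ∑ i ∈ tight L.A L.b v.1, (L.b i - L.A i ⬝ᵥ w.1) * (L.c ⬝ᵥ u i) := by
    rw [h1, dotProduct_sum]
    refine Finset.sum_congr rfl fun i _ => ?_
    rw [dotProduct_smul, smul_eq_mul]
  have hnn : ∀ i ∈ tight L.A L.b v.1, 0 ≤ (L.b i - L.A i ⬝ᵥ w.1) * (L.c ⬝ᵥ u i) := by
    intro i hi
    by_cases ho : i ∈ FewFacets.outV L v
    · exact mul_nonneg (sub_nonneg.mpr (w.2.1 i)) (hpos i ho).le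
    · rw [mem_tight.mp (h (Finset.mem_sdiff.mpr ⟨hi, ho⟩)), sub_self, zero_mul]
  have h3 : ∑ i ∈ tight L.A L.b v.1, (L.b i - L.A i ⬝ᵥ w.1) * (L.c ⬝ᵥ u i) = 0 := by
    apply le_antisymm _ (Finset.sum_nonneg hnn)
    rw [← h2, dotProduct_sub]
    linarith
  rw [Finset.sum_eq_zero_iff_of_nonneg hnn] at h3
  symm
  apply Subtype.ext
  apply eq_of_tight v.2
  intro i hi
  by_cases ho : i ∈ FewFacets.outV L v
  · have h4 := (mul_eq_zero.mp (h3 i hi)).resolve_right (hpos i ho).ne'
    exact mem_tight.mpr (by linarith)
  · exact h (Finset.mem_sdiff.mpr ⟨hi, ho⟩)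

/-- The combinatorial system of an instance. -/
noncomputable def psys : PSys (FewFacets.Vert L) n d where
  rank := rankV L
  rank_inj := rankV_inj L
  I := tI L
  card_I v := card_tI L v
  I_inj v w h := Subtype.ext (eq_of_tight w.2 (le_of_eq h.symm))
  out := FewFacets.outV L
  out_sub := outV_sub L
  nb := FewFacets.nbV L
  erase_sub v i hi := FewFacets.erase_sub_nb L v i (outV_sub L v hi)
  not_mem v i hi h := by
    have h1 := outV_sub L v hi
    have h2 := FewFacets.nb_spec L v i h1
    have h3 : i ∈ insert (FewFacets.ixV L v i) ((tight L.A L.b v.1).erase i) := by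
      rw [← h2.2.2]; exact h
    rw [Finset.mem_insert] at h3
    rcases h3 with h3 | h3
    · exact h2.2.1 (h3 ▸ h1)
    · exact absurd rfl (Finset.mem_erase.mp h3).1
  rank_lt v i hi := rankV_lt L v _ (Finset.mem_image.mpr ⟨i, hi, rfl⟩)

lemma rankV_lt_of (v w : FewFacets.Vert L) (h : rankV L v < rankV L w) :
    L.c ⬝ᵥ v.1 ≤ L.c ⬝ᵥ w.1 := by
  by_contra hcon
  rw [not_le] at hcon
  have := (exists_rank fun v : FewFacets.Vert L => L.c ⬝ᵥ v.1).choose_spec.2 _ _ hcon
  exact absurd h (lt_asymm this)

/-- vertices of outdegree `i`, counted from the sink side -/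
lemma card_out_le (i : ℕ) :
    (Finset.univ.filter fun v : FewFacets.Vert L => (FewFacets.outV L v).card = i).card ≤
      (n - d + i).choose i := by
  classical
  set P := fun v : FewFacets.Vert L => (FewFacets.outV L v).card = i with hP
  rw [← Fintype.card_subtype]
  refine skew_pairs (ι := {v : FewFacets.Vert L // P v}) (fun v => rankV L v.1)
    (fun v w h => Subtype.ext (rankV_inj L h)) (fun v => (tI L v.1)ᶜ)
    (fun v => FewFacets.outV L v.1) ?_ ?_ ?_ ?_
  · intro v
    rw [Finset.card_compl, Fintype.card_fin, card_tI]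
  · exact fun v => v.2
  · intro v
    rw [Finset.disjoint_left]
    intro a ha hb
    exact (Finset.mem_compl.mp ha) (outV_sub L v.1 hb)
  · intro v w hvw hdis
    have h1 : FewFacets.outV L v.1 ⊆ tI L w.1 := by
      intro a ha
      by_contra hcon
      exact Finset.disjoint_left.mp hdis (Finset.mem_compl.mpr hcon) ha
    have h2 := FewFacets.max_face L v.1 w.1 h1 (rankV_lt_of L _ _ hvw)
    rw [h2] at hvw
    exact lt_irrefl _ hvw

/-- vertices of outdegree `i`, counted from the source side -/
lemma card_out_le' (i : ℕ) :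
    (Finset.univ.filter fun v : FewFacets.Vert L => (FewFacets.outV L v).card = i).card ≤
      (n - d + (d - i)).choose (d - i) := by
  classical
  set P := fun v : FewFacets.Vert L => (FewFacets.outV L v).card = i with hP
  rw [← Fintype.card_subtype]
  have hbound : ∀ v : FewFacets.Vert L, rankV L v ≤ Finset.univ.sup (rankV L) := fun v =>
    Finset.le_sup (Finset.mem_univ v)
  refine skew_pairs (ι := {v : FewFacets.Vert L // P v})
    (fun v => Finset.univ.sup (rankV L) - rankV L v.1)
    (fun v w h => Subtype.ext (rankV_inj L (by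
      have h1 := hbound v.1
      have h2 := hbound w.1
      simp only at h
      omega))) (fun v => (tI L v.1)ᶜ)
    (fun v => tI L v.1 \ FewFacets.outV L v.1) ?_ ?_ ?_ ?_
  · intro v
    rw [Finset.card_compl, Fintype.card_fin, card_tI]
  · intro v
    rw [Finset.card_sdiff_of_subset (outV_sub L v.1), card_tI, v.2]
  · intro v
    rw [Finset.disjoint_left]
    intro a ha hb
    exact (Finset.mem_compl.mp ha) (Finset.mem_sdiff.mp hb).1
  · intro v w hvw hdis
    have hvw' : rankV L w.1 < rankV L v.1 := by omega
    have h1 : tI L v.1 \ FewFacets.outV L v.1 ⊆ tI L w.1 := by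
      intro a ha
      by_contra hcon
      exact Finset.disjoint_left.mp hdis (Finset.mem_compl.mpr hcon) ha
    have h2 := min_face' L v.1 w.1 h1 (rankV_lt_of L _ _ hvw')
    rw [h2] at hvw'
    exact lt_irrefl _ hvw'

/-- **Vertices of small outdegree.** -/
lemma card_low_le (k : ℕ) :
    (Finset.univ.filter fun v : FewFacets.Vert L => (FewFacets.outV L v).card ≤ k).card ≤
      (k + (n - d) + 1).choose (n - d + 1) := by
  classical
  have h1 : (Finset.univ.filter fun v : FewFacets.Vert L => (FewFacets.outV L v).card ≤ k) =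
      (Finset.range (k + 1)).biUnion fun i =>
        Finset.univ.filter fun v : FewFacets.Vert L => (FewFacets.outV L v).card = i := by
    ext v
    simp
  rw [h1]
  refine Finset.card_biUnion_le.trans ?_
  rw [← Nat.sum_range_add_choose]
  refine Finset.sum_le_sum fun i _ => ?_
  refine (card_out_le L i).trans (le_of_eq ?_)
  rw [add_comm (n - d) i, Nat.choose_symm_add]

/-- **The number of vertices.** -/
lemma card_vert_le_choose : Fintype.card (FewFacets.Vert L) ≤
    2 * (d / 2 + (n - d) + 1).choose (n - d + 1) := by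
  classical
  have h0 : (Finset.univ : Finset (FewFacets.Vert L)) ⊆
      (Finset.univ.filter fun v : FewFacets.Vert L => (FewFacets.outV L v).card ≤ d / 2) ∪
      ((Finset.range (d / 2 + 1)).biUnion fun j =>
        Finset.univ.filter fun v : FewFacets.Vert L =>
          j ≤ d ∧ (FewFacets.outV L v).card = d - j) := by
    intro v _
    have hv := Finset.card_le_card (outV_sub L v)
    rw [card_tI] at hv
    rw [Finset.mem_union, Finset.mem_filter, Finset.mem_biUnion]
    by_cases h : (FewFacets.outV L v).card ≤ d / 2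
    · exact Or.inl ⟨Finset.mem_univ _, h⟩
    · right
      refine ⟨d - (FewFacets.outV L v).card, ?_, ?_⟩
      · rw [Finset.mem_range]; omega
      · rw [Finset.mem_filter]
        exact ⟨Finset.mem_univ _, by omega, by omega⟩
  have h1 := Finset.card_le_card h0
  rw [Finset.card_univ] at h1
  have h2 : ((Finset.range (d / 2 + 1)).biUnion fun j =>
        Finset.univ.filter fun v : FewFacets.Vert L =>
          j ≤ d ∧ (FewFacets.outV L v).card = d - j).card ≤
      (d / 2 + (n - d) + 1).choose (n - d + 1) := by
    refine Finset.card_biUnion_le.trans ?_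
    rw [← Nat.sum_range_add_choose]
    refine Finset.sum_le_sum fun j hj => ?_
    rw [Finset.mem_range] at hj
    have hjd : j ≤ d := by omega
    have h3 := card_out_le' L (d - j)
    have h4 : d - (d - j) = j := by omega
    rw [h4] at h3
    have h5 : (Finset.univ.filter fun v : FewFacets.Vert L =>
          j ≤ d ∧ (FewFacets.outV L v).card = d - j) ⊆
        Finset.univ.filter fun v : FewFacets.Vert L => (FewFacets.outV L v).card = d - j := by
      intro v hv
      rw [Finset.mem_filter] at hv ⊢
      exact ⟨hv.1, hv.2.2⟩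
    refine (Finset.card_le_card h5).trans (h3.trans (le_of_eq ?_))
    rw [add_comm (n - d) j, Nat.choose_symm_add]
  have h3 := card_low_le L (d / 2)
  have h4 := Finset.card_union_le
    (Finset.univ.filter fun v : FewFacets.Vert L => (FewFacets.outV L v).card ≤ d / 2)
    ((Finset.range (d / 2 + 1)).biUnion fun j =>
        Finset.univ.filter fun v : FewFacets.Vert L =>
          j ≤ d ∧ (FewFacets.outV L v).card = d - j)
  omega

/-- The expected number of steps is bounded by the Green function. -/
theorem expectedSteps_le_green : L.expectedSteps ≤ ENNReal.ofReal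
    ((psys L).green Finset.univ Finset.univ 1 ⟨L.v₀, L.start⟩) := by
  classical
  set G := (psys L).green Finset.univ Finset.univ 1 with hG
  have hG0 : ∀ v, 0 ≤ G v := (psys L).green_nonneg fun _ => by simp
  refine FewFacets.expectedSteps_le_of_super L (fun v => ENNReal.ofReal (G v - 1)) ?_ |>.trans
    (ENNReal.ofReal_le_ofReal (by linarith))
  intro v
  rw [FewFacets.sum_step]
  have hrec := (psys L).op_green (H := Finset.univ) (R := Finset.univ) 1 v
  rw [← hG, Pi.one_apply, PSys.op_mem _ _ (Finset.mem_univ _)] at hrec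
  have hout : (psys L).out v = FewFacets.outV L v := rfl
  have hnb : ∀ i, (psys L).nb v i = FewFacets.nbV L v i := fun i => rfl
  simp only [Finset.mem_univ, Finset.filter_true, hout, hnb] at hrec
  have hG1 : ∀ w, 1 ≤ G w := by
    intro w
    have h1 := (psys L).op_green (H := Finset.univ) (R := Finset.univ) 1 w
    rw [← hG, Pi.one_apply] at h1
    have h2 := (psys L).op_nonneg (H := Finset.univ) (R := Finset.univ) hG0 w
    linarith
  rcases Finset.eq_empty_or_nonempty (FewFacets.outV L v) with h0 | h0
  · rw [h0]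
    simp
  · have hc : (0 : ℝ) < (FewFacets.outV L v).card := by exact_mod_cast Finset.card_pos.mpr h0
    have h1 : ∀ g ∈ FewFacets.outV L v, ((FewFacets.outV L v).card : ℝ≥0∞)⁻¹ *
        (1 + ENNReal.ofReal (G (FewFacets.nbV L v g) - 1)) =
        ENNReal.ofReal (((FewFacets.outV L v).card : ℝ)⁻¹ * G (FewFacets.nbV L v g)) := by
      intro g _
      have h2 : (1 : ℝ≥0∞) + ENNReal.ofReal (G (FewFacets.nbV L v g) - 1) =
          ENNReal.ofReal (G (FewFacets.nbV L v g)) := by
        rw [← ENNReal.ofReal_one, ← ENNReal.ofReal_add zero_le_one (by linarith [hG1 (FewFacets.nbV L v g)])]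
        congr 1
        ring
      rw [h2, ENNReal.ofReal_mul (by positivity), ENNReal.ofReal_inv_of_pos hc,
        ENNReal.ofReal_natCast]
    rw [Finset.sum_congr rfl h1, ← ENNReal.ofReal_sum_of_nonneg]
    · apply ENNReal.ofReal_le_ofReal
      rw [← Finset.mul_sum, ← hrec]
      apply le_of_eq
      rw [div_eq_mul_inv, mul_comm]
    · intro g _
      have := hG0 (FewFacets.nbV L v g)
      positivity

end Pool.Agent.Hhelper78.RandomEdgePoly
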