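import Pool.Agent.Hhelper78.RandomEdgePoly.Bridge2

/-!
# The bounds for instances and for `R d n`
-/

open scoped ENNReal
open Matrix Pool.Agent.Hhelper78.RandomEdge Pool.Agent.FewFacets

namespace Pool.Agent.Hhelper78.RandomEdgePoly

/-! ### Binomial coefficients -/

lemma choose_rec (m e : ℕ) : (m + (e + 1)).choose (e + 1) * (e + 1) =
    (m + e).choose e * (m + e + 1) := by
  have := Nat.add_one_mul_choose_eq (m + e) e
  rw [show m + (e + 1) = m + e + 1 by ring, ← this]
  ring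

lemma choose_succ_le (k e : ℕ) : (k + e + 1).choose (e + 1) ≤ (k + 1) * (k + e).choose e := by
  have h1 := choose_rec k e
  have h2 : (k + e + 1).choose (e + 1) * (e + 1) ≤ (k + 1) * (k + e).choose e * (e + 1) := by
    rw [show k + e + 1 = k + (e + 1) by ring, h1]
    have h3 : k + e + 1 ≤ (k + 1) * (e + 1) := by nlinarith
    calc (k + e).choose e * (k + e + 1) ≤ (k + e).choose e * ((k + 1) * (e + 1)) :=
          Nat.mul_le_mul_left _ h3
      _ = _ := by ring
  exact Nat.le_of_mul_le_mul_right h2 (by omega)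

lemma choose_ratio_aux {κ k J : ℕ} (hk : κ ≤ k) (j : ℕ) (hj : j ≤ J) :
    (κ + j).choose j * (k + J) ^ j ≤ (k + j).choose j * (κ + J) ^ j := by
  induction j with
  | zero => simp
  | succ j ih =>
    have h1 := ih (by omega)
    have h2 := choose_rec κ j
    have h3 := choose_rec k j
    have h4 : (κ + j + 1) * (k + J) ≤ (k + j + 1) * (κ + J) := by
      obtain ⟨a, rfl⟩ := Nat.exists_eq_add_of_le hk
      obtain ⟨b, rfl⟩ := Nat.exists_eq_add_of_le hj
      nlinarith [Nat.zero_le (a * b)]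
    have h5 : (κ + (j + 1)).choose (j + 1) * (k + J) ^ (j + 1) * (j + 1) ≤
        (k + (j + 1)).choose (j + 1) * (κ + J) ^ (j + 1) * (j + 1) := by
      calc (κ + (j + 1)).choose (j + 1) * (k + J) ^ (j + 1) * (j + 1)
          = (κ + (j + 1)).choose (j + 1) * (j + 1) * (k + J) ^ (j + 1) := by ring
        _ = ((κ + j).choose j * (k + J) ^ j) * ((κ + j + 1) * (k + J)) := by rw [h2]; ring
        _ ≤ ((k + j).choose j * (κ + J) ^ j) * ((k + j + 1) * (κ + J)) := Nat.mul_le_mul h1 h4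
        _ = (k + j).choose j * (k + j + 1) * (κ + J) ^ (j + 1) := by ring
        _ = (k + (j + 1)).choose (j + 1) * (j + 1) * (κ + J) ^ (j + 1) := by rw [h3]
        _ = _ := by ring
    exact Nat.le_of_mul_le_mul_right h5 (by omega)

lemma choose_ratio {κ k J e : ℕ} (hk : κ ≤ k) (he : J ≤ e) :
    (κ + e).choose e * (k + J) ^ J ≤ (k + e).choose e * (κ + J) ^ J := by
  induction e, he using Nat.le_induction with
  | base => exact choose_ratio_aux hk J (le_refl _)
  | succ e he ih =>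
    have h2 := choose_rec κ e
    have h3 := choose_rec k e
    have h5 : (κ + (e + 1)).choose (e + 1) * (k + J) ^ J * (e + 1) ≤
        (k + (e + 1)).choose (e + 1) * (κ + J) ^ J * (e + 1) := by
      calc (κ + (e + 1)).choose (e + 1) * (k + J) ^ J * (e + 1)
          = (κ + (e + 1)).choose (e + 1) * (e + 1) * (k + J) ^ J := by ring
        _ = ((κ + e).choose e * (k + J) ^ J) * (κ + e + 1) := by rw [h2]; ring
        _ ≤ ((k + e).choose e * (κ + J) ^ J) * (k + e + 1) := Nat.mul_le_mul ih (by omega)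
        _ = (k + e).choose e * (k + e + 1) * (κ + J) ^ J := by ring
        _ = (k + (e + 1)).choose (e + 1) * (e + 1) * (κ + J) ^ J := by rw [h3]
        _ = _ := by ring
    exact Nat.le_of_mul_le_mul_right h5 (by omega)

/-- integer roots -/
lemma exists_root {d E : ℕ} (hd : 1 ≤ d) (hE : 1 ≤ E) :
    ∃ ρ : ℕ, 1 ≤ ρ ∧ ρ ^ E ≤ d ∧ d < (ρ + 1) ^ E := by
  set ρ := Nat.findGreatest (fun ρ => ρ ^ E ≤ d) d with hρ
  have h1 : 1 ≤ ρ := Nat.le_findGreatest hd (by simpa using hd)
  refine ⟨ρ, h1, ?_, ?_⟩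
  · exact Nat.findGreatest_spec (P := fun ρ => ρ ^ E ≤ d) hd (by simpa using hd)
  · by_cases h2 : ρ + 1 ≤ d
    · have h3 := Nat.findGreatest_is_greatest (P := fun ρ => ρ ^ E ≤ d) (n := d) (k := ρ + 1)
        (by omega) h2
      exact not_le.mp h3
    · calc d < ρ + 1 := by omega
        _ ≤ (ρ + 1) ^ E := Nat.le_self_pow (by omega) _

/-! ### Instances -/

variable {d n : ℕ} (L : LPInstance d n)

/-- number of vertices -/
noncomputable def numVert : ℕ := ((poly L.A L.b).extremePoints ℝ).ncard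

/-- number of vertices with fewer than `K` improving neighbours -/
noncomputable def numLow (K : ℝ) : ℕ :=
  {v | v ∈ (poly L.A L.b).extremePoints ℝ ∧ ((L.improving v).ncard : ℝ) < K}.ncard

lemma numVert_eq : numVert L = Fintype.card (FewFacets.Vert L) := by
  unfold numVert
  rw [Set.ncard_eq_toFinset_card', Set.toFinset_card]

lemma numLow_eq (K : ℝ) : numLow L K = ((psys L).low K).card := by
  classical
  unfold numLow
  have h1 : {v | v ∈ (poly L.A L.b).extremePoints ℝ ∧ ((L.improving v).ncard : ℝ) < K} =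
      Subtype.val '' (((psys L).low K : Finset (FewFacets.Vert L)) : Set (FewFacets.Vert L)) := by
    ext v
    rw [Set.mem_image]
    constructor
    · rintro ⟨h1, h2⟩
      refine ⟨⟨v, h1⟩, ?_, rfl⟩
      rw [Finset.mem_coe, PSys.mem_low]
      have h3 := FewFacets.ncard_improving L ⟨v, h1⟩
      rw [h3] at h2
      exact h2
    · rintro ⟨w, hw, rfl⟩
      rw [Finset.mem_coe, PSys.mem_low] at hw
      refine ⟨w.2, ?_⟩
      rw [FewFacets.ncard_improving L w]
      exact hw
  rw [h1, Set.ncard_image_of_injective _ Subtype.val_injective, Set.ncard_coe_finset]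

/-- **The bound for an instance.** -/
theorem instance_bound (r : ℕ) : ∃ (C : ℝ) (E : ℕ), ∀ (d n : ℕ) (L : LPInstance d n) (K : ℝ),
    1 ≤ d → 0 < K → K ≤ d → L.expectedSteps ≤ ENNReal.ofReal
      (C * ((d : ℝ) / K) ^ E * ((numVert L : ℝ) / (d : ℝ) ^ r + (numLow L K : ℝ))) := by
  obtain ⟨C, E, hC, hE, h⟩ := exists_const r
  refine ⟨C, E, fun d n L K hd hK0 hKd => ?_⟩
  refine (expectedSteps_le_green L).trans (ENNReal.ofReal_le_ofReal ?_)
  rw [numVert_eq, numLow_eq]
  refine h _ n d (psys L) K (d / K) _ hK0 ?_ hd ?_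
  · rw [le_div_iff₀ hK0, one_mul]; exact hKd
  · rw [div_mul_cancel₀ _ hK0.ne']

/-- **The bound for `R d n`.** -/
theorem R_bound (r : ℕ) : ∃ C : ℕ, ∀ d n : ℕ, 1 ≤ d → d + C ≤ n →
    R d n ≤ ENNReal.ofReal ((C : ℝ) / (d : ℝ) ^ r * ((n - (d + 1) / 2).choose (d / 2) : ℝ)) := by
  obtain ⟨C, E, hC, hE, hmain⟩ := exists_const (r + 2)
  set J := E * (r + 2) with hJ
  have hJ1 : 1 ≤ J := by rw [hJ]; nlinarith
  obtain ⟨C', hC'⟩ := exists_nat_ge (4 * C + 2 * C * (4 * ((J : ℝ) + 1)) ^ J +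
    4 * ((2 : ℝ) ^ E) ^ (r + 1) + J)
  have hC0 : (0 : ℝ) < C := by linarith
  have hp1 : 0 ≤ 2 * C * (4 * ((J : ℝ) + 1)) ^ J := by positivity
  have hp2 : 0 ≤ 4 * ((2 : ℝ) ^ E) ^ (r + 1) := by positivity
  have hp3 : (0 : ℝ) ≤ J := Nat.cast_nonneg _
  refine ⟨C', fun d n hd hn => ?_⟩
  have hJC : J ≤ C' := by
    have : (J : ℝ) ≤ C' := by linarith
    exact_mod_cast this
  unfold R
  refine iSup_le fun L => ?_
  refine (expectedSteps_le_green L).trans (ENNReal.ofReal_le_ofReal ?_)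
  have hd' : (1 : ℝ) ≤ d := by exact_mod_cast hd
  have hd0 : (0 : ℝ) < d := by linarith
  set e := n - d with he
  set k := d / 2 with hk
  set W : ℝ := ((k + e).choose e : ℝ) with hW
  have hW0 : 0 ≤ W := Nat.cast_nonneg _
  have hchoose : ((n - (d + 1) / 2).choose (d / 2) : ℝ) = W := by
    rw [hW]
    have h1 : n - (d + 1) / 2 = k + e := by omega
    rw [h1, ← hk, Nat.choose_symm_add]
  rw [hchoose]
  have hkd : ((k : ℝ) + 1) ≤ 2 * d := by
    have h1 : k ≤ d := by omega
    have h2 : (k : ℝ) ≤ d := by exact_mod_cast h1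
    linarith
  -- number of vertices
  have hN : (Fintype.card (FewFacets.Vert L) : ℝ) ≤ 4 * d * W := by
    have h1 := card_vert_le_choose L
    have h2 := choose_succ_le k e
    have h3 : Fintype.card (FewFacets.Vert L) ≤ 2 * ((k + 1) * (k + e).choose e) :=
      h1.trans (Nat.mul_le_mul_left _ h2)
    have h4 : (Fintype.card (FewFacets.Vert L) : ℝ) ≤ 2 * (((k : ℝ) + 1) * W) := by
      rw [hW]; exact_mod_cast h3
    have h5 : ((k : ℝ) + 1) * W ≤ 2 * d * W := mul_le_mul_of_nonneg_right hkd hW0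
    linarith
  obtain ⟨ρ, hρ1, hρ2, hρ3⟩ := exists_root hd hE
  have hρ1' : (1 : ℝ) ≤ ρ := by exact_mod_cast hρ1
  have hρ0 : (0 : ℝ) < ρ := by linarith
  have hρE : (ρ : ℝ) ^ E ≤ d := by exact_mod_cast hρ2
  set κ := d / ρ with hκ
  by_cases hκk : κ ≤ k
  · -- the main case
    have h1 := hmain _ n d (psys L) ((d : ℝ) / ρ) ρ ⟨L.v₀, L.start⟩ (by positivity) hρ1' hd
      (by rw [mul_div_cancel₀ _ hρ0.ne'])
    -- low vertices
    have hlow : (((psys L).low ((d : ℝ) / ρ)).card : ℝ) ≤ 2 * d * ((κ + e).choose e : ℝ) := by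
      have h2 : (psys L).low ((d : ℝ) / ρ) ⊆
          Finset.univ.filter fun v : FewFacets.Vert L => (FewFacets.outV L v).card ≤ κ := by
        intro v hv
        rw [PSys.mem_low] at hv
        rw [Finset.mem_filter]
        refine ⟨Finset.mem_univ _, ?_⟩
        rw [hκ, Nat.le_div_iff_mul_le (by omega)]
        rw [lt_div_iff₀ hρ0] at hv
        have h3 : ((FewFacets.outV L v).card * ρ : ℝ) < d := hv
        have h4 : (FewFacets.outV L v).card * ρ < d := by exact_mod_cast h3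
        omega
      have h3 := (Finset.card_le_card h2).trans ((card_low_le L κ).trans (choose_succ_le κ e))
      have h4 : (((psys L).low ((d : ℝ) / ρ)).card : ℝ) ≤
          ((κ : ℝ) + 1) * ((κ + e).choose e : ℝ) := by exact_mod_cast h3
      refine h4.trans ?_
      apply mul_le_mul_of_nonneg_right _ (Nat.cast_nonneg _)
      have h5 : (κ : ℝ) ≤ k := by exact_mod_cast hκk
      linarith
    -- ratio
    have hratio : ((κ + e).choose e : ℝ) ≤ W * ((4 * ((J : ℝ) + 1)) ^ J / (d : ℝ) ^ (r + 2)) := by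
      have h2 := choose_ratio hκk (show J ≤ e by omega)
      have h3 : ((κ + e).choose e : ℝ) * ((k : ℝ) + J) ^ J ≤ W * ((κ : ℝ) + J) ^ J := by
        rw [hW]; exact_mod_cast h2
      have hkJ : (d : ℝ) / 2 ≤ (k : ℝ) + J := by
        have h4 : d ≤ 2 * k + 1 := by omega
        have h5 : (d : ℝ) ≤ 2 * k + 1 := by exact_mod_cast h4
        have h6 : (1 : ℝ) ≤ J := by exact_mod_cast hJ1
        linarith
      have hρd : (ρ : ℝ) ≤ d := by
        have : ρ ≤ ρ ^ E := Nat.le_self_pow (by omega) _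
        exact_mod_cast this.trans hρ2
      have hκJ : (κ : ℝ) + J ≤ ((J : ℝ) + 1) * (d / ρ) := by
        have h4 : (κ : ℝ) ≤ d / ρ := Nat.cast_div_le
        have h5 : 1 ≤ (d : ℝ) / ρ := by
          rw [le_div_iff₀ hρ0, one_mul]; exact hρd
        have h6 : (J : ℝ) ≤ J * (d / ρ) := by nlinarith
        linarith
      have h4 : ((κ + e).choose e : ℝ) * ((d : ℝ) / 2) ^ J ≤
          W * (((J : ℝ) + 1) * (d / ρ)) ^ J := by
        calc ((κ + e).choose e : ℝ) * ((d : ℝ) / 2) ^ J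
            ≤ ((κ + e).choose e : ℝ) * ((k : ℝ) + J) ^ J := by gcongr
          _ ≤ W * ((κ : ℝ) + J) ^ J := h3
          _ ≤ _ := by gcongr
      -- lower bound for the power of `ρ`
      have h5 : (d : ℝ) ≤ (2 : ℝ) ^ E * (ρ : ℝ) ^ E := by
        rw [← mul_pow]
        have h6 : (d : ℝ) ≤ ((ρ : ℝ) + 1) ^ E := by exact_mod_cast hρ3.le
        refine h6.trans (pow_le_pow_left₀ (by positivity) (by linarith) _)
      have h6 : (d : ℝ) ^ (r + 2) ≤ (2 : ℝ) ^ J * (ρ : ℝ) ^ J := by
        calc (d : ℝ) ^ (r + 2) ≤ ((2 : ℝ) ^ E * (ρ : ℝ) ^ E) ^ (r + 2) :=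
              pow_le_pow_left₀ hd0.le h5 _
          _ = _ := by rw [mul_pow, ← pow_mul, ← pow_mul, hJ]
      have h7 : ((κ + e).choose e : ℝ) ≤ W * ((2 * ((J : ℝ) + 1)) ^ J / (ρ : ℝ) ^ J) := by
        have h8 : W * (((J : ℝ) + 1) * (d / ρ)) ^ J =
            W * ((2 * ((J : ℝ) + 1)) ^ J / (ρ : ℝ) ^ J) * ((d : ℝ) / 2) ^ J := by
          rw [mul_pow, div_pow, mul_pow, div_pow]
          field_simp
        rw [h8] at h4
        exact le_of_mul_le_mul_right h4 (by positivity)
      refine h7.trans ?_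
      apply mul_le_mul_of_nonneg_left _ hW0
      rw [div_le_div_iff₀ (by positivity) (by positivity)]
      calc (2 * ((J : ℝ) + 1)) ^ J * (d : ℝ) ^ (r + 2)
          ≤ (2 * ((J : ℝ) + 1)) ^ J * ((2 : ℝ) ^ J * (ρ : ℝ) ^ J) := by gcongr
        _ = (4 * ((J : ℝ) + 1)) ^ J * (ρ : ℝ) ^ J := by
            rw [← mul_assoc, ← mul_pow]
            congr 2
            ring
    calc (psys L).green Finset.univ Finset.univ 1 ⟨L.v₀, L.start⟩
        ≤ C * (ρ : ℝ) ^ E * ((Fintype.card (FewFacets.Vert L) : ℝ) / (d : ℝ) ^ (r + 2) +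
          ((psys L).low ((d : ℝ) / ρ)).card) := h1
      _ ≤ C * d * (4 * d * W / (d : ℝ) ^ (r + 2) +
          2 * d * (W * ((4 * ((J : ℝ) + 1)) ^ J / (d : ℝ) ^ (r + 2)))) := by
          gcongr
          exact hlow.trans (mul_le_mul_of_nonneg_left hratio (by positivity))
      _ = (4 * C + 2 * C * (4 * ((J : ℝ) + 1)) ^ J) / (d : ℝ) ^ r * W := by
          rw [pow_add]
          field_simp
      _ ≤ (C' : ℝ) / (d : ℝ) ^ r * W := by
          gcongr
          linarith
  · -- `d` is bounded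
    push Not at hκk
    have hρ : ρ = 1 := by
      by_contra hne
      have h2 : 2 ≤ ρ := by omega
      have h3 : κ ≤ d / 2 := Nat.div_le_div_left h2 (by norm_num)
      omega
    rw [hρ] at hρ3
    have hdE : (d : ℝ) ≤ (2 : ℝ) ^ E := by
      have h2 : d ≤ (1 + 1) ^ E := hρ3.le
      have h3 : (d : ℝ) ≤ (1 + 1 : ℝ) ^ E := by exact_mod_cast h2
      norm_num at h3
      exact h3
    have h1 := (psys L).green_ind_le (H := Finset.univ) (R := Finset.univ) Finset.univ
      ⟨L.v₀, L.start⟩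
    have h2 : (PSys.ind fun y => y ∈ (Finset.univ : Finset (FewFacets.Vert L)) :
        FewFacets.Vert L → ℝ) = 1 := by
      ext y
      unfold PSys.ind
      rw [if_pos (Finset.mem_univ _), Pi.one_apply]
    rw [h2, Finset.card_univ] at h1
    calc (psys L).green Finset.univ Finset.univ 1 ⟨L.v₀, L.start⟩
        ≤ (Fintype.card (FewFacets.Vert L) : ℝ) := h1
      _ ≤ 4 * d * W := hN
      _ = 4 * (d : ℝ) ^ (r + 1) / (d : ℝ) ^ r * W := by
          rw [pow_succ]
          field_simp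
      _ ≤ 4 * ((2 : ℝ) ^ E) ^ (r + 1) / (d : ℝ) ^ r * W := by gcongr
      _ ≤ (C' : ℝ) / (d : ℝ) ^ r * W := by
          gcongr
          linarith

end Pool.Agent.Hhelper78.RandomEdgePoly
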