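import Pool.Agent.Hhelper78.RandomEdgePoly.Main

/-!
# Systems in which few steps fail to lead away

If from every vertex `x` near `v` all but few improving edges increase the distance to `v`, the walk
spreads exponentially.
-/

namespace Pool.Agent.Hhelper78.RandomEdgePoly

namespace PSys

variable {V : Type} [Fintype V] [DecidableEq V] {n d : ℕ} (S : PSys V n d) {H R : Finset V}

lemma card_sdiff_nb_le {x : V} {i : Fin n} (hi : i ∈ S.out x) (u : Finset (Fin n)) :
    (S.I (S.nb x i) \ u).card ≤ (S.I x \ u).card + 1 := by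
  have h1 : S.I (S.nb x i) \ u ⊆ (S.I x \ u) ∪ (S.I (S.nb x i) \ (S.I x).erase i) := by
    intro a ha
    rw [Finset.mem_sdiff] at ha
    rw [Finset.mem_union, Finset.mem_sdiff, Finset.mem_sdiff]
    by_cases h : a ∈ (S.I x).erase i
    · exact Or.inl ⟨Finset.mem_of_mem_erase h, ha.2⟩
    · exact Or.inr ⟨ha.1, h⟩
  have h2 := (Finset.card_le_card h1).trans (Finset.card_union_le _ _)
  have h3 : (S.I (S.nb x i) \ (S.I x).erase i).card = 1 := by
    rw [Finset.card_sdiff_of_subset (S.erase_sub x i hi), S.card_I,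
      Finset.card_erase_of_mem (S.out_sub x hi), S.card_I]
    have : 0 < (S.I x).card := Finset.card_pos.mpr ⟨i, S.out_sub x hi⟩
    rw [S.card_I] at this
    omega
  omega

/-- the steps that do not lead away from `v` -/
def bad (v x : V) : Finset (Fin n) :=
  (S.out x).filter fun i => (S.I (S.nb x i) \ S.I v).card ≤ (S.I x \ S.I v).card

/-- Exponential moment of the distance. -/
lemma expo {K : ℝ} {m T : ℕ} (hH : ∀ x ∈ H, K ≤ ((S.out x).card : ℝ)) (hK0 : 0 < K)
    (hbad : ∀ v x, (S.bad v x).card ≤ m * (S.I x \ S.I v).card)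
    (hK : 8 * (m : ℝ) * T ≤ K) (v : V) (t : ℕ) : ∀ x, (S.I x \ S.I v).card + t ≤ T →
    ((S.op H R) ^ t) (fun z => ((1 : ℝ) / 2) ^ (S.I z \ S.I v).card) x ≤
      ((11 : ℝ) / 16) ^ t * ((1 : ℝ) / 2) ^ (S.I x \ S.I v).card := by
  induction t with
  | zero => intro x _; rw [pow_zero_apply]; simp
  | succ t ih =>
    intro x hx
    rw [pow_succ_apply]
    set f := ((S.op H R) ^ t) (fun z => ((1 : ℝ) / 2) ^ (S.I z \ S.I v).card) with hf
    have hf0 : ∀ y, 0 ≤ f y := S.pow_nonneg t fun _ => by positivity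
    by_cases hxH : x ∈ H
    swap
    · rw [op_notMem _ _ hxH]; positivity
    rw [op_mem _ _ hxH]
    have hm := hH x hxH
    have hm0 : (0 : ℝ) < (S.out x).card := lt_of_lt_of_le hK0 hm
    rw [div_le_iff₀ hm0]
    set a := (S.I x \ S.I v).card with ha
    have h1 : ∑ i ∈ (S.out x).filter (fun i => S.nb x i ∈ R), f (S.nb x i) ≤
        ∑ i ∈ S.out x, f (S.nb x i) :=
      Finset.sum_le_sum_of_subset_of_nonneg (Finset.filter_subset _ _) fun _ _ _ => hf0 _
    have h2 : ∀ i ∈ S.out x, f (S.nb x i) ≤ ((11 : ℝ) / 16) ^ t * ((1 : ℝ) / 2) ^ a *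
        (1 / 2 + if i ∈ S.bad v x then 3 / 2 else 0) := by
      intro i hi
      have h3 := S.card_sdiff_nb_le hi (S.I v)
      have h4 := ih (S.nb x i) (by omega)
      refine h4.trans ?_
      rw [mul_assoc]
      apply mul_le_mul_of_nonneg_left _ (by positivity)
      by_cases hb : i ∈ S.bad v x
      · rw [if_pos hb]
        have h5 := S.card_sdiff_nb hi (S.I v)
        calc ((1 : ℝ) / 2) ^ (S.I (S.nb x i) \ S.I v).card
            = 2 * ((1 : ℝ) / 2) ^ ((S.I (S.nb x i) \ S.I v).card + 1) := by ring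
          _ ≤ 2 * ((1 : ℝ) / 2) ^ a := by
              apply mul_le_mul_of_nonneg_left _ (by norm_num)
              exact pow_le_pow_of_le_one (by norm_num) (by norm_num) h5
          _ = ((1 : ℝ) / 2) ^ a * (1 / 2 + 3 / 2) := by ring
      · rw [if_neg hb, add_zero]
        have h5 : a + 1 ≤ (S.I (S.nb x i) \ S.I v).card := by
          unfold bad at hb
          rw [Finset.mem_filter, not_and, not_le] at hb
          exact hb hi
        calc ((1 : ℝ) / 2) ^ (S.I (S.nb x i) \ S.I v).card ≤ ((1 : ℝ) / 2) ^ (a + 1) :=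
              pow_le_pow_of_le_one (by norm_num) (by norm_num) h5
          _ = ((1 : ℝ) / 2) ^ a * (1 / 2) := by ring
    have hbadc : ((S.bad v x).card : ℝ) ≤ (S.out x).card / 8 := by
      have h3 : ((S.bad v x).card : ℝ) ≤ m * a := by exact_mod_cast hbad v x
      have h4 : (a : ℝ) ≤ T := by
        have : a ≤ T := by omega
        exact_mod_cast this
      have h5 : (m : ℝ) * a ≤ m * T := mul_le_mul_of_nonneg_left h4 (Nat.cast_nonneg _)
      linarith
    refine h1.trans ((Finset.sum_le_sum h2).trans ?_)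
    rw [← Finset.mul_sum, Finset.sum_add_distrib, Finset.sum_const, nsmul_eq_mul,
      ← Finset.sum_filter, Finset.sum_const, nsmul_eq_mul]
    have h3 : ((S.out x).filter fun i => i ∈ S.bad v x).card ≤ (S.bad v x).card := by
      apply Finset.card_le_card
      intro i hi
      exact (Finset.mem_filter.mp hi).2
    have h4 : (((S.out x).filter fun i => i ∈ S.bad v x).card : ℝ) ≤ (S.out x).card / 8 :=
      le_trans (by exact_mod_cast h3) hbadc
    have h5 : ((S.out x).card : ℝ) * (1 / 2) +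
        (((S.out x).filter fun i => i ∈ S.bad v x).card : ℝ) * (3 / 2) ≤
        11 / 16 * (S.out x).card := by linarith
    calc ((11 : ℝ) / 16) ^ t * ((1 : ℝ) / 2) ^ a * (((S.out x).card : ℝ) * (1 / 2) +
          (((S.out x).filter fun i => i ∈ S.bad v x).card : ℝ) * (3 / 2))
        ≤ ((11 : ℝ) / 16) ^ t * ((1 : ℝ) / 2) ^ a * (11 / 16 * (S.out x).card) :=
          mul_le_mul_of_nonneg_left h5 (by positivity)
      _ = _ := by ring

/-- Spreading in one go. -/
lemma spread' {K : ℝ} {m s : ℕ} (hH : ∀ x ∈ H, K ≤ ((S.out x).card : ℝ)) (hK0 : 0 < K)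
    (hbad : ∀ v x, (S.bad v x).card ≤ m * (S.I x \ S.I v).card)
    (hK : 32 * (m : ℝ) * s ≤ K) (hs : 2 ≤ s) (x : V) :
    ((S.op H R) ^ (4 * s)) 1 x ≤ 1 / 4 +
      ((S.op H R) ^ (4 * s)) (ind fun z => s ≤ (S.I z \ S.I x).card) x := by
  have h1 : ∀ z, (1 : V → ℝ) z ≤ ((2 : ℝ) ^ s • (fun z => ((1 : ℝ) / 2) ^ (S.I z \ S.I x).card) +
      ind fun z => s ≤ (S.I z \ S.I x).card) z := by
    intro z
    rw [Pi.add_apply, Pi.smul_apply, smul_eq_mul, Pi.one_apply]
    by_cases hz : s ≤ (S.I z \ S.I x).card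
    · have : ind (fun z => s ≤ (S.I z \ S.I x).card) z = 1 := by unfold ind; rw [if_pos hz]
      rw [this]
      have : 0 ≤ (2 : ℝ) ^ s * ((1 : ℝ) / 2) ^ (S.I z \ S.I x).card := by positivity
      linarith
    · have h2 := ind_nonneg (fun z => s ≤ (S.I z \ S.I x).card) z
      have h3 : (1 : ℝ) ≤ (2 : ℝ) ^ s * ((1 : ℝ) / 2) ^ (S.I z \ S.I x).card := by
        calc (1 : ℝ) = (2 : ℝ) ^ s * ((1 : ℝ) / 2) ^ s := by
              rw [← mul_pow]; norm_num
          _ ≤ _ := by
              apply mul_le_mul_of_nonneg_left _ (by positivity)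
              exact pow_le_pow_of_le_one (by norm_num) (by norm_num) (by omega)
      linarith
  have h2 := S.pow_mono (H := H) (R := R) (4 * s) h1 x
  rw [map_add, Pi.add_apply, map_smul, Pi.smul_apply, smul_eq_mul] at h2
  have h3 := S.expo (R := R) (T := 4 * s) hH hK0 hbad (by push_cast; linarith) x (4 * s) x (by
    rw [Finset.sdiff_self, Finset.card_empty]; omega)
  rw [Finset.sdiff_self, Finset.card_empty, pow_zero, mul_one] at h3
  have h4 : (2 : ℝ) ^ s * ((11 : ℝ) / 16) ^ (4 * s) ≤ 1 / 4 := by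
    rw [pow_mul, ← mul_pow]
    calc ((2 : ℝ) * ((11 : ℝ) / 16) ^ 4) ^ s ≤ ((2 : ℝ) * ((11 : ℝ) / 16) ^ 4) ^ 2 :=
          pow_le_pow_of_le_one (by norm_num) (by norm_num) hs
      _ ≤ 1 / 4 := by norm_num
  have h5 : (2 : ℝ) ^ s * ((S.op H R) ^ (4 * s)) (fun z => ((1 : ℝ) / 2) ^ (S.I z \ S.I x).card) x ≤
      (2 : ℝ) ^ s * ((11 : ℝ) / 16) ^ (4 * s) := mul_le_mul_of_nonneg_left h3 (by positivity)
  linarith

/-- **The exponential bound for systems with few bad steps.** -/
theorem green_le_exp {K : ℝ} {m s : ℕ} (hm : 1 ≤ m) (hK0 : 0 < K)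
    (hbad : ∀ v x, (S.bad v x).card ≤ m * (S.I x \ S.I v).card)
    (hK : 32 * (m : ℝ) * s ≤ K) (hs : 2 ≤ s) (x₀ : V) :
    S.green Finset.univ Finset.univ 1 x₀ ≤ 8 * s * (S.low K).card +
      128 * s * ((1 : ℝ) / 8) ^ s * Fintype.card V := by
  classical
  set H := S.high K with hHdef
  have hH : ∀ x ∈ H, K ≤ ((S.out x).card : ℝ) := fun x hx => S.mem_high.mp hx
  have hs0 : (0 : ℝ) < s := by exact_mod_cast (show 0 < s by omega)
  have hm' : (1 : ℝ) ≤ m := by exact_mod_cast hm
  set q : ℝ := ((1 : ℝ) / 8) ^ s with hq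
  have hq0 : 0 < q := by positivity
  set ε : V → ℝ := fun y =>
    ((S.op H Finset.univ) ^ (4 * s)) (ind fun z => s ≤ (S.I z \ S.I y).card) y with hε
  set μ : V → V → ℝ := fun y z =>
    if s ≤ (S.I z \ S.I y).card then ((S.op H Finset.univ) ^ (4 * s)) (pt z) y else 0 with hμ
  have hεμ : ∀ y, ε y = ∑ z, μ y z := by
    intro y
    rw [hε, hμ]
    simp only
    rw [pow_eq_sum]
    refine Finset.sum_congr rfl fun z _ => ?_
    unfold ind
    split_ifs <;> simp
  have hpass : S.green Finset.univ Finset.univ (fun y => (ε y) ^ 2) x₀ ≤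
      2 * q * (4 * s : ℕ) * Fintype.card V := by
    have h1 := S.passing (H := Finset.univ) (R := Finset.univ) Finset.univ (4 * s) hq0 μ
      ?_ ?_ ?_ ?_ ?_ x₀
    · have h2 : (fun y => (ε y) ^ 2) = fun y => (∑ z, μ y z) ^ 2 := by
        ext y; rw [hεμ]
      rw [h2]
      rwa [Finset.card_univ] at h1
    · intro y z
      rw [hμ]
      simp only
      split_ifs
      · exact S.pow_nonneg _ (pt_nonneg z) y
      · exact le_refl _
    · intro y z
      rw [hμ]
      simp only
      split_ifs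
      · exact S.pow_mono_set (Finset.subset_univ _) (le_refl _) _ (pt_nonneg z) y
      · exact S.pow_nonneg _ (pt_nonneg z) y
    · intro y z
      rw [hμ]
      simp only
      split_ifs with hz
      · rw [S.card_sdiff_symm] at hz
        refine (S.atoms hK0 hH z (4 * s) s y hz).trans ?_
        rw [hq, ← div_pow]
        apply pow_le_pow_left₀ (by positivity)
        rw [div_le_iff₀ hK0]
        push_cast
        have h2 : 32 * (s : ℝ) ≤ 32 * (m : ℝ) * s := by nlinarith
        linarith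
      · exact hq0.le
    · intro y z hz
      exact absurd (Finset.mem_univ z) hz
    · intro y z hz
      rw [hμ]
      simp only
      split_ifs
      · exact S.pow_pt_rank z (4 * s) y (by omega)
      · rfl
  have hkey : ∀ y, (1 : V → ℝ) y ≤ ((2 : ℝ) • (1 - ((S.op H Finset.univ) ^ (4 * s)) 1) +
      (16 : ℝ) • fun y => (ε y) ^ 2) y := by
    intro y
    simp only [Pi.add_apply, Pi.smul_apply, Pi.sub_apply, Pi.one_apply, smul_eq_mul]
    have h1 := S.spread' (R := Finset.univ) hH hK0 hbad hK hs y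
    have hs1 : ((S.op H Finset.univ) ^ (4 * s)) 1 y ≤ 1 := S.pow_le_one _ (fun _ => by simp) y
    by_cases hh : ((S.op H Finset.univ) ^ (4 * s)) 1 y < 1 / 2
    · nlinarith [sq_nonneg (ε y)]
    · push Not at hh
      have h3 : 1 / 4 ≤ ε y := by
        have h4 : ε y = ((S.op H Finset.univ) ^ (4 * s))
          (ind fun z => s ≤ (S.I z \ S.I y).card) y := rfl
        rw [h4]
        linarith
      have h5 : (1 / 4 : ℝ) ^ 2 ≤ (ε y) ^ 2 := pow_le_pow_left₀ (by norm_num) h3 2
      nlinarith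
  refine (S.green_mono hkey x₀).trans ?_
  rw [map_add, Pi.add_apply, map_smul, map_smul, Pi.smul_apply, Pi.smul_apply, smul_eq_mul,
    smul_eq_mul]
  have h1 := S.green_one_sub hK0 (4 * s) x₀
  rw [← hHdef] at h1
  push_cast at h1 hpass
  linarith

end PSys

end Pool.Agent.Hhelper78.RandomEdgePoly
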