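import Pool.Agent.Hhelper78.RandomEdgePoly.Final
import Pool.Agent.Hhelper78.RandomEdgePoly.HellyAbs

/-!
# Polytopes whose facets have a bounded Helly number
-/

open scoped ENNReal
open Matrix Pool.Agent.Hhelper78.RandomEdge Pool.Agent.FewFacets

namespace Pool.Agent.Hhelper78.RandomEdgePoly

/-- Every set of facets of `P` without a common point contains at most `M` facets without a common
point. For `M = 2` these are the flag simple polytopes. -/
def HellyLE {d n : ℕ} (L : LPInstance d n) (M : ℕ) : Prop :=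
  ∀ F : Finset (Fin n), (∀ x ∈ poly L.A L.b, ∃ i ∈ F, L.A i ⬝ᵥ x ≠ L.b i) →
    ∃ F' ⊆ F, F'.card ≤ M ∧ ∀ x ∈ poly L.A L.b, ∃ i ∈ F', L.A i ⬝ᵥ x ≠ L.b i

variable {d n : ℕ} (L : LPInstance d n)

/-- every nonempty face has a vertex -/
lemma exists_vertex_of_face (F : Finset (Fin n)) {x : Fin d → ℝ} (hx : x ∈ poly L.A L.b)
    (hF : ∀ i ∈ F, L.A i ⬝ᵥ x = L.b i) : ∃ w : FewFacets.Vert L, F ⊆ tI L w := by
  classical
  set Q : Set (Fin d → ℝ) := {y | y ∈ poly L.A L.b ∧ ∀ i ∈ F, L.A i ⬝ᵥ y = L.b i} with hQ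
  have hcl : IsClosed Q := by
    have h1 : Q = (⋂ i, {y : Fin d → ℝ | L.A i ⬝ᵥ y ≤ L.b i}) ∩
        (⋂ i ∈ F, {y : Fin d → ℝ | L.A i ⬝ᵥ y = L.b i}) := by
      ext y
      simp [hQ, poly]
    rw [h1]
    refine (isClosed_iInter fun i => ?_).inter (isClosed_biInter fun i _ => ?_)
    · exact isClosed_le (by fun_prop) continuous_const
    · exact isClosed_eq (by fun_prop) continuous_const
  have hcomp : IsCompact Q :=
    Metric.isCompact_of_isClosed_isBounded hcl (L.bounded.subset fun y hy => hy.1)
  obtain ⟨w, hw⟩ := hcomp.extremePoints_nonempty (⟨x, hx, hF⟩ : Q.Nonempty)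
  have hext : IsExtreme ℝ (poly L.A L.b) Q := by
    refine ⟨fun y hy => hy.1, ?_⟩
    intro y hy z hz p hp hpyz
    obtain ⟨a, b, ha, hb, hab, rfl⟩ := hpyz
    refine ⟨hy, fun i hi => ?_⟩
    have h1 := hp.2 i hi
    rw [dotProduct_add, dotProduct_smul, dotProduct_smul, smul_eq_mul, smul_eq_mul] at h1
    have h2 := hy i
    have h3 := hz i
    apply le_antisymm h2
    by_contra hcon
    push Not at hcon
    have h4 := mul_lt_mul_of_pos_left hcon ha
    have h5 := mul_le_mul_of_nonneg_left h3 hb.le
    have h6 : a * L.b i + b * L.b i = L.b i := by rw [← add_mul, hab, one_mul]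
    linarith
  have hw' := hext.extremePoints_subset_extremePoints hw
  refine ⟨⟨w, hw'⟩, fun i hi => ?_⟩
  exact mem_tight.mpr (hw.1.2 i hi)

variable {L}

/-- the Helly property for vertices -/
lemma HellyLE.vert {M : ℕ} (hM : HellyLE L M) (F : Finset (Fin n))
    (hF : ∀ w : FewFacets.Vert L, ¬ F ⊆ tI L w) :
    ∃ F' ⊆ F, F'.card ≤ M ∧ ∀ w : FewFacets.Vert L, ¬ F' ⊆ tI L w := by
  obtain ⟨F', h1, h2, h3⟩ := hM F (by
    intro x hx
    by_contra hcon
    push Not at hcon
    obtain ⟨w, hw⟩ := exists_vertex_of_face L F hx hcon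
    exact hF w hw)
  refine ⟨F', h1, h2, fun w hw => ?_⟩
  obtain ⟨i, hi, hne⟩ := h3 w.1 w.2.1
  exact hne (mem_tight.mp (hw hi))

/-- a set with `d + 1` facets lies in no vertex -/
lemma not_sub_insert (x : FewFacets.Vert L) {j : Fin n} (hj : j ∉ tI L x)
    (w : FewFacets.Vert L) : ¬ insert j (tI L x) ⊆ tI L w := by
  intro h
  have h1 := Finset.card_le_card h
  rw [Finset.card_insert_of_notMem hj, card_tI, card_tI] at h1
  omega

/-- the missing set of a pivot -/
lemma HellyLE.pivot {M : ℕ} (hM : HellyLE L M) (x : FewFacets.Vert L) {j : Fin n}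
    (hj : j ∉ tI L x) : ∃ F' ⊆ insert j (tI L x), F'.card ≤ M ∧ j ∈ F' ∧
      (∀ w : FewFacets.Vert L, ¬ F' ⊆ tI L w) ∧
      ∀ i ∈ tI L x, FewFacets.ixV L x i = j → i ∈ F' := by
  obtain ⟨F', h1, h2, h3⟩ := hM.vert _ (not_sub_insert x hj)
  have hjF : j ∈ F' := by
    by_contra hcon
    apply h3 x
    intro a ha
    rcases Finset.mem_insert.mp (h1 ha) with h | h
    · exact absurd (h ▸ ha) hcon
    · exact h
  refine ⟨F', h1, h2, hjF, h3, fun i hi hix => ?_⟩
  by_contra hcon
  apply h3 (FewFacets.nbV L x i)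
  have h4 := (FewFacets.nb_spec L x i hi).2.2
  intro a ha
  show a ∈ tight L.A L.b (FewFacets.nbV L x i).1
  rw [h4, hix, Finset.mem_insert]
  rcases Finset.mem_insert.mp (h1 ha) with h | h
  · exact Or.inl h
  · exact Or.inr (Finset.mem_erase.mpr ⟨fun h' => hcon (h' ▸ ha), h⟩)

/-- **Few bad steps.** -/
lemma HellyLE.bad_le {M : ℕ} (hM : HellyLE L M) (hM2 : 2 ≤ M) (v x : FewFacets.Vert L) :
    ((psys L).bad v x).card ≤ (M - 1) * ((psys L).I x \ (psys L).I v).card := by
  classical
  have hI : ∀ y, (psys L).I y = tI L y := fun _ => rfl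
  rw [hI, hI]
  set a := (tI L x \ tI L v).card with ha
  -- the bad steps are stale or enter a facet of `v`
  have h1 : (psys L).bad v x ⊆ (tI L x \ tI L v) ∪ ((tI L v \ tI L x).biUnion fun j =>
      (tI L x).filter fun i => i ∈ tI L v ∧ FewFacets.ixV L x i = j) := by
    intro i hi
    unfold PSys.bad at hi
    rw [Finset.mem_filter] at hi
    have hiout : i ∈ FewFacets.outV L x := hi.1
    have hix := outV_sub L x hiout
    rw [Finset.mem_union, Finset.mem_sdiff, Finset.mem_biUnion]
    by_cases hiv : i ∈ tI L v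
    · right
      have hsub := (psys L).sdiff_nb_of_mem hi.1 (u := (psys L).I v) hiv
      have heq := Finset.eq_of_subset_of_card_le hsub hi.2
      have hspec := FewFacets.nb_spec L x i hix
      refine ⟨FewFacets.ixV L x i, ?_, ?_⟩
      · rw [Finset.mem_sdiff]
        refine ⟨?_, hspec.2.1⟩
        by_contra hcon
        have h2 : FewFacets.ixV L x i ∈ (psys L).I ((psys L).nb x i) \ (psys L).I v := by
          rw [Finset.mem_sdiff]
          refine ⟨?_, hcon⟩
          show FewFacets.ixV L x i ∈ tight L.A L.b (FewFacets.nbV L x i).1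
          rw [hspec.2.2]
          exact Finset.mem_insert_self _ _
        rw [← heq, Finset.mem_sdiff] at h2
        exact hspec.2.1 h2.1
      · rw [Finset.mem_filter]
        exact ⟨hix, hiv, rfl⟩
    · left
      exact ⟨hix, hiv⟩
  have h2 : ∀ j ∈ tI L v \ tI L x,
      ((tI L x).filter fun i => i ∈ tI L v ∧ FewFacets.ixV L x i = j).card ≤ M - 2 := by
    intro j hj
    rw [Finset.mem_sdiff] at hj
    obtain ⟨F', hF1, hF2, hF3, hF4, hF5⟩ := hM.pivot x hj.2
    obtain ⟨b, hb, hbv⟩ := Finset.not_subset.mp (hF4 v)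
    have hbj : b ≠ j := fun h => hbv (h ▸ hj.1)
    have h3 : ((tI L x).filter fun i => i ∈ tI L v ∧ FewFacets.ixV L x i = j) ⊆
        (F'.erase j).erase b := by
      intro i hi
      rw [Finset.mem_filter] at hi
      rw [Finset.mem_erase, Finset.mem_erase]
      refine ⟨fun h => hbv (h ▸ hi.2.1), fun h => hj.2 (h ▸ hi.1), hF5 i hi.1 hi.2.2⟩
    refine (Finset.card_le_card h3).trans ?_
    rw [Finset.card_erase_of_mem (Finset.mem_erase.mpr ⟨hbj, hb⟩), Finset.card_erase_of_mem hF3]
    omega
  have h3 : (tI L v \ tI L x).card = a := by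
    rw [ha]
    exact ((psys L).card_sdiff_symm x v).symm
  calc ((psys L).bad v x).card
      ≤ (tI L x \ tI L v).card + ((tI L v \ tI L x).biUnion fun j =>
          (tI L x).filter fun i => i ∈ tI L v ∧ FewFacets.ixV L x i = j).card :=
        (Finset.card_le_card h1).trans (Finset.card_union_le _ _)
    _ ≤ a + ∑ j ∈ tI L v \ tI L x, (M - 2) := by
        gcongr
        exact Finset.card_biUnion_le.trans (Finset.sum_le_sum h2)
    _ = a + a * (M - 2) := by rw [Finset.sum_const, smul_eq_mul, h3]
    _ = (M - 1) * a := by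
        obtain ⟨m, rfl⟩ := Nat.exists_eq_add_of_le hM2
        have e1 : 2 + m - 2 = m := by omega
        have e2 : 2 + m - 1 = m + 1 := by omega
        rw [e1, e2]
        ring

/-- **Faces have many vertices.** -/
lemma HellyLE.face_card {M : ℕ} (hM : HellyLE L M) (hM2 : 2 ≤ M) (k : ℕ) :
    ∀ (v : FewFacets.Vert L) (S : Finset (Fin n)), S ⊆ tI L v → (tI L v \ S).card = k →
      ((M : ℝ) / ((M : ℝ) - 1)) ^ k ≤
        ((Finset.univ.filter fun w : FewFacets.Vert L => S ⊆ tI L w).card : ℝ) := by
  classical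
  have hM2' : (2 : ℝ) ≤ M := by exact_mod_cast hM2
  induction k with
  | zero =>
    intro v S hS _
    rw [pow_zero]
    have : 0 < (Finset.univ.filter fun w : FewFacets.Vert L => S ⊆ tI L w).card :=
      Finset.card_pos.mpr ⟨v, Finset.mem_filter.mpr ⟨Finset.mem_univ _, hS⟩⟩
    exact_mod_cast this
  | succ k ih =>
    intro v S hS hk
    set γ : ℝ := (M : ℝ) / ((M : ℝ) - 1) with hγ
    have hγ0 : 0 < γ := by
      rw [hγ]
      apply div_pos <;> linarith
    obtain ⟨i, hi⟩ : (tI L v \ S).Nonempty := by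
      rw [← Finset.card_pos]; omega
    rw [Finset.mem_sdiff] at hi
    have hspec := FewFacets.nb_spec L v i hi.1
    set j := FewFacets.ixV L v i with hj
    set v' := FewFacets.nbV L v i with hv'
    obtain ⟨F', hF1, hF2, hF3, hF4, hF5⟩ := hM.pivot v (j := j) hspec.2.1
    have hiF : i ∈ F' := hF5 i hi.1 rfl
    have hjS : j ∉ S := fun h => hspec.2.1 (hS h)
    have hij : i ≠ j := fun h => hspec.2.1 (h ▸ hi.1)
    set F'' := F' \ S with hF''
    have hc2 : 2 ≤ F''.card := by
      have h1 : ({i, j} : Finset (Fin n)) ⊆ F'' := by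
        intro a ha
        rw [Finset.mem_insert, Finset.mem_singleton] at ha
        rw [hF'', Finset.mem_sdiff]
        rcases ha with rfl | rfl
        · exact ⟨hiF, hi.2⟩
        · exact ⟨hF3, hjS⟩
      have h2 := Finset.card_le_card h1
      rwa [Finset.card_pair hij] at h2
    have hcM : F''.card ≤ M := (Finset.card_le_card Finset.sdiff_subset).trans hF2
    set N : ℕ := (Finset.univ.filter fun w : FewFacets.Vert L => S ⊆ tI L w).card with hN
    have hdS : S.card + (k + 1) = d := by
      have := Finset.card_sdiff_add_card_eq_card hS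
      rw [card_tI] at this
      omega
    -- the smaller faces
    have hsub : ∀ f ∈ F'', γ ^ k ≤
        ((Finset.univ.filter fun w : FewFacets.Vert L => insert f S ⊆ tI L w).card : ℝ) := by
      intro f hf
      rw [hF'', Finset.mem_sdiff] at hf
      by_cases hfj : f = j
      · rw [hfj]
        have h1 : insert j S ⊆ tI L v' := by
          intro a ha
          show a ∈ tight L.A L.b (FewFacets.nbV L v i).1
          rw [hspec.2.2, Finset.mem_insert]
          rcases Finset.mem_insert.mp ha with h | h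
          · exact Or.inl h
          · exact Or.inr (Finset.mem_erase.mpr ⟨fun h' => hi.2 (h' ▸ h), hS h⟩)
        apply ih v' _ h1
        rw [Finset.card_sdiff_of_subset h1, Finset.card_insert_of_notMem hjS, card_tI]
        omega
      · have hfv : f ∈ tI L v := by
          rcases Finset.mem_insert.mp (hF1 hf.1) with h | h
          · exact absurd h hfj
          · exact h
        have h1 : insert f S ⊆ tI L v := by
          intro a ha
          rcases Finset.mem_insert.mp ha with h | h
          · exact h ▸ hfv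
          · exact hS h
        apply ih v _ h1
        rw [Finset.card_sdiff_of_subset h1, Finset.card_insert_of_notMem hf.2, card_tI]
        omega
    -- double counting
    have hdc : ∑ f ∈ F'', (Finset.univ.filter fun w : FewFacets.Vert L =>
        insert f S ⊆ tI L w).card ≤ N * (F''.card - 1) := by
      have h1 : ∀ f, (Finset.univ.filter fun w : FewFacets.Vert L => insert f S ⊆ tI L w).card =
          ∑ w ∈ Finset.univ.filter (fun w : FewFacets.Vert L => S ⊆ tI L w),
            if f ∈ tI L w then 1 else 0 := by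
        intro f
        rw [← Finset.sum_filter, Finset.sum_const, smul_eq_mul, mul_one]
        congr 1
        ext w
        simp only [Finset.mem_filter, Finset.mem_univ, true_and, Finset.insert_subset_iff]
        tauto
      rw [Finset.sum_congr rfl fun f _ => h1 f, Finset.sum_comm]
      calc ∑ w ∈ Finset.univ.filter (fun w : FewFacets.Vert L => S ⊆ tI L w),
            ∑ f ∈ F'', (if f ∈ tI L w then 1 else 0)
          ≤ ∑ w ∈ Finset.univ.filter (fun w : FewFacets.Vert L => S ⊆ tI L w),
            (F''.card - 1) := by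
            refine Finset.sum_le_sum fun w hw => ?_
            rw [Finset.mem_filter] at hw
            rw [← Finset.sum_filter, Finset.sum_const, smul_eq_mul, mul_one]
            obtain ⟨b, hb, hbw⟩ := Finset.not_subset.mp (hF4 w)
            have hb'' : b ∈ F'' := by
              rw [hF'', Finset.mem_sdiff]
              exact ⟨hb, fun h => hbw (hw.2 h)⟩
            have h2 : (F''.filter fun f => f ∈ tI L w) ⊆ F''.erase b := by
              intro f hf
              rw [Finset.mem_filter] at hf
              rw [Finset.mem_erase]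
              exact ⟨fun h => hbw (h ▸ hf.2), hf.1⟩
            refine (Finset.card_le_card h2).trans ?_
            rw [Finset.card_erase_of_mem hb'']
        _ = N * (F''.card - 1) := by rw [Finset.sum_const, smul_eq_mul]
    have h1 : (F''.card : ℝ) * γ ^ k ≤ (N : ℝ) * ((F''.card : ℝ) - 1) := by
      have h2 : ∑ f ∈ F'', γ ^ k ≤ ∑ f ∈ F'',
          ((Finset.univ.filter fun w : FewFacets.Vert L => insert f S ⊆ tI L w).card : ℝ) :=
        Finset.sum_le_sum hsub
      rw [Finset.sum_const, nsmul_eq_mul] at h2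
      refine h2.trans ?_
      have h3 : ((∑ f ∈ F'', (Finset.univ.filter fun w : FewFacets.Vert L =>
        insert f S ⊆ tI L w).card : ℕ) : ℝ) ≤ ((N * (F''.card - 1) : ℕ) : ℝ) := by
        exact_mod_cast hdc
      push_cast [Nat.cast_sub (show 1 ≤ F''.card by omega)] at h3
      exact h3
    have hc2' : (2 : ℝ) ≤ F''.card := by exact_mod_cast hc2
    have hcM' : (F''.card : ℝ) ≤ M := by exact_mod_cast hcM
    have hpk : 0 < γ ^ k := by positivity
    have h2 : γ ^ (k + 1) = (M : ℝ) * γ ^ k / ((M : ℝ) - 1) := by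
      rw [pow_succ, hγ]
      ring
    rw [h2, div_le_iff₀ (by linarith)]
    -- `M γ^k ≤ N (M - 1)`
    have h3 : (F''.card : ℝ) * γ ^ k * ((M : ℝ) - 1) ≤
        (N : ℝ) * ((F''.card : ℝ) - 1) * ((M : ℝ) - 1) :=
      mul_le_mul_of_nonneg_right h1 (by linarith)
    have h4 : (M : ℝ) * γ ^ k * ((F''.card : ℝ) - 1) ≤
        (F''.card : ℝ) * γ ^ k * ((M : ℝ) - 1) := by
      nlinarith
    have h5 : (M : ℝ) * γ ^ k * ((F''.card : ℝ) - 1) ≤
        (N : ℝ) * ((M : ℝ) - 1) * ((F''.card : ℝ) - 1) := by nlinarith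
    exact le_of_mul_le_mul_right h5 (by linarith)

end Pool.Agent.Hhelper78.RandomEdgePoly
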