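import Pool.Agent.Hhelper78.RandomEdgePoly.HellyInst

/-!
# The exponential bound for polytopes whose facets have a bounded Helly number
-/

open scoped ENNReal
open Matrix Pool.Agent.Hhelper78.RandomEdge Pool.Agent.FewFacets

namespace Pool.Agent.Hhelper78.RandomEdgePoly

variable {d n : ℕ} (L : LPInstance d n)

/-- counting the faces of dimension `k` by their highest vertices -/
lemma face_count_gen (k : ℕ) (hk : k ≤ d) {ν : ℝ}
    (hν : ∀ (v : FewFacets.Vert L) (S : Finset (Fin n)), S ⊆ tI L v → (tI L v \ S).card = k →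
      ν ≤ ((Finset.univ.filter fun w : FewFacets.Vert L => S ⊆ tI L w).card : ℝ)) :
    ν * ((∑ v : FewFacets.Vert L, (tI L v \ FewFacets.outV L v).card.choose k : ℕ) : ℝ) ≤
      (Fintype.card (FewFacets.Vert L) : ℝ) * (d.choose k : ℝ) := by
  classical
  set P : Finset (FewFacets.Vert L × Finset (Fin n)) := Finset.univ.filter fun e =>
    e.2 ⊆ tI L e.1 ∧ FewFacets.outV L e.1 ⊆ e.2 ∧ e.2.card = d - k with hP
  set Q : Finset (FewFacets.Vert L × Finset (Fin n)) := Finset.univ.filter fun e =>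
    e.2 ⊆ tI L e.1 ∧ e.2.card = d - k with hQ
  -- the number of pairs in `P`
  have h1 : ∑ v : FewFacets.Vert L, (tI L v \ FewFacets.outV L v).card.choose k = P.card := by
    have h2 : P.card = ∑ v : FewFacets.Vert L, (P.filter fun e => e.1 = v).card :=
      Finset.card_eq_sum_card_fiberwise (fun e _ => Finset.mem_univ _)
    rw [h2]
    refine Finset.sum_congr rfl fun v _ => ?_
    rw [← Finset.card_powersetCard]
    refine Finset.card_bij (fun T _ => (v, tI L v \ T)) ?_ ?_ ?_
    · intro T hT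
      rw [Finset.mem_powersetCard] at hT
      simp only [hP, Finset.mem_filter, Finset.mem_univ, true_and, and_true]
      refine ⟨Finset.sdiff_subset, ?_, ?_⟩
      · intro i hi
        rw [Finset.mem_sdiff]
        refine ⟨outV_sub L v hi, fun h => ?_⟩
        exact (Finset.mem_sdiff.mp (hT.1 h)).2 hi
      · rw [Finset.card_sdiff_of_subset (hT.1.trans Finset.sdiff_subset), hT.2, card_tI]
    · intro T hT T' hT' h
      rw [Finset.mem_powersetCard] at hT hT'
      have h3 : tI L v \ T = tI L v \ T' := (Prod.mk.injEq _ _ _ _ ▸ h).2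
      have h4 : tI L v \ (tI L v \ T) = T :=
        Finset.sdiff_sdiff_eq_self (hT.1.trans Finset.sdiff_subset)
      have h5 : tI L v \ (tI L v \ T') = T' :=
        Finset.sdiff_sdiff_eq_self (hT'.1.trans Finset.sdiff_subset)
      rw [← h4, ← h5, h3]
    · rintro ⟨w, S⟩ he
      simp only [hP, Finset.mem_filter, Finset.mem_univ, true_and] at he
      obtain ⟨⟨h3, h4, h5⟩, rfl⟩ := he
      refine ⟨tI L w \ S, ?_, ?_⟩
      · rw [Finset.mem_powersetCard]
        refine ⟨Finset.sdiff_subset_sdiff (le_refl _) h4, ?_⟩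
        rw [Finset.card_sdiff_of_subset h3, h5, card_tI]
        omega
      · rw [Finset.sdiff_sdiff_eq_self h3]
  have h2 : Q.card = Fintype.card (FewFacets.Vert L) * d.choose k := by
    have h3 : Q.card = ∑ v : FewFacets.Vert L, (Q.filter fun e => e.1 = v).card :=
      Finset.card_eq_sum_card_fiberwise (fun e _ => Finset.mem_univ _)
    rw [h3]
    have h4 : ∀ v : FewFacets.Vert L, (Q.filter fun e => e.1 = v).card = d.choose k := by
      intro v
      rw [← Nat.choose_symm hk]
      have h5 : d.choose (d - k) = ((tI L v).powersetCard (d - k)).card := by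
        rw [Finset.card_powersetCard, card_tI]
      rw [h5]
      symm
      refine Finset.card_bij (fun T _ => (v, T)) ?_ ?_ ?_
      · intro T hT
        rw [Finset.mem_powersetCard] at hT
        simp only [hQ, Finset.mem_filter, Finset.mem_univ, true_and, and_true]
        exact hT
      · intro T _ T' _ h
        exact (Prod.mk.injEq _ _ _ _ ▸ h).2
      · rintro ⟨w, S⟩ he
        simp only [hQ, Finset.mem_filter, Finset.mem_univ, true_and] at he
        obtain ⟨h3, rfl⟩ := he
        exact ⟨S, Finset.mem_powersetCard.mpr h3, rfl⟩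
    rw [Finset.sum_congr rfl fun v _ => h4 v, Finset.sum_const, smul_eq_mul, Finset.card_univ]
  -- the sets that occur
  have hinj : Set.InjOn Prod.snd (P : Set (FewFacets.Vert L × Finset (Fin n))) := by
    rintro ⟨v, S⟩ h3 ⟨w, S'⟩ h4 h
    simp only at h
    subst h
    simp only [hP, Finset.coe_filter, Set.mem_ofPred_eq, Finset.mem_univ, true_and] at h3 h4
    have : v = w := by
      rcases le_total (L.c ⬝ᵥ v.1) (L.c ⬝ᵥ w.1) with hle | hle
      · exact FewFacets.max_face L v w (h3.2.1.trans h4.1) hle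
      · exact (FewFacets.max_face L w v (h4.2.1.trans h3.1) hle).symm
    rw [this]
  have h3 : (P.image Prod.snd).card = P.card := Finset.card_image_of_injOn hinj
  have h4 : ν * ((P.image Prod.snd).card : ℝ) ≤
      ∑ S ∈ P.image Prod.snd, ((Q.filter fun e => e.2 = S).card : ℝ) := by
    rw [mul_comm, ← nsmul_eq_mul, ← Finset.sum_const]
    refine Finset.sum_le_sum fun S hS => ?_
    rw [Finset.mem_image] at hS
    obtain ⟨⟨v, S'⟩, he, rfl⟩ := hS
    simp only [hP, Finset.mem_filter, Finset.mem_univ, true_and] at he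
    have h5 := hν v S' he.1 (by
      rw [Finset.card_sdiff_of_subset he.1, card_tI, he.2.2]
      omega)
    refine h5.trans ?_
    norm_cast
    apply Finset.card_le_card_of_injOn (fun w => (w, S'))
    · intro w hw
      simp only [Finset.coe_filter, Set.mem_ofPred_eq, Finset.mem_univ, true_and] at hw
      simp only [hQ, Finset.coe_filter, Set.mem_ofPred_eq, Finset.mem_univ, true_and,
        Finset.mem_filter, and_true]
      exact ⟨hw, he.2.2⟩
    · intro w _ w' _ h
      exact (Prod.mk.injEq _ _ _ _ ▸ h).1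
  have h5 : ∑ S ∈ P.image Prod.snd, (Q.filter fun e => e.2 = S).card ≤ Q.card := by
    have h6 : Q.card = ∑ S : Finset (Fin n), (Q.filter fun e => e.2 = S).card :=
      Finset.card_eq_sum_card_fiberwise (fun e _ => Finset.mem_univ _)
    rw [h6]
    exact Finset.sum_le_sum_of_subset (Finset.subset_univ _)
  rw [h1]
  have h6 : (∑ S ∈ P.image Prod.snd, ((Q.filter fun e => e.2 = S).card : ℝ)) ≤
      (Fintype.card (FewFacets.Vert L) : ℝ) * (d.choose k : ℝ) := by
    have h7 : ((∑ S ∈ P.image Prod.snd, (Q.filter fun e => e.2 = S).card : ℕ) : ℝ) ≤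
        ((Fintype.card (FewFacets.Vert L) * d.choose k : ℕ) : ℝ) := by
      rw [← h2]; exact_mod_cast h5
    push_cast at h7
    exact h7
  rw [h3] at h4
  exact h4.trans h6

lemma choose_ratio_real {κ k : ℕ} {r : ℝ} (hr : 0 ≤ r) (hκ : κ ≤ d)
    (h : ∀ i < k, ((d : ℝ) - i) ≤ r * ((d : ℝ) - κ - i)) (hk : κ + k ≤ d) :
    ∀ j ≤ k, (d.choose j : ℝ) ≤ r ^ j * ((d - κ).choose j : ℝ) := by
  intro j
  induction j with
  | zero => intro _; simp
  | succ j ih =>
    intro hj
    have h1 := ih (by omega)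
    have h2 : (d.choose (j + 1) : ℝ) * (j + 1) = (d.choose j : ℝ) * ((d : ℝ) - j) := by
      have h3 := Nat.choose_succ_right_eq d j
      have h4 : ((d.choose (j + 1) * (j + 1) : ℕ) : ℝ) = ((d.choose j * (d - j) : ℕ) : ℝ) := by
        rw [h3]
      push_cast [Nat.cast_sub (show j ≤ d by omega)] at h4
      exact h4
    have h3 : ((d - κ).choose (j + 1) : ℝ) * (j + 1) =
        ((d - κ).choose j : ℝ) * ((d : ℝ) - κ - j) := by
      have h3 := Nat.choose_succ_right_eq (d - κ) j
      have h4 : (((d - κ).choose (j + 1) * (j + 1) : ℕ) : ℝ) =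
          (((d - κ).choose j * (d - κ - j) : ℕ) : ℝ) := by
        rw [h3]
      push_cast [Nat.cast_sub (show j ≤ d - κ by omega), Nat.cast_sub hκ] at h4
      exact h4
    have hj1 : (0 : ℝ) < (j : ℝ) + 1 := by positivity
    have h4 : (0 : ℝ) ≤ (d : ℝ) - j := by
      have : j ≤ d := by omega
      have : (j : ℝ) ≤ d := by exact_mod_cast this
      linarith
    have h5 := h j (by omega)
    have h6 : (d.choose (j + 1) : ℝ) * (j + 1) ≤
        r ^ (j + 1) * ((d - κ).choose (j + 1) : ℝ) * (j + 1) := by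
      calc (d.choose (j + 1) : ℝ) * (j + 1) = (d.choose j : ℝ) * ((d : ℝ) - j) := h2
        _ ≤ r ^ j * ((d - κ).choose j : ℝ) * (r * ((d : ℝ) - κ - j)) := by
            apply mul_le_mul h1 h5 h4 (by positivity)
        _ = r ^ (j + 1) * (((d - κ).choose j : ℝ) * ((d : ℝ) - κ - j)) := by ring
        _ = r ^ (j + 1) * ((d - κ).choose (j + 1) : ℝ) * (j + 1) := by rw [← h3]; ring
    exact le_of_mul_le_mul_right h6 hj1

variable {L}

/-- **Vertices of low outdegree are exponentially rare.** -/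
lemma HellyLE.low_count {M : ℕ} (hM : HellyLE L M) (hM2 : 2 ≤ M) {κ : ℕ} (hκ : 4 * M * κ ≤ d) :
    ((Finset.univ.filter fun v : FewFacets.Vert L => (FewFacets.outV L v).card ≤ κ).card : ℝ) ≤
      (1 - 1 / (2 * (M : ℝ))) ^ (d / 4) * (Fintype.card (FewFacets.Vert L) : ℝ) := by
  classical
  set A := Finset.univ.filter fun v : FewFacets.Vert L => (FewFacets.outV L v).card ≤ κ with hA
  have hM2' : (2 : ℝ) ≤ M := by exact_mod_cast hM2
  have hM0 : (0 : ℝ) < M := by linarith
  set k := d / 4 with hk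
  have hκ8 : 8 * κ ≤ d := by nlinarith
  have hκd : κ ≤ d := by omega
  have hkd : κ + k ≤ d := by omega
  set γ : ℝ := (M : ℝ) / ((M : ℝ) - 1) with hγ
  have hγ0 : 0 < γ := by rw [hγ]; apply div_pos <;> linarith
  set r : ℝ := 1 + 1 / (2 * (M : ℝ)) with hr
  have hr0 : 0 ≤ r := by positivity
  have h1 := face_count_gen L k (by omega) (fun v S hS hc => hM.face_card hM2 k v S hS hc)
  have h2 : (A.card : ℝ) * ((d - κ).choose k : ℝ) ≤
      ((∑ v : FewFacets.Vert L, (tI L v \ FewFacets.outV L v).card.choose k : ℕ) : ℝ) := by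
    have h3 : A.card * (d - κ).choose k ≤
        ∑ v : FewFacets.Vert L, (tI L v \ FewFacets.outV L v).card.choose k := by
      calc A.card * (d - κ).choose k = ∑ v ∈ A, (d - κ).choose k := by
            rw [Finset.sum_const, smul_eq_mul]
        _ ≤ ∑ v ∈ A, (tI L v \ FewFacets.outV L v).card.choose k := by
            refine Finset.sum_le_sum fun v hv => ?_
            rw [hA, Finset.mem_filter] at hv
            apply Nat.choose_le_choose
            rw [Finset.card_sdiff_of_subset (outV_sub L v), card_tI]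
            omega
        _ ≤ _ := Finset.sum_le_sum_of_subset (Finset.subset_univ _)
    exact_mod_cast h3
  have h3 : (d.choose k : ℝ) ≤ r ^ k * ((d - κ).choose k : ℝ) := by
    apply choose_ratio_real hr0 hκd _ hkd k (le_refl _)
    intro i hi
    -- `κ ≤ (d - κ - i) / (2 M)`
    have h4 : 4 * (M : ℝ) * κ ≤ d := by exact_mod_cast hκ
    have h5 : (d : ℝ) ≤ 2 * ((d : ℝ) - κ - i) := by
      have h6 : 2 * (κ + i) ≤ d := by omega
      have h7 : 2 * ((κ : ℝ) + i) ≤ d := by exact_mod_cast h6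
      linarith
    have h6 : (κ : ℝ) ≤ ((d : ℝ) - κ - i) / (2 * (M : ℝ)) := by
      rw [le_div_iff₀ (by positivity)]
      linarith
    rw [hr]
    have h7 : (1 + 1 / (2 * (M : ℝ))) * ((d : ℝ) - κ - i) =
        ((d : ℝ) - κ - i) + ((d : ℝ) - κ - i) / (2 * (M : ℝ)) := by ring
    rw [h7]
    linarith
  have hC : (0 : ℝ) < ((d - κ).choose k : ℝ) := by
    have : 0 < (d - κ).choose k := Nat.choose_pos (by omega)
    exact_mod_cast this
  set N : ℝ := (Fintype.card (FewFacets.Vert L) : ℝ) with hN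
  have hN0 : 0 ≤ N := Nat.cast_nonneg _
  have h4 : γ ^ k * (A.card : ℝ) ≤ N * r ^ k := by
    have h5 : γ ^ k * (A.card : ℝ) * ((d - κ).choose k : ℝ) ≤
        N * r ^ k * ((d - κ).choose k : ℝ) := by
      calc γ ^ k * (A.card : ℝ) * ((d - κ).choose k : ℝ)
          = γ ^ k * ((A.card : ℝ) * ((d - κ).choose k : ℝ)) := by ring
        _ ≤ γ ^ k * ((∑ v : FewFacets.Vert L,
              (tI L v \ FewFacets.outV L v).card.choose k : ℕ) : ℝ) :=
            mul_le_mul_of_nonneg_left h2 (by positivity)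
        _ ≤ N * (d.choose k : ℝ) := h1
        _ ≤ N * (r ^ k * ((d - κ).choose k : ℝ)) := mul_le_mul_of_nonneg_left h3 hN0
        _ = _ := by ring
    exact le_of_mul_le_mul_right h5 hC
  have h5 : r / γ ≤ 1 - 1 / (2 * (M : ℝ)) := by
    rw [div_le_iff₀ hγ0, hr, hγ]
    have hM1 : (0 : ℝ) < (M : ℝ) - 1 := by linarith
    rw [mul_div_assoc', le_div_iff₀ hM1]
    have e1 : (1 + 1 / (2 * (M : ℝ))) * ((M : ℝ) - 1) = (M : ℝ) - 1 / 2 - 1 / (2 * (M : ℝ)) := by
      field_simp
      ring
    have e2 : (1 - 1 / (2 * (M : ℝ))) * (M : ℝ) = (M : ℝ) - 1 / 2 := by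
      field_simp
    rw [e1, e2]
    have : 0 ≤ 1 / (2 * (M : ℝ)) := by positivity
    linarith
  clear_value γ r
  calc (A.card : ℝ) = γ ^ k * (A.card : ℝ) / γ ^ k := by field_simp
    _ ≤ N * r ^ k / γ ^ k := by gcongr
    _ = (r / γ) ^ k * N := by rw [div_pow]; ring
    _ ≤ (1 - 1 / (2 * (M : ℝ))) ^ k * N := by gcongr

/-- **Exponential savings.** -/
theorem HellyLE.expectedSteps_le {M : ℕ} (hM : HellyLE L M) (hM2 : 2 ≤ M) :
    L.expectedSteps ≤ ENNReal.ofReal
      (68 * ((1 : ℝ) / 4) ^ (d / (128 * M ^ 2)) * (numVert L : ℝ)) := by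
  classical
  refine (expectedSteps_le_green L).trans (ENNReal.ofReal_le_ofReal ?_)
  rw [numVert_eq]
  set N : ℝ := (Fintype.card (FewFacets.Vert L) : ℝ) with hN
  have hN0 : 0 ≤ N := Nat.cast_nonneg _
  set s := d / (128 * M ^ 2) with hs
  have hM2' : (2 : ℝ) ≤ M := by exact_mod_cast hM2
  have hM0 : (0 : ℝ) < M := by linarith
  by_cases hs2 : 2 ≤ s
  · have hsd : 128 * M ^ 2 * s ≤ d := by
      rw [hs]; exact Nat.mul_div_le _ _
    have hsd' : 128 * (M : ℝ) ^ 2 * s ≤ d := by exact_mod_cast hsd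
    have hd0 : (0 : ℝ) < d := by
      have : 0 < 128 * M ^ 2 * s := by positivity
      exact_mod_cast lt_of_lt_of_le this hsd
    have hK : 32 * (((M - 1 : ℕ) : ℝ)) * s ≤ (d : ℝ) / (4 * M) := by
      rw [le_div_iff₀ (by positivity)]
      have h1 : (((M - 1 : ℕ) : ℝ)) ≤ M := by
        have : M - 1 ≤ M := Nat.sub_le _ _
        exact_mod_cast this
      calc 32 * (((M - 1 : ℕ) : ℝ)) * s * (4 * M) ≤ 32 * (M : ℝ) * s * (4 * M) := by gcongr
        _ = 128 * (M : ℝ) ^ 2 * s := by ring
        _ ≤ d := hsd'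
    have h1 := (psys L).green_le_exp (m := M - 1) (s := s) (K := (d : ℝ) / (4 * M))
      (by omega) (by positivity) (fun v x => hM.bad_le hM2 v x) hK hs2 ⟨L.v₀, L.start⟩
    -- low vertices
    have h2 : (((psys L).low ((d : ℝ) / (4 * M))).card : ℝ) ≤ ((1 : ℝ) / 8) ^ s * N := by
      have h3 : (psys L).low ((d : ℝ) / (4 * M)) ⊆
          Finset.univ.filter fun v : FewFacets.Vert L =>
            (FewFacets.outV L v).card ≤ d / (4 * M) := by
        intro v hv
        rw [PSys.mem_low, lt_div_iff₀ (by positivity)] at hv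
        rw [Finset.mem_filter]
        refine ⟨Finset.mem_univ _, ?_⟩
        rw [Nat.le_div_iff_mul_le (by positivity)]
        have h4 : ((FewFacets.outV L v).card * (4 * M) : ℝ) < d := hv
        have h5 : (FewFacets.outV L v).card * (4 * M) < d := by exact_mod_cast h4
        omega
      have h4 := hM.low_count hM2 (κ := d / (4 * M)) (Nat.mul_div_le _ _)
      have h5 : (((psys L).low ((d : ℝ) / (4 * M))).card : ℝ) ≤
          (1 - 1 / (2 * (M : ℝ))) ^ (d / 4) * N :=
        le_trans (by exact_mod_cast Finset.card_le_card h3) h4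
      refine h5.trans (mul_le_mul_of_nonneg_right ?_ hN0)
      have h6 : (0 : ℝ) ≤ 1 - 1 / (2 * (M : ℝ)) := by
        rw [sub_nonneg, div_le_one (by positivity)]
        linarith
      have h7 : 1 - 1 / (2 * (M : ℝ)) ≤ 1 := by
        have : 0 ≤ 1 / (2 * (M : ℝ)) := by positivity
        linarith
      have h8 : (1 - 1 / (2 * (M : ℝ))) ^ (2 * M) ≤ 1 / 2 := by
        have h9 : 1 - 1 / (2 * (M : ℝ)) ≤ Real.exp (-(1 / (2 * (M : ℝ)))) := by
          have := Real.add_one_le_exp (-(1 / (2 * (M : ℝ))))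
          linarith
        calc (1 - 1 / (2 * (M : ℝ))) ^ (2 * M) ≤ Real.exp (-(1 / (2 * (M : ℝ)))) ^ (2 * M) :=
              pow_le_pow_left₀ h6 h9 _
          _ = Real.exp (-1) := by
              rw [← Real.exp_nat_mul]
              congr 1
              push_cast
              field_simp
          _ ≤ 1 / 2 := by
              rw [Real.exp_neg, inv_eq_one_div]
              apply one_div_le_one_div_of_le (by norm_num)
              have := Real.add_one_le_exp (1 : ℝ)
              linarith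
      have h9 : 2 * M * (3 * s) ≤ d / 4 := by
        rw [Nat.le_div_iff_mul_le (by norm_num)]
        have : 2 * M * (3 * s) * 4 ≤ 128 * M ^ 2 * s := by
          nlinarith [Nat.zero_le (M * s), Nat.mul_le_mul_right (M * s) hM2]
        omega
      calc (1 - 1 / (2 * (M : ℝ))) ^ (d / 4) ≤ (1 - 1 / (2 * (M : ℝ))) ^ (2 * M * (3 * s)) :=
            pow_le_pow_of_le_one h6 h7 h9
        _ = ((1 - 1 / (2 * (M : ℝ))) ^ (2 * M)) ^ (3 * s) := by rw [pow_mul]
        _ ≤ ((1 : ℝ) / 2) ^ (3 * s) := pow_le_pow_left₀ (by positivity) h8 _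
        _ = ((1 : ℝ) / 8) ^ s := by rw [pow_mul]; norm_num
    have hs0 : (0 : ℝ) < s := by exact_mod_cast (show 0 < s by omega)
    have h3 : (s : ℝ) * ((1 : ℝ) / 8) ^ s ≤ 1 / 2 * ((1 : ℝ) / 4) ^ s := by
      have h4 : (s : ℝ) ≤ 2 ^ (s - 1) := by
        have h5 : s ≤ 2 ^ (s - 1) := by
          have : s - 1 < 2 ^ (s - 1) := Nat.lt_two_pow_self
          omega
        exact_mod_cast h5
      have h5 : (2 : ℝ) ^ s = 2 * 2 ^ (s - 1) := by
        rw [← pow_succ']
        congr 1
        omega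
      have h6 : ((1 : ℝ) / 8) ^ s = ((1 : ℝ) / 4) ^ s * (1 / 2 ^ s) := by
        rw [← _root_.one_div_pow, ← mul_pow]
        norm_num
      rw [h6]
      have h7 : (s : ℝ) * (1 / 2 ^ s) ≤ 1 / 2 := by
        rw [mul_one_div, div_le_iff₀ (by positivity), h5]
        linarith
      calc (s : ℝ) * (((1 : ℝ) / 4) ^ s * (1 / 2 ^ s)) =
            (s : ℝ) * (1 / 2 ^ s) * ((1 : ℝ) / 4) ^ s := by ring
        _ ≤ 1 / 2 * ((1 : ℝ) / 4) ^ s := mul_le_mul_of_nonneg_right h7 (by positivity)
    calc (psys L).green Finset.univ Finset.univ 1 ⟨L.v₀, L.start⟩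
        ≤ 8 * s * ((psys L).low ((d : ℝ) / (4 * M))).card +
          128 * s * ((1 : ℝ) / 8) ^ s * N := h1
      _ ≤ 8 * s * (((1 : ℝ) / 8) ^ s * N) + 128 * s * ((1 : ℝ) / 8) ^ s * N := by gcongr
      _ = 136 * (s * ((1 : ℝ) / 8) ^ s) * N := by ring
      _ ≤ 136 * (1 / 2 * ((1 : ℝ) / 4) ^ s) * N := by gcongr
      _ = 68 * ((1 : ℝ) / 4) ^ s * N := by ring
  · have h1 := (psys L).green_ind_le (H := Finset.univ) (R := Finset.univ) Finset.univ
      ⟨L.v₀, L.start⟩
    have h2 : (PSys.ind fun y => y ∈ (Finset.univ : Finset (FewFacets.Vert L)) :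
        FewFacets.Vert L → ℝ) = 1 := by
      ext y
      unfold PSys.ind
      rw [if_pos (Finset.mem_univ _), Pi.one_apply]
    rw [h2, Finset.card_univ] at h1
    refine h1.trans ?_
    have h3 : (1 : ℝ) ≤ 68 * ((1 : ℝ) / 4) ^ s := by
      have h4 : s ≤ 1 := by omega
      have h5 : ((1 : ℝ) / 4) ^ 1 ≤ ((1 : ℝ) / 4) ^ s :=
        pow_le_pow_of_le_one (by norm_num) (by norm_num) h4
      linarith
    calc N = 1 * N := by ring
      _ ≤ _ := mul_le_mul_of_nonneg_right h3 hN0

end Pool.Agent.Hhelper78.RandomEdgePoly
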