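import Mathlib

/-!
# Combinatorial simple polytopes with an acyclic orientation: the step operators

The operator of one random-edge step, its powers and Green function, and the passing inequality for
several steps.
-/

namespace Pool.Agent.Hhelper78.RandomEdgePoly

/-- Combinatorial data of a simple polytope with a generic objective: vertices are sets of `d`
facets, `out v` are the facets left along improving edges. -/
structure PSys (V : Type) [Fintype V] [DecidableEq V] (n d : ℕ) where
  rank : V → ℕ
  rank_inj : Function.Injective rank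
  I : V → Finset (Fin n)
  card_I : ∀ v, (I v).card = d
  I_inj : Function.Injective I
  out : V → Finset (Fin n)
  out_sub : ∀ v, out v ⊆ I v
  nb : V → Fin n → V
  erase_sub : ∀ v, ∀ i ∈ out v, (I v).erase i ⊆ I (nb v i)
  not_mem : ∀ v, ∀ i ∈ out v, i ∉ I (nb v i)
  rank_lt : ∀ v, ∀ i ∈ out v, rank v < rank (nb v i)

namespace PSys

variable {V : Type} [Fintype V] [DecidableEq V] {n d : ℕ} (S : PSys V n d)

/-- One random step from a vertex of `H` to a vertex of `R`. -/
noncomputable def op (H R : Finset V) : Module.End ℝ (V → ℝ) where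
  toFun f x := if x ∈ H then
    (∑ i ∈ (S.out x).filter (fun i => S.nb x i ∈ R), f (S.nb x i)) / (S.out x).card else 0
  map_add' f g := by
    ext x
    simp only [Pi.add_apply]
    split_ifs
    · rw [Finset.sum_add_distrib, add_div]
    · simp
  map_smul' c f := by
    ext x
    simp only [Pi.smul_apply, smul_eq_mul, RingHom.id_apply]
    split_ifs
    · rw [← Finset.mul_sum, mul_div_assoc]
    · simp

variable {H R : Finset V}

lemma op_mem (f : V → ℝ) {x : V} (hx : x ∈ H) : S.op H R f x =
    (∑ i ∈ (S.out x).filter (fun i => S.nb x i ∈ R), f (S.nb x i)) / (S.out x).card := by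
  show (if x ∈ H then _ else _) = _
  rw [if_pos hx]

lemma op_notMem (f : V → ℝ) {x : V} (hx : x ∉ H) : S.op H R f x = 0 := by
  show (if x ∈ H then _ else _) = _
  rw [if_neg hx]

lemma op_mono {f g : V → ℝ} (h : ∀ x, f x ≤ g x) (x : V) : S.op H R f x ≤ S.op H R g x := by
  by_cases hx : x ∈ H
  · rw [op_mem _ _ hx, op_mem _ _ hx]
    apply div_le_div_of_nonneg_right _ (Nat.cast_nonneg _)
    exact Finset.sum_le_sum fun i _ => h _
  · rw [op_notMem _ _ hx, op_notMem _ _ hx]

lemma op_nonneg {f : V → ℝ} (h : ∀ x, 0 ≤ f x) (x : V) : 0 ≤ S.op H R f x := by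
  have := S.op_mono (H := H) (R := R) (f := 0) (g := f) h x
  rwa [map_zero] at this

lemma op_mono_set {H' R' : Finset V} (hH : H ⊆ H') (hR : R ⊆ R') {f : V → ℝ}
    (h : ∀ x, 0 ≤ f x) (x : V) : S.op H R f x ≤ S.op H' R' f x := by
  by_cases hx : x ∈ H
  · rw [op_mem _ _ hx, op_mem _ _ (hH hx)]
    apply div_le_div_of_nonneg_right _ (Nat.cast_nonneg _)
    apply Finset.sum_le_sum_of_subset_of_nonneg
    · intro i hi
      rw [Finset.mem_filter] at hi ⊢
      exact ⟨hi.1, hR hi.2⟩
    · intro i _ _
      exact h _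
  · rw [op_notMem _ _ hx]
    exact S.op_nonneg h x

/-- Upper bound of a step by a constant. -/
lemma op_le_const {f : V → ℝ} {c : ℝ} (hc : 0 ≤ c) (h : ∀ x, f x ≤ c) (x : V) :
    S.op H R f x ≤ c := by
  by_cases hx : x ∈ H
  · rw [op_mem _ _ hx]
    rcases Nat.eq_zero_or_pos (S.out x).card with h0 | h0
    · rw [h0]; simpa using hc
    · rw [div_le_iff₀ (by exact_mod_cast h0)]
      calc ∑ i ∈ (S.out x).filter (fun i => S.nb x i ∈ R), f (S.nb x i)
          ≤ ∑ i ∈ (S.out x).filter (fun i => S.nb x i ∈ R), c :=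
            Finset.sum_le_sum fun i _ => h _
        _ ≤ ∑ i ∈ S.out x, c :=
            Finset.sum_le_sum_of_subset_of_nonneg (Finset.filter_subset _ _) fun _ _ _ => hc
        _ = c * (S.out x).card := by rw [Finset.sum_const, nsmul_eq_mul]; ring
  · rw [op_notMem _ _ hx]
    exact hc

lemma pow_succ_apply (t : ℕ) (f : V → ℝ) :
    ((S.op H R) ^ (t + 1)) f = S.op H R (((S.op H R) ^ t) f) := by
  rw [pow_succ', Module.End.mul_apply]

lemma pow_succ_apply' (t : ℕ) (f : V → ℝ) :
    ((S.op H R) ^ (t + 1)) f = ((S.op H R) ^ t) (S.op H R f) := by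
  rw [pow_succ, Module.End.mul_apply]

lemma pow_zero_apply (f : V → ℝ) : ((S.op H R) ^ 0) f = f := by
  rw [pow_zero, Module.End.one_apply]

lemma pow_mono (t : ℕ) {f g : V → ℝ} (h : ∀ x, f x ≤ g x) :
    ∀ x, ((S.op H R) ^ t) f x ≤ ((S.op H R) ^ t) g x := by
  induction t with
  | zero => intro x; rw [pow_zero_apply, pow_zero_apply]; exact h x
  | succ t ih => intro x; rw [pow_succ_apply, pow_succ_apply]; exact S.op_mono ih x

lemma pow_nonneg (t : ℕ) {f : V → ℝ} (h : ∀ x, 0 ≤ f x) : ∀ x, 0 ≤ ((S.op H R) ^ t) f x := by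
  intro x
  have := S.pow_mono (H := H) (R := R) t (f := 0) (g := f) h x
  rwa [map_zero] at this

lemma pow_mono_set {H' R' : Finset V} (hH : H ⊆ H') (hR : R ⊆ R') (t : ℕ) {f : V → ℝ}
    (h : ∀ x, 0 ≤ f x) : ∀ x, ((S.op H R) ^ t) f x ≤ ((S.op H' R') ^ t) f x := by
  induction t with
  | zero => intro x; rw [pow_zero_apply, pow_zero_apply]
  | succ t ih =>
    intro x
    rw [pow_succ_apply, pow_succ_apply]
    exact (S.op_mono_set hH hR (S.pow_nonneg t h) x).trans (S.op_mono ih x)

lemma pow_le_one (t : ℕ) {f : V → ℝ} (h : ∀ x, f x ≤ 1) :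
    ∀ x, ((S.op H R) ^ t) f x ≤ 1 := by
  induction t with
  | zero => intro x; rw [pow_zero_apply]; exact h x
  | succ t ih => intro x; rw [pow_succ_apply]; exact S.op_le_const zero_le_one ih x

/-- an upper bound for the ranks -/
def top : ℕ := (Finset.univ.sup S.rank) + 1

lemma rank_lt_top (x : V) : S.rank x < S.top := by
  unfold top
  have : S.rank x ≤ Finset.univ.sup S.rank := Finset.le_sup (Finset.mem_univ x)
  omega

lemma pow_eq_zero (t : ℕ) (f : V → ℝ) : ∀ x, S.top ≤ S.rank x + t →
    ((S.op H R) ^ t) f x = 0 := by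
  induction t with
  | zero =>
    intro x hx
    have := S.rank_lt_top x
    omega
  | succ t ih =>
    intro x hx
    rw [pow_succ_apply]
    by_cases hxH : x ∈ H
    · rw [op_mem _ _ hxH, Finset.sum_eq_zero, zero_div]
      intro i hi
      rw [Finset.mem_filter] at hi
      have := S.rank_lt x i hi.1
      exact ih _ (by omega)
    · exact op_notMem _ _ hxH

/-- The Green operator. -/
noncomputable def green (H R : Finset V) : Module.End ℝ (V → ℝ) :=
  ∑ t ∈ Finset.range S.top, (S.op H R) ^ t

lemma green_apply (f : V → ℝ) (x : V) :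
    S.green H R f x = ∑ t ∈ Finset.range S.top, ((S.op H R) ^ t) f x := by
  unfold green
  rw [LinearMap.sum_apply, Finset.sum_apply]

lemma green_mono {f g : V → ℝ} (h : ∀ x, f x ≤ g x) (x : V) :
    S.green H R f x ≤ S.green H R g x := by
  rw [green_apply, green_apply]
  exact Finset.sum_le_sum fun t _ => S.pow_mono t h x

lemma green_nonneg {f : V → ℝ} (h : ∀ x, 0 ≤ f x) (x : V) : 0 ≤ S.green H R f x := by
  rw [green_apply]
  exact Finset.sum_nonneg fun t _ => S.pow_nonneg t h x

/-- `G (op f) = G f - f`. -/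
lemma green_op (f : V → ℝ) (x : V) :
    S.green H R (S.op H R f) x = S.green H R f x - f x := by
  rw [green_apply, green_apply]
  have h1 : ∑ t ∈ Finset.range S.top, ((S.op H R) ^ t) (S.op H R f) x =
      ∑ t ∈ Finset.range S.top, ((S.op H R) ^ (t + 1)) f x :=
    Finset.sum_congr rfl fun t _ => by rw [pow_succ_apply']
  have h2 := Finset.sum_range_succ (fun t => ((S.op H R) ^ t) f x) S.top
  have h3 := Finset.sum_range_succ' (fun t => ((S.op H R) ^ t) f x) S.top
  have h4 : ((S.op H R) ^ S.top) f x = 0 := S.pow_eq_zero _ _ _ (by omega)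
  rw [pow_zero_apply] at h3
  rw [h4] at h2
  rw [h1]
  linarith

/-- `op (G f) = G f - f`. -/
lemma op_green (f : V → ℝ) (x : V) :
    S.op H R (S.green H R f) x = S.green H R f x - f x := by
  have h0 : S.op H R (S.green H R f) = S.green H R (S.op H R f) := by
    unfold green
    rw [LinearMap.sum_apply, LinearMap.sum_apply, map_sum]
    refine Finset.sum_congr rfl fun t _ => ?_
    rw [← pow_succ_apply, ← pow_succ_apply']
  rw [h0, green_op]

lemma green_op_le {f : V → ℝ} (h : ∀ x, 0 ≤ f x) (x : V) :
    S.green H R (S.op H R f) x ≤ S.green H R f x := by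
  rw [green_op]
  linarith [h x]

lemma green_pow_le {f : V → ℝ} (h : ∀ x, 0 ≤ f x) (t : ℕ) (x : V) :
    S.green H R (((S.op H R) ^ t) f) x ≤ S.green H R f x := by
  induction t with
  | zero => rw [pow_zero_apply]
  | succ t ih =>
    rw [pow_succ_apply]
    exact (S.green_op_le (S.pow_nonneg t h) x).trans ih

/-- indicator of a set of vertices -/
noncomputable def ind (P : V → Prop) [DecidablePred P] : V → ℝ := fun x => if P x then 1 else 0

lemma ind_nonneg (P : V → Prop) [DecidablePred P] (x : V) : 0 ≤ ind P x := by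
  unfold ind; split_ifs <;> norm_num

lemma ind_le_one (P : V → Prop) [DecidablePred P] (x : V) : ind P x ≤ 1 := by
  unfold ind; split_ifs <;> norm_num

/-- the crossing function -/
noncomputable def F (H R : Finset V) (a t : ℕ) : V → ℝ := fun x =>
  if S.rank x < a then ((S.op H R) ^ t) (ind fun y => a ≤ S.rank y) x else 0

lemma F_nonneg (a t : ℕ) (x : V) : 0 ≤ S.F H R a t x := by
  unfold F
  split_ifs
  · exact S.pow_nonneg t (ind_nonneg _) x
  · exact le_refl _

lemma green_F_one (a : ℕ) (x : V) : S.green H R (S.F H R a 1) x ≤ 1 := by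
  set ψ : V → ℝ := ind fun y => S.rank y < a with hψ
  have h1 : ∀ y, S.F H R a 1 y ≤ (ψ - S.op H R ψ) y := by
    intro y
    rw [Pi.sub_apply]
    by_cases hy : S.rank y < a
    · have h2 : S.F H R a 1 y = S.op H R (ind fun y => a ≤ S.rank y) y := by
        unfold F
        rw [if_pos hy, show (1 : ℕ) = 0 + 1 from rfl, pow_succ_apply, pow_zero_apply]
      have h3 : S.op H R (ind fun y => a ≤ S.rank y) y + S.op H R ψ y ≤ 1 := by
        rw [← Pi.add_apply, ← map_add]
        apply S.op_le_const zero_le_one
        intro z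
        rw [Pi.add_apply, hψ]
        unfold ind
        by_cases hz : S.rank z < a
        · rw [if_neg (by omega), if_pos hz]; norm_num
        · rw [if_pos (by omega), if_neg hz]; norm_num
      have h4 : ψ y = 1 := by
        rw [hψ]; unfold ind; rw [if_pos hy]
      rw [h2, h4]
      linarith
    · have h2 : S.F H R a 1 y = 0 := by
        unfold F
        rw [if_neg hy]
      have h3 : S.op H R ψ y = 0 := by
        by_cases hyH : y ∈ H
        · rw [op_mem _ _ hyH, Finset.sum_eq_zero, zero_div]
          intro i hi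
          rw [Finset.mem_filter] at hi
          have := S.rank_lt y i hi.1
          rw [hψ]
          unfold ind
          rw [if_neg (by omega)]
        · exact op_notMem _ _ hyH
      have h4 : ψ y = 0 := by
        rw [hψ]; unfold ind; rw [if_neg hy]
      rw [h2, h3, h4]
      norm_num
  refine (S.green_mono h1 x).trans ?_
  rw [map_sub, Pi.sub_apply, green_op]
  have := ind_le_one (fun y => S.rank y < a) x
  rw [← hψ] at this
  linarith

/-- Every level is crossed at most `t` times within blocks of `t` steps. -/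
lemma green_F (a t : ℕ) (x : V) : S.green H R (S.F H R a t) x ≤ t := by
  induction t with
  | zero =>
    have h1 : ∀ y, S.F H R a 0 y ≤ 0 := by
      intro y
      unfold F
      split_ifs with hy
      · rw [pow_zero_apply]
        unfold ind
        rw [if_neg (by omega)]
      · exact le_refl _
    have h2 := S.green_mono (H := H) (R := R) (g := 0) h1 x
    rw [map_zero] at h2
    simpa using h2
  | succ t ih =>
    have h1 : ∀ y, S.F H R a (t + 1) y ≤ (S.op H R (S.F H R a t) + S.F H R a 1) y := by
      intro y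
      rw [Pi.add_apply]
      by_cases hy : S.rank y < a
      · have h2 : S.F H R a (t + 1) y =
            S.op H R (((S.op H R) ^ t) (ind fun y => a ≤ S.rank y)) y := by
          unfold F
          rw [if_pos hy, pow_succ_apply]
        have h3 : S.F H R a 1 y = S.op H R (ind fun y => a ≤ S.rank y) y := by
          unfold F
          rw [if_pos hy, show (1 : ℕ) = 0 + 1 from rfl, pow_succ_apply, pow_zero_apply]
        rw [h2, h3, ← Pi.add_apply, ← map_add]
        apply S.op_mono
        intro z
        rw [Pi.add_apply]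
        unfold F
        by_cases hz : S.rank z < a
        · rw [if_pos hz]
          linarith [ind_nonneg (fun y => a ≤ S.rank y) z]
        · rw [if_neg hz]
          have h5 : ind (fun y => a ≤ S.rank y) z = 1 := by
            unfold ind; rw [if_pos (by omega)]
          rw [h5, zero_add]
          exact S.pow_le_one t (ind_le_one _) z
      · have h2 : S.F H R a (t + 1) y = 0 := by
          unfold F; rw [if_neg hy]
        have h3 := S.op_nonneg (H := H) (R := R) (S.F_nonneg (H := H) (R := R) a t) y
        have h4 := S.F_nonneg (H := H) (R := R) a 1 y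
        rw [h2]
        linarith
    have h2 := S.green_mono (H := H) (R := R) h1 x
    rw [map_add, Pi.add_apply] at h2
    have h3 := S.green_op_le (H := H) (R := R) (S.F_nonneg (H := H) (R := R) a t) x
    have h4 := S.green_F_one (H := H) (R := R) a x
    push_cast
    linarith

/-- point masses -/
noncomputable def pt (z : V) : V → ℝ := ind fun y => y = z

lemma pow_eq_sum (t : ℕ) (f : V → ℝ) (x : V) :
    ((S.op H R) ^ t) f x = ∑ z, f z * ((S.op H R) ^ t) (pt z) x := by
  have h1 : f = ∑ z, f z • pt z := by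
    ext y
    rw [Finset.sum_apply]
    simp only [Pi.smul_apply, smul_eq_mul, pt, ind]
    simp
  conv_lhs => rw [h1, map_sum]
  rw [Finset.sum_apply]
  refine Finset.sum_congr rfl fun z _ => ?_
  rw [map_smul, Pi.smul_apply, smul_eq_mul]

/-- **The passing inequality for `t` steps.** -/
lemma passing (A : Finset V) (t : ℕ) {q : ℝ} (hq : 0 < q) (μ : V → V → ℝ)
    (h0 : ∀ x z, 0 ≤ μ x z) (h1 : ∀ x z, μ x z ≤ ((S.op H R) ^ t) (pt z) x)
    (h2 : ∀ x z, μ x z ≤ q) (hA : ∀ x z, z ∉ A → μ x z = 0)
    (hr : ∀ x z, S.rank z ≤ S.rank x → μ x z = 0) (x₀ : V) :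
    S.green H R (fun x => (∑ z, μ x z) ^ 2) x₀ ≤ 2 * q * t * A.card := by
  classical
  have key : ∀ x, (∑ z, μ x z) ^ 2 ≤
      ((2 * q) • ∑ a ∈ A, S.F H R (S.rank a) t) x := by
    intro x
    rw [Pi.smul_apply, Finset.sum_apply, smul_eq_mul]
    -- the double sum
    set D := ∑ a, ∑ z ∈ Finset.univ.filter (fun z => S.rank a ≤ S.rank z), μ x a * μ x z with hD
    have e1 : (∑ z, μ x z) ^ 2 ≤ 2 * D := by
      have e2 : (∑ z, μ x z) ^ 2 = ∑ a, ∑ z, μ x a * μ x z := by
        rw [sq, Finset.sum_mul_sum]
      have e3 : D = ∑ a, ∑ z, if S.rank a ≤ S.rank z then μ x a * μ x z else 0 := by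
        rw [hD]
        refine Finset.sum_congr rfl fun a _ => ?_
        rw [Finset.sum_filter]
      have e4 : D = ∑ a, ∑ z, if S.rank z ≤ S.rank a then μ x a * μ x z else 0 := by
        rw [e3, Finset.sum_comm]
        refine Finset.sum_congr rfl fun a _ => Finset.sum_congr rfl fun z _ => ?_
        rw [mul_comm]
      have e5 : 2 * D = ∑ a, ∑ z, ((if S.rank a ≤ S.rank z then μ x a * μ x z else 0) +
          (if S.rank z ≤ S.rank a then μ x a * μ x z else 0)) := by
        simp only [Finset.sum_add_distrib]
        rw [← e3, ← e4]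
        ring
      rw [e2, e5]
      refine Finset.sum_le_sum fun a _ => Finset.sum_le_sum fun z _ => ?_
      have e6 : 0 ≤ μ x a * μ x z := mul_nonneg (h0 _ _) (h0 _ _)
      rcases le_total (S.rank a) (S.rank z) with h | h
      · rw [if_pos h]
        split_ifs <;> linarith
      · rw [if_pos h]
        split_ifs <;> linarith
    have e2 : D ≤ q * ∑ a ∈ A, S.F H R (S.rank a) t x := by
      have e3 : D = ∑ a ∈ A, ∑ z ∈ Finset.univ.filter (fun z => S.rank a ≤ S.rank z),
          μ x a * μ x z := by
        rw [hD]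
        symm
        apply Finset.sum_subset (Finset.subset_univ _)
        intro a _ ha
        apply Finset.sum_eq_zero
        intro z _
        rw [hA x a ha, zero_mul]
      rw [e3, Finset.mul_sum]
      refine Finset.sum_le_sum fun a _ => ?_
      rw [← Finset.mul_sum]
      by_cases hxa : S.rank x < S.rank a
      · have e4 : ∑ z ∈ Finset.univ.filter (fun z => S.rank a ≤ S.rank z), μ x z ≤
            S.F H R (S.rank a) t x := by
          unfold F
          rw [if_pos hxa, pow_eq_sum, Finset.sum_filter]
          refine Finset.sum_le_sum fun z _ => ?_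
          unfold ind
          split_ifs
          · rw [one_mul]
            exact h1 x z
          · rw [zero_mul]
        have e5 : 0 ≤ ∑ z ∈ Finset.univ.filter (fun z => S.rank a ≤ S.rank z), μ x z :=
          Finset.sum_nonneg fun z _ => h0 x z
        calc μ x a * ∑ z ∈ Finset.univ.filter (fun z => S.rank a ≤ S.rank z), μ x z
            ≤ q * ∑ z ∈ Finset.univ.filter (fun z => S.rank a ≤ S.rank z), μ x z :=
              mul_le_mul_of_nonneg_right (h2 x a) e5
          _ ≤ _ := mul_le_mul_of_nonneg_left e4 hq.le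
      · rw [hr x a (by omega), zero_mul]
        exact mul_nonneg hq.le (S.F_nonneg _ _ _)
    calc (∑ z, μ x z) ^ 2 ≤ 2 * D := e1
      _ ≤ 2 * (q * ∑ a ∈ A, S.F H R (S.rank a) t x) := by linarith
      _ = _ := by ring
  refine (S.green_mono key x₀).trans ?_
  rw [map_smul, Pi.smul_apply, map_sum, Finset.sum_apply, smul_eq_mul]
  have h3 : ∑ a ∈ A, S.green H R (S.F H R (S.rank a) t) x₀ ≤ t * A.card := by
    calc ∑ a ∈ A, S.green H R (S.F H R (S.rank a) t) x₀ ≤ ∑ a ∈ A, (t : ℝ) :=
          Finset.sum_le_sum fun a _ => S.green_F _ _ _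
      _ = t * A.card := by rw [Finset.sum_const, nsmul_eq_mul]; ring
  calc 2 * q * ∑ a ∈ A, S.green H R (S.F H R (S.rank a) t) x₀ ≤ 2 * q * (t * A.card) :=
        mul_le_mul_of_nonneg_left h3 (by positivity)
    _ = _ := by ring

lemma pt_nonneg (z x : V) : 0 ≤ pt z x := ind_nonneg _ _

/-- every vertex is visited at most once -/
lemma green_pt (z x : V) : S.green H R (pt z) x ≤ 1 := by
  set ψ : V → ℝ := ind fun y => S.rank y ≤ S.rank z with hψ
  have h1 : ∀ y, pt z y ≤ (ψ - S.op H R ψ) y := by
    intro y
    rw [Pi.sub_apply]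
    by_cases hy : S.rank y < S.rank z
    · have h2 : pt z y = 0 := by
        unfold pt ind
        rw [if_neg]
        rintro rfl
        exact lt_irrefl _ hy
      have h3 : ψ y = 1 := by rw [hψ]; unfold ind; rw [if_pos hy.le]
      have h4 : S.op H R ψ y ≤ 1 := S.op_le_const zero_le_one (ind_le_one _) y
      rw [h2, h3]
      linarith
    · have h3 : S.op H R ψ y = 0 := by
        by_cases hyH : y ∈ H
        · rw [op_mem _ _ hyH, Finset.sum_eq_zero, zero_div]
          intro i hi
          rw [Finset.mem_filter] at hi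
          have := S.rank_lt y i hi.1
          rw [hψ]
          unfold ind
          rw [if_neg (by omega)]
        · exact op_notMem _ _ hyH
      rw [h3, sub_zero]
      by_cases hyz : y = z
      · subst hyz
        have h5 : ψ y = 1 := by rw [hψ]; unfold ind; rw [if_pos le_rfl]
        rw [h5]
        exact ind_le_one _ _
      · have h2 : pt z y = 0 := by unfold pt ind; rw [if_neg hyz]
        rw [h2]
        exact ind_nonneg _ _
  refine (S.green_mono h1 x).trans ?_
  rw [map_sub, Pi.sub_apply, green_op]
  have := ind_le_one (fun y => S.rank y ≤ S.rank z) x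
  rw [← hψ] at this
  linarith

lemma green_ind_le (A : Finset V) (x : V) : S.green H R (ind fun y => y ∈ A) x ≤ A.card := by
  have h1 : (ind fun y => y ∈ A : V → ℝ) = ∑ z ∈ A, pt z := by
    ext y
    rw [Finset.sum_apply]
    unfold pt ind
    rw [Finset.sum_ite_eq]
  rw [h1, map_sum, Finset.sum_apply]
  calc ∑ z ∈ A, S.green H R (pt z) x ≤ ∑ z ∈ A, (1 : ℝ) :=
        Finset.sum_le_sum fun z _ => S.green_pt z x
    _ = A.card := by simp

end PSys

end Pool.Agent.Hhelper78.RandomEdgePoly
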