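import Pool.Agent.Hhelper78.RandomEdgePoly.Final
import Pool.Agent.FewFacets.LowerMain

/-!
# The full range of the bound

The bound with `d ^ r` holds as soon as `n ≥ d + r + 1`, and this range is best possible.
-/

open scoped ENNReal Nat
open Matrix Pool.Agent.Hhelper78.RandomEdge Pool.Agent.FewFacets

namespace Pool.Agent.Hhelper78.RandomEdgePoly

/-- polynomials are smaller than powers of two -/
lemma pow_le_two_pow (k : ℕ) : ∃ B : ℝ, 0 ≤ B ∧ ∀ m : ℕ, (m : ℝ) ^ k ≤ B * 2 ^ m := by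
  obtain ⟨B, hB⟩ := (tendsto_pow_const_div_const_pow_of_one_lt k
    (show (1 : ℝ) < 2 by norm_num)).bddAbove_range
  refine ⟨max B 0, le_max_right _ _, fun m => ?_⟩
  have h1 : (m : ℝ) ^ k / 2 ^ m ≤ B := hB ⟨m, rfl⟩
  rw [div_le_iff₀ (by positivity)] at h1
  refine h1.trans ?_
  gcongr
  exact le_max_left _ _

lemma choose_eq (d k : ℕ) : (d + k - (d + 1) / 2).choose (d / 2) = (d / 2 + k).choose k := by
  have h1 : d + k - (d + 1) / 2 = d / 2 + k := by omega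
  rw [h1, Nat.choose_symm_add]

/-- few facets -/
lemma few (k r : ℕ) (h : r + 1 ≤ k) : ∃ C : ℝ, 0 ≤ C ∧ ∀ d : ℕ, 1 ≤ d →
    R d (d + k) ≤ ENNReal.ofReal
      (C / (d : ℝ) ^ r * ((d + k - (d + 1) / 2).choose (d / 2) : ℝ)) := by
  obtain ⟨B, hB0, hB⟩ := pow_le_two_pow k
  have hG := Sys.cG_nonneg k
  refine ⟨Sys.cG k * (2 * B * (k + 1)) * (2 ^ k * (k ! : ℝ)), by positivity, fun d hd => ?_⟩
  unfold R
  refine iSup_le fun L => ?_
  have h1 := FewFacets.expectedSteps_le L (J := Nat.log 2 (d + k) + 1)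
    (Nat.lt_pow_succ_log_self (by norm_num) _) (by omega)
  have h2 : d + k - d = k := by omega
  rw [h2] at h1
  refine h1.trans (ENNReal.ofReal_le_ofReal ?_)
  have hd' : (1 : ℝ) ≤ d := by exact_mod_cast hd
  have hd0 : (0 : ℝ) < d := by linarith
  have h3 : ((Nat.log 2 (d + k) + 1 : ℕ) : ℝ) ^ k ≤ 2 * B * (k + 1) * d := by
    have h4 : (2 : ℝ) ^ Nat.log 2 (d + k) ≤ ((d + k : ℕ) : ℝ) := by
      exact_mod_cast Nat.pow_log_le_self 2 (by omega)
    have h5 : ((d + k : ℕ) : ℝ) ≤ (k + 1) * d := by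
      push_cast
      nlinarith [Nat.cast_nonneg (α := ℝ) k]
    calc ((Nat.log 2 (d + k) + 1 : ℕ) : ℝ) ^ k ≤ B * 2 ^ (Nat.log 2 (d + k) + 1) := hB _
      _ = 2 * B * 2 ^ Nat.log 2 (d + k) := by ring
      _ ≤ 2 * B * ((k + 1) * d) := by
          apply mul_le_mul_of_nonneg_left (h4.trans h5) (by positivity)
      _ = _ := by ring
  have h4 : (d : ℝ) ^ k ≤ 2 ^ k * (k ! : ℝ) * ((d / 2 + k).choose k : ℝ) := by
    have h5 := Nat.pow_le_choose (α := ℝ) k (d / 2 + k)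
    have h6 : d / 2 + k + 1 - k = d / 2 + 1 := by omega
    rw [h6] at h5
    have h7 : (d : ℝ) ≤ 2 * ((d / 2 + 1 : ℕ) : ℝ) := by
      have : d ≤ 2 * (d / 2 + 1) := by omega
      exact_mod_cast this
    have h8 : (((d / 2 + 1 : ℕ) : ℝ)) ^ k ≤ (k ! : ℝ) * ((d / 2 + k).choose k : ℝ) := by
      have h9 : (0 : ℝ) < (k ! : ℝ) := by positivity
      rw [div_le_iff₀ h9, mul_comm _ (k ! : ℝ)] at h5
      exact h5
    calc (d : ℝ) ^ k ≤ (2 * ((d / 2 + 1 : ℕ) : ℝ)) ^ k := pow_le_pow_left₀ hd0.le h7 k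
      _ = 2 ^ k * ((d / 2 + 1 : ℕ) : ℝ) ^ k := mul_pow _ _ _
      _ ≤ 2 ^ k * ((k ! : ℝ) * ((d / 2 + k).choose k : ℝ)) := by gcongr
      _ = _ := by ring
  have h5 : (d : ℝ) * (d : ℝ) ^ r ≤ 2 ^ k * (k ! : ℝ) * ((d / 2 + k).choose k : ℝ) := by
    refine le_trans ?_ h4
    rw [← pow_succ']
    exact pow_le_pow_right₀ hd' h
  have h6 : (d : ℝ) ≤ 2 ^ k * (k ! : ℝ) * ((d / 2 + k).choose k : ℝ) / (d : ℝ) ^ r := by
    rw [le_div_iff₀ (by positivity)]
    exact h5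
  rw [choose_eq]
  calc Sys.cG k * ((Nat.log 2 (d + k) + 1 : ℕ) : ℝ) ^ k
      ≤ Sys.cG k * (2 * B * (k + 1) * d) := by gcongr
    _ = Sys.cG k * (2 * B * (k + 1)) * d := by ring
    _ ≤ Sys.cG k * (2 * B * (k + 1)) *
        (2 ^ k * (k ! : ℝ) * ((d / 2 + k).choose k : ℝ) / (d : ℝ) ^ r) := by gcongr
    _ = _ := by ring

/-- **Any power of the dimension, full range.** -/
theorem R_bound' (r : ℕ) : ∃ C : ℝ, ∀ d n : ℕ, 1 ≤ d → d + r + 1 ≤ n →
    R d n ≤ ENNReal.ofReal (C / (d : ℝ) ^ r * ((n - (d + 1) / 2).choose (d / 2) : ℝ)) := by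
  obtain ⟨C₀, hC₀⟩ := R_bound r
  choose f hf0 hf using fun (k : ℕ) (h : r + 1 ≤ k) => few k r h
  classical
  set g : ℕ → ℝ := fun k => if h : r + 1 ≤ k then f k h else 0 with hg
  have hg0 : ∀ k, 0 ≤ g k := by
    intro k
    rw [hg]
    simp only
    split_ifs with h
    · exact hf0 k h
    · exact le_refl _
  refine ⟨C₀ + ∑ k ∈ Finset.range C₀, g k, fun d n hd hn => ?_⟩
  have hs0 : 0 ≤ ∑ k ∈ Finset.range C₀, g k := Finset.sum_nonneg fun k _ => hg0 k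
  obtain ⟨k, rfl⟩ := Nat.exists_eq_add_of_le (show d ≤ n by omega)
  by_cases hk : C₀ ≤ k
  · refine (hC₀ d (d + k) hd (by omega)).trans (ENNReal.ofReal_le_ofReal ?_)
    gcongr
    linarith
  · push Not at hk
    have hrk : r + 1 ≤ k := by omega
    refine (hf k hrk d hd).trans (ENNReal.ofReal_le_ofReal ?_)
    gcongr
    have h1 : g k = f k hrk := by
      rw [hg]
      simp only
      rw [dif_pos hrk]
    rw [← h1]
    have h2 : g k ≤ ∑ k ∈ Finset.range C₀, g k :=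
      Finset.single_le_sum (fun k _ => hg0 k) (Finset.mem_range.mpr hk)
    have h3 : (0 : ℝ) ≤ C₀ := Nat.cast_nonneg _
    linarith

/-- **The range is best possible.** -/
theorem R_sharp (r : ℕ) (hr : 1 ≤ r) (C : ℝ) : ∃ d : ℕ, 1 ≤ d ∧
    ENNReal.ofReal (C / (d : ℝ) ^ r * ((d + r - (d + 1) / 2).choose (d / 2) : ℝ)) <
      R d (d + r) := by
  obtain ⟨k, rfl⟩ : ∃ k, r = k + 1 := ⟨r - 1, by omega⟩
  obtain ⟨c, hc, D, hD⟩ := FewFacets.lower k
  set M : ℝ := |C| * ((k : ℝ) + 2) ^ (k + 1) with hM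
  -- choose `d`
  have hlog : Filter.Tendsto (fun d : ℕ => c * Real.log (d : ℝ) ^ (k + 1)) Filter.atTop
      Filter.atTop := by
    apply Filter.Tendsto.const_mul_atTop hc
    exact (Filter.tendsto_pow_atTop (by omega)).comp
      (Real.tendsto_log_atTop.comp tendsto_natCast_atTop_atTop)
  obtain ⟨d, hd1, hd2, hd3⟩ := ((hlog.eventually (Filter.eventually_gt_atTop M)).and
    ((Filter.eventually_ge_atTop D).and (Filter.eventually_ge_atTop 1))).exists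
  obtain ⟨L, hL⟩ := hD d hd2
  refine ⟨d, hd3, ?_⟩
  have hd' : (1 : ℝ) ≤ d := by exact_mod_cast hd3
  have hd0 : (0 : ℝ) < d := by linarith
  have h1 : C / (d : ℝ) ^ (k + 1) * ((d + (k + 1) - (d + 1) / 2).choose (d / 2) : ℝ) ≤ M := by
    rw [choose_eq]
    have h2 : ((d / 2 + (k + 1)).choose (k + 1) : ℝ) ≤ (((k : ℝ) + 2) * d) ^ (k + 1) := by
      have h3 : (d / 2 + (k + 1)).choose (k + 1) ≤ (d / 2 + (k + 1)) ^ (k + 1) :=
        Nat.choose_le_pow _ _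
      have h4 : d / 2 + (k + 1) ≤ (k + 2) * d := by nlinarith [Nat.div_le_self d 2]
      have h5 := h3.trans (Nat.pow_le_pow_left h4 (k + 1))
      exact_mod_cast h5
    calc C / (d : ℝ) ^ (k + 1) * ((d / 2 + (k + 1)).choose (k + 1) : ℝ)
        ≤ |C| / (d : ℝ) ^ (k + 1) * ((d / 2 + (k + 1)).choose (k + 1) : ℝ) := by
          gcongr
          exact le_abs_self C
      _ ≤ |C| / (d : ℝ) ^ (k + 1) * (((k : ℝ) + 2) * d) ^ (k + 1) := by gcongr
      _ = M := by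
          rw [hM, mul_pow]
          field_simp
  have hM0 : 0 ≤ M := by positivity
  calc ENNReal.ofReal (C / (d : ℝ) ^ (k + 1) *
        ((d + (k + 1) - (d + 1) / 2).choose (d / 2) : ℝ))
      ≤ ENNReal.ofReal M := ENNReal.ofReal_le_ofReal h1
    _ < ENNReal.ofReal (c * Real.log (d : ℝ) ^ (k + 1)) :=
        (ENNReal.ofReal_lt_ofReal_iff_of_nonneg hM0).mpr hd1
    _ ≤ L.expectedSteps := hL
    _ ≤ R d (d + (k + 1)) := le_iSup (fun L : LPInstance d (d + (k + 1)) => L.expectedSteps) L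

end Pool.Agent.Hhelper78.RandomEdgePoly
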