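import Pool.Agent.Hhelper78.RandomEdgePoly.Op

/-!
# Runs of the walk near a vertex

The walk leaves every region of bounded order in bounded expected time, as long as the outdegrees
stay large.
-/

namespace Pool.Agent.Hhelper78.RandomEdgePoly

namespace PSys

variable {V : Type} [Fintype V] [DecidableEq V] {n d : ℕ} (S : PSys V n d) {H R : Finset V}

lemma card_sdiff_symm (x z : V) : (S.I x \ S.I z).card = (S.I z \ S.I x).card := by
  have h1 := Finset.card_sdiff_add_card_inter (S.I x) (S.I z)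
  have h2 := Finset.card_sdiff_add_card_inter (S.I z) (S.I x)
  rw [Finset.inter_comm] at h2
  rw [S.card_I] at h1 h2
  omega

/-- a step changes one element -/
lemma sdiff_nb {x : V} {i : Fin n} (hi : i ∈ S.out x) (u : Finset (Fin n)) :
    (S.I x \ u).erase i ⊆ S.I (S.nb x i) \ u := by
  intro a ha
  rw [Finset.mem_erase, Finset.mem_sdiff] at ha
  rw [Finset.mem_sdiff]
  exact ⟨S.erase_sub x i hi (Finset.mem_erase.mpr ⟨ha.1, ha.2.1⟩), ha.2.2⟩

lemma card_sdiff_nb {x : V} {i : Fin n} (hi : i ∈ S.out x) (u : Finset (Fin n)) :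
    (S.I x \ u).card ≤ (S.I (S.nb x i) \ u).card + 1 := by
  have h1 := Finset.card_le_card (S.sdiff_nb hi u)
  have h2 := Finset.pred_card_le_card_erase (s := S.I x \ u) (a := i)
  omega

/-- a step out of `u` keeps the rest -/
lemma sdiff_nb_of_mem {x : V} {i : Fin n} (hi : i ∈ S.out x) {u : Finset (Fin n)} (hu : i ∈ u) :
    S.I x \ u ⊆ S.I (S.nb x i) \ u := by
  have h1 := S.sdiff_nb hi u
  rwa [Finset.erase_eq_of_notMem] at h1
  rw [Finset.mem_sdiff]
  exact fun h => h.2 hu

lemma bern (t : ℝ) (ht : 0 ≤ t) (a : ℕ) : ((a + 1 : ℕ) : ℝ) * t ^ a + t ^ (a + 1) ≤ (t + 1) ^ (a + 1) := by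
  induction a with
  | zero => simp; linarith
  | succ a ih =>
    have h1 : (t + 1) ^ (a + 1 + 1) = (t + 1) * (t + 1) ^ (a + 1) := by ring
    rw [h1]
    have h2 : (t + 1) * (((a + 1 : ℕ) : ℝ) * t ^ a + t ^ (a + 1)) ≤ (t + 1) * (t + 1) ^ (a + 1) :=
      mul_le_mul_of_nonneg_left ih (by linarith)
    refine le_trans ?_ h2
    have h3 : (t + 1) * (((a + 1 : ℕ) : ℝ) * t ^ a + t ^ (a + 1)) =
        ((a + 1 + 1 : ℕ) : ℝ) * t ^ (a + 1) + t ^ (a + 1 + 1) + ((a + 1 : ℕ) : ℝ) * t ^ a := by
      push_cast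
      ring
    rw [h3]
    have h4 : 0 ≤ ((a + 1 : ℕ) : ℝ) * t ^ a := by positivity
    linarith

/-- **The walk is spread.** -/
lemma atoms {K : ℝ} (hK : 0 < K) (hH : ∀ x ∈ H, K ≤ ((S.out x).card : ℝ)) (z : V) (t : ℕ) :
    ∀ (a : ℕ) (x : V), a ≤ (S.I x \ S.I z).card →
      ((S.op H R) ^ t) (pt z) x ≤ (t : ℝ) ^ a / K ^ a := by
  induction t with
  | zero =>
    intro a x ha
    rw [pow_zero_apply]
    by_cases hxz : x = z
    · subst hxz
      rw [Finset.sdiff_self, Finset.card_empty] at ha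
      have : a = 0 := by omega
      subst this
      simp only [pow_zero, div_one]
      exact ind_le_one _ _
    · have : pt z x = 0 := by unfold pt ind; rw [if_neg hxz]
      rw [this]
      positivity
  | succ t ih =>
    intro a x ha
    rw [pow_succ_apply]
    by_cases hx : x ∈ H
    swap
    · rw [op_notMem _ _ hx]; positivity
    rw [op_mem _ _ hx]
    have hm := hH x hx
    have hm0 : (0 : ℝ) < (S.out x).card := lt_of_lt_of_le hK hm
    rw [div_le_iff₀ hm0]
    set f := ((S.op H R) ^ t) (pt z) with hf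
    have hf0 : ∀ y, 0 ≤ f y := S.pow_nonneg t (pt_nonneg z)
    have h1 : ∑ i ∈ (S.out x).filter (fun i => S.nb x i ∈ R), f (S.nb x i) ≤
        ∑ i ∈ S.out x, f (S.nb x i) :=
      Finset.sum_le_sum_of_subset_of_nonneg (Finset.filter_subset _ _) fun _ _ _ => hf0 _
    refine h1.trans ?_
    have hcast : ((t + 1 : ℕ) : ℝ) = (t : ℝ) + 1 := by push_cast; ring
    rw [hcast]
    have ht0 : (0 : ℝ) ≤ t := Nat.cast_nonneg _
    by_cases hlt : a + 1 ≤ (S.I x \ S.I z).card
    · calc ∑ i ∈ S.out x, f (S.nb x i) ≤ ∑ i ∈ S.out x, (t : ℝ) ^ a / K ^ a := by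
            refine Finset.sum_le_sum fun i hi => ih a _ ?_
            have := S.card_sdiff_nb hi (S.I z)
            omega
        _ = (t : ℝ) ^ a / K ^ a * (S.out x).card := by
            rw [Finset.sum_const, nsmul_eq_mul]; ring
        _ ≤ _ := by
            gcongr
            linarith
    · have heq : (S.I x \ S.I z).card = a := by omega
      rcases a with _ | a
      · simp only [pow_zero, div_one, one_mul]
        calc ∑ i ∈ S.out x, f (S.nb x i) ≤ ∑ i ∈ S.out x, (1 : ℝ) := by
              refine Finset.sum_le_sum fun i hi => ?_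
              have := ih 0 (S.nb x i) (Nat.zero_le _)
              simpa using this
          _ = (S.out x).card := by simp
      · have h2 : ∀ i ∈ S.out x, f (S.nb x i) ≤ (t : ℝ) ^ (a + 1) / K ^ (a + 1) +
            if i ∈ S.I x \ S.I z then (t : ℝ) ^ a / K ^ a else 0 := by
          intro i hi
          by_cases hiz : i ∈ S.I x \ S.I z
          · rw [if_pos hiz]
            have h3 := ih a (S.nb x i) (by
              have := S.card_sdiff_nb hi (S.I z)
              omega)
            have h4 : 0 ≤ (t : ℝ) ^ (a + 1) / K ^ (a + 1) := by positivity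
            linarith
          · rw [if_neg hiz, add_zero]
            apply ih
            have h3 : i ∈ S.I z := by
              rw [Finset.mem_sdiff, not_and, not_not] at hiz
              exact hiz (S.out_sub x hi)
            have h4 := Finset.card_le_card (S.sdiff_nb_of_mem hi h3)
            omega
        have h3 : ∑ i ∈ S.out x, f (S.nb x i) ≤
            (S.out x).card * ((t : ℝ) ^ (a + 1) / K ^ (a + 1)) + (a + 1 : ℕ) * ((t : ℝ) ^ a / K ^ a) := by
          refine (Finset.sum_le_sum h2).trans ?_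
          rw [Finset.sum_add_distrib, Finset.sum_const, nsmul_eq_mul, ← Finset.sum_filter,
            Finset.sum_const, nsmul_eq_mul]
          have h4 : ((S.out x).filter fun i => i ∈ S.I x \ S.I z).card ≤ a + 1 := by
            rw [← heq]
            apply Finset.card_le_card
            intro i hi
            exact (Finset.mem_filter.mp hi).2
          have h5 : (((S.out x).filter fun i => i ∈ S.I x \ S.I z).card : ℝ) ≤ (a + 1 : ℕ) := by
            exact_mod_cast h4
          gcongr
        refine h3.trans ?_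
        have h4 := bern t ht0 a
        have h5 : ((a + 1 : ℕ) : ℝ) * ((t : ℝ) ^ a / K ^ a) ≤
            ((a + 1 : ℕ) : ℝ) * (t : ℝ) ^ a / K ^ (a + 1) * (S.out x).card := by
          have h6 : ((a + 1 : ℕ) : ℝ) * ((t : ℝ) ^ a / K ^ a) =
              ((a + 1 : ℕ) : ℝ) * (t : ℝ) ^ a / K ^ (a + 1) * K := by
            field_simp
            ring
          rw [h6]
          gcongr
        calc (S.out x).card * ((t : ℝ) ^ (a + 1) / K ^ (a + 1)) +
              ((a + 1 : ℕ) : ℝ) * ((t : ℝ) ^ a / K ^ a)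
            ≤ (S.out x).card * ((t : ℝ) ^ (a + 1) / K ^ (a + 1)) +
              ((a + 1 : ℕ) : ℝ) * (t : ℝ) ^ a / K ^ (a + 1) * (S.out x).card := by linarith
          _ = (((a + 1 : ℕ) : ℝ) * (t : ℝ) ^ a + (t : ℝ) ^ (a + 1)) / K ^ (a + 1) *
              (S.out x).card := by ring
          _ ≤ ((t : ℝ) + 1) ^ (a + 1) / K ^ (a + 1) * (S.out x).card := by gcongr

/-- expected time spent -/
noncomputable def life (H R : Finset V) (T : ℕ) : V → ℝ :=
  ∑ t ∈ Finset.range T, ((S.op H R) ^ t) 1

lemma life_zero (x : V) : S.life H R 0 x = 0 := by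
  unfold life; simp

lemma life_succ (T : ℕ) (x : V) : S.life H R (T + 1) x = 1 + S.op H R (S.life H R T) x := by
  unfold life
  rw [Finset.sum_range_succ', map_sum, Pi.add_apply, pow_zero_apply, Pi.one_apply, add_comm]
  congr 1
  rw [Finset.sum_apply, Finset.sum_apply]
  refine Finset.sum_congr rfl fun t _ => ?_
  rw [pow_succ_apply]

lemma life_nonneg (T : ℕ) (x : V) : 0 ≤ S.life H R T x := by
  unfold life
  rw [Finset.sum_apply]
  exact Finset.sum_nonneg fun t _ => S.pow_nonneg t (fun _ => by simp) x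

lemma life_le_green (T : ℕ) (x : V) : S.life H R T x ≤ S.green H R 1 x := by
  unfold life
  rw [green_apply, Finset.sum_apply]
  rcases le_total T S.top with h | h
  · apply Finset.sum_le_sum_of_subset_of_nonneg
    · intro t ht
      rw [Finset.mem_range] at ht ⊢
      omega
    · intro t _ _
      exact S.pow_nonneg t (fun _ => by simp) x
  · apply le_of_eq
    symm
    apply Finset.sum_subset
    · intro t ht
      rw [Finset.mem_range] at ht ⊢
      omega
    · intro t _ ht
      rw [Finset.mem_range] at ht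
      exact S.pow_eq_zero _ _ _ (by omega)

/-- the vertices near `u` -/
def ball (u : Finset (Fin n)) (s : ℕ) : Finset V :=
  Finset.univ.filter fun y => (S.I y \ u).card < s

/-- the region of vertices with the same elements outside `u` -/
def reg (u B : Finset (Fin n)) : Finset V := Finset.univ.filter fun y => S.I y \ u = B

lemma mem_ball {u : Finset (Fin n)} {s : ℕ} {y : V} :
    y ∈ S.ball u s ↔ (S.I y \ u).card < s := by simp [ball]

lemma mem_reg {u B : Finset (Fin n)} {y : V} : y ∈ S.reg u B ↔ S.I y \ u = B := by simp [reg]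

/-- **Leaving a ball.** -/
lemma life_ball {K l : ℝ} (hl : 1 ≤ l) (hH : ∀ x ∈ H, K ≤ ((S.out x).card : ℝ)) (s : ℕ)
    (hK : 2 * (s : ℝ) * (s + 1) * l ≤ K) (u : Finset (Fin n))
    (hreg : ∀ B : Finset (Fin n), B.card < s → ∀ T : ℕ, ∀ x ∈ S.reg u B,
      S.life H (S.reg u B) T x ≤ l) (T : ℕ) :
    ∀ y ∈ S.ball u s, S.life H (S.ball u s) T y ≤
      2 * (S.life H (S.reg u (S.I y \ u)) T y + ((s : ℝ) - (S.I y \ u).card) * l) := by
  induction T with
  | zero =>
    intro y hy
    rw [mem_ball] at hy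
    rw [life_zero, life_zero]
    have h1 : ((S.I y \ u).card : ℝ) ≤ s := by exact_mod_cast hy.le
    have h2 : 0 ≤ ((s : ℝ) - (S.I y \ u).card) * l := mul_nonneg (by linarith) (by linarith)
    linarith
  | succ T ih =>
    intro y hy
    have hys := S.mem_ball.mp hy
    set B := S.I y \ u with hB
    have hjs : (B.card : ℝ) ≤ s := by exact_mod_cast hys.le
    have hl0 : (0 : ℝ) ≤ l := by linarith
    have hc0 : 0 ≤ ((s : ℝ) - B.card) * l := mul_nonneg (by linarith) hl0
    rw [life_succ, life_succ]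
    by_cases hyH : y ∈ H
    swap
    · rw [op_notMem _ _ hyH, op_notMem _ _ hyH]
      linarith
    rw [op_mem _ _ hyH, op_mem _ _ hyH]
    have hm := hH y hyH
    have hs1 : 1 ≤ s := by omega
    have hs1' : (1 : ℝ) ≤ s := by exact_mod_cast hs1
    have hK0 : 0 < K := by
      have : 0 < 2 * (s : ℝ) * (s + 1) * l := by positivity
      linarith
    have hm0 : (0 : ℝ) < (S.out y).card := lt_of_lt_of_le hK0 hm
    -- termwise bound
    have hterm : ∀ i ∈ (S.out y).filter (fun i => S.nb y i ∈ S.ball u s),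
        S.life H (S.ball u s) T (S.nb y i) ≤
          2 * ((if S.nb y i ∈ S.reg u B then S.life H (S.reg u B) T (S.nb y i) else 0) +
            ((s : ℝ) - B.card) * l + (if i ∈ B then ((s : ℝ) + 1) * l else 0)) := by
      intro i hi
      rw [Finset.mem_filter] at hi
      have h1 := ih _ hi.2
      have hws := S.mem_ball.mp hi.2
      have h2 : S.life H (S.reg u (S.I (S.nb y i) \ u)) T (S.nb y i) ≤ l :=
        hreg _ hws T _ (S.mem_reg.mpr rfl)
      have h3 : 0 ≤ S.life H (S.reg u B) T (S.nb y i) := S.life_nonneg _ _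
      have h4 : (0 : ℝ) ≤ ((S.I (S.nb y i) \ u).card : ℝ) := Nat.cast_nonneg _
      refine h1.trans ?_
      apply mul_le_mul_of_nonneg_left _ (by norm_num)
      by_cases hiu : i ∈ u
      · have hsub := S.sdiff_nb_of_mem hi.1 hiu
        rw [← hB] at hsub
        have hiB : i ∉ B := by
          rw [hB, Finset.mem_sdiff]
          exact fun h => h.2 hiu
        rw [if_neg hiB, add_zero]
        by_cases heq : S.I (S.nb y i) \ u = B
        · rw [if_pos (S.mem_reg.mpr heq), heq]
        · rw [if_neg (fun h => heq (S.mem_reg.mp h)), zero_add]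
          have hlt : B.card < (S.I (S.nb y i) \ u).card := by
            apply Finset.card_lt_card
            exact lt_of_le_of_ne hsub fun h => heq h.symm
          have hlt' : (B.card : ℝ) + 1 ≤ ((S.I (S.nb y i) \ u).card : ℝ) := by exact_mod_cast hlt
          nlinarith
      · have hiB : i ∈ B := by
          rw [hB, Finset.mem_sdiff]
          exact ⟨S.out_sub y hi.1, hiu⟩
        rw [if_pos hiB]
        have h5 : 0 ≤ (if S.nb y i ∈ S.reg u B then S.life H (S.reg u B) T (S.nb y i) else 0) := by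
          split_ifs
          · exact h3
          · exact le_refl _
        nlinarith
    have hsum : ∑ i ∈ (S.out y).filter (fun i => S.nb y i ∈ S.ball u s),
        S.life H (S.ball u s) T (S.nb y i) ≤
        2 * (∑ i ∈ (S.out y).filter (fun i => S.nb y i ∈ S.reg u B),
          S.life H (S.reg u B) T (S.nb y i) + (S.out y).card * (((s : ℝ) - B.card) * l) +
          (s : ℝ) * (((s : ℝ) + 1) * l)) := by
      refine (Finset.sum_le_sum hterm).trans ?_
      rw [← Finset.mul_sum]
      apply mul_le_mul_of_nonneg_left _ (by norm_num)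
      have h0 : ∑ i ∈ (S.out y).filter (fun i => S.nb y i ∈ S.ball u s),
          ((if S.nb y i ∈ S.reg u B then S.life H (S.reg u B) T (S.nb y i) else 0) +
            ((s : ℝ) - B.card) * l + (if i ∈ B then ((s : ℝ) + 1) * l else 0)) ≤
          ∑ i ∈ S.out y,
          ((if S.nb y i ∈ S.reg u B then S.life H (S.reg u B) T (S.nb y i) else 0) +
            ((s : ℝ) - B.card) * l + (if i ∈ B then ((s : ℝ) + 1) * l else 0)) := by
        apply Finset.sum_le_sum_of_subset_of_nonneg (Finset.filter_subset _ _)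
        intro i _ _
        have h5 : 0 ≤ (if S.nb y i ∈ S.reg u B then S.life H (S.reg u B) T (S.nb y i) else 0) := by
          split_ifs
          · exact S.life_nonneg _ _
          · exact le_refl _
        have h6 : 0 ≤ (if i ∈ B then ((s : ℝ) + 1) * l else 0) := by
          split_ifs
          · positivity
          · exact le_refl _
        linarith
      refine h0.trans ?_
      rw [Finset.sum_add_distrib, Finset.sum_add_distrib, Finset.sum_const, nsmul_eq_mul,
        ← Finset.sum_filter, ← Finset.sum_filter, Finset.sum_const, nsmul_eq_mul]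
      have h7 : ((S.out y).filter fun i => i ∈ B).card ≤ s := by
        refine (Finset.card_le_card (t := B) ?_).trans hys.le
        intro i hi
        exact (Finset.mem_filter.mp hi).2
      have h8 : (((S.out y).filter fun i => i ∈ B).card : ℝ) ≤ s := by exact_mod_cast h7
      have h9 : (((S.out y).filter fun i => i ∈ B).card : ℝ) * (((s : ℝ) + 1) * l) ≤
          (s : ℝ) * (((s : ℝ) + 1) * l) := mul_le_mul_of_nonneg_right h8 (by positivity)
      linarith
    set Sr := ∑ i ∈ (S.out y).filter (fun i => S.nb y i ∈ S.reg u B),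
          S.life H (S.reg u B) T (S.nb y i) with hSr
    have h1 : (∑ i ∈ (S.out y).filter (fun i => S.nb y i ∈ S.ball u s),
        S.life H (S.ball u s) T (S.nb y i)) / (S.out y).card ≤
        2 * (Sr / (S.out y).card + ((s : ℝ) - B.card) * l + 1 / 2) := by
      rw [div_le_iff₀ hm0]
      refine hsum.trans ?_
      have h2 : 2 * (Sr / (S.out y).card + ((s : ℝ) - B.card) * l + 1 / 2) * (S.out y).card =
          2 * (Sr + (S.out y).card * (((s : ℝ) - B.card) * l) + (S.out y).card / 2) := by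
        field_simp
      rw [h2]
      have h3 : (s : ℝ) * (((s : ℝ) + 1) * l) ≤ (S.out y).card / 2 := by
        have : (s : ℝ) * (((s : ℝ) + 1) * l) = (2 * (s : ℝ) * (s + 1) * l) / 2 := by ring
        rw [this]
        linarith
      linarith
    linarith

/-- decomposition at the first exit -/
lemma first_exit (Q : Finset V) (τ : ℕ) : ∀ x, ((S.op H R) ^ τ) 1 x ≤
    ((S.op H (R ∩ Q)) ^ τ) 1 x +
      ∑ t ∈ Finset.range τ, ((S.op H R) ^ (t + 1)) (ind fun z => z ∉ Q) x := by
  induction τ with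
  | zero => intro x; simp
  | succ τ ih =>
    intro x
    rw [pow_succ_apply]
    set f := ((S.op H R) ^ τ) 1 with hf
    have hf0 : ∀ y, 0 ≤ f y := S.pow_nonneg τ fun _ => by simp
    have hf1 : ∀ y, f y ≤ 1 := S.pow_le_one τ fun _ => by simp
    have h1 : S.op H R f x ≤ S.op H (R ∩ Q) f x + S.op H R (ind fun z => z ∉ Q) x := by
      by_cases hx : x ∈ H
      · rw [op_mem _ _ hx, op_mem _ _ hx, op_mem _ _ hx, ← add_div]
        apply div_le_div_of_nonneg_right _ (Nat.cast_nonneg _)
        rw [Finset.sum_filter, Finset.sum_filter, Finset.sum_filter, ← Finset.sum_add_distrib]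
        refine Finset.sum_le_sum fun i _ => ?_
        by_cases h1 : S.nb x i ∈ R
        · by_cases h2 : S.nb x i ∈ Q
          · rw [if_pos h1, if_pos (Finset.mem_inter.mpr ⟨h1, h2⟩), if_pos h1]
            linarith [ind_nonneg (fun z => z ∉ Q) (S.nb x i)]
          · rw [if_pos h1, if_neg (fun h => h2 (Finset.mem_inter.mp h).2), if_pos h1, zero_add]
            have : ind (fun z => z ∉ Q) (S.nb x i) = 1 := by unfold ind; rw [if_pos h2]
            rw [this]
            exact hf1 _
        · rw [if_neg h1, if_neg (fun h => h1 (Finset.mem_inter.mp h).1), if_neg h1]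
          norm_num
      · rw [op_notMem _ _ hx, op_notMem _ _ hx, op_notMem _ _ hx]
        norm_num
    have h2 : S.op H (R ∩ Q) f x ≤ S.op H (R ∩ Q) (((S.op H (R ∩ Q)) ^ τ) 1 +
        ∑ t ∈ Finset.range τ, ((S.op H R) ^ (t + 1)) (ind fun z => z ∉ Q)) x := by
      apply S.op_mono
      intro y
      rw [Pi.add_apply, Finset.sum_apply]
      exact ih y
    rw [map_add, Pi.add_apply, ← pow_succ_apply] at h2
    have h3 : S.op H (R ∩ Q) (∑ t ∈ Finset.range τ,
        ((S.op H R) ^ (t + 1)) (ind fun z => z ∉ Q)) x ≤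
        ∑ t ∈ Finset.range τ, ((S.op H R) ^ (t + 1 + 1)) (ind fun z => z ∉ Q) x := by
      refine (S.op_mono_set (le_refl _) Finset.inter_subset_left ?_ x).trans ?_
      · intro y
        rw [Finset.sum_apply]
        exact Finset.sum_nonneg fun t _ => S.pow_nonneg _ (ind_nonneg _) y
      · rw [map_sum, Finset.sum_apply]
        refine le_of_eq (Finset.sum_congr rfl fun t _ => ?_)
        rw [pow_succ_apply (t := t + 1)]
    rw [Finset.sum_range_succ']
    have h4 : ((S.op H R) ^ (0 + 1)) (ind fun z => z ∉ Q) x = S.op H R (ind fun z => z ∉ Q) x := by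
      rw [pow_succ_apply, pow_zero_apply]
    rw [h4]
    linarith

lemma surv_anti (t : ℕ) (x : V) : ((S.op H R) ^ (t + 1)) 1 x ≤ ((S.op H R) ^ t) 1 x := by
  rw [pow_succ_apply']
  apply S.pow_mono
  intro y
  rw [Pi.one_apply]
  exact S.op_le_const zero_le_one (fun _ => by simp) y

lemma surv_anti' {s t : ℕ} (h : s ≤ t) (x : V) : ((S.op H R) ^ t) 1 x ≤ ((S.op H R) ^ s) 1 x := by
  induction t, h using Nat.le_induction with
  | base => exact le_refl _
  | succ t _ ih => exact (S.surv_anti t x).trans ih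

lemma mul_surv_le (τ : ℕ) (x : V) : (τ : ℝ) * ((S.op H R) ^ τ) 1 x ≤ S.life H R τ x := by
  unfold life
  rw [Finset.sum_apply]
  calc (τ : ℝ) * ((S.op H R) ^ τ) 1 x = ∑ t ∈ Finset.range τ, ((S.op H R) ^ τ) 1 x := by
        rw [Finset.sum_const, Finset.card_range, nsmul_eq_mul]
    _ ≤ _ := Finset.sum_le_sum fun t ht => S.surv_anti' (Finset.mem_range.mp ht).le x

/-- **Spreading.** -/
lemma spread {K l : ℝ} (hl : 1 ≤ l) (hH : ∀ x ∈ H, K ≤ ((S.out x).card : ℝ)) (s : ℕ)
    (hK : 2 * (s : ℝ) * (s + 1) * l ≤ K)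
    (hreg : ∀ u : Finset (Fin n), u.card = d → ∀ B : Finset (Fin n), B.card < s → ∀ T : ℕ,
      ∀ x ∈ S.reg u B, S.life H (S.reg u B) T x ≤ l)
    {τ : ℕ} (hτ : 8 * ((s : ℝ) + 1) * l ≤ τ) (x : V) :
    ((S.op H R) ^ τ) 1 x ≤ 1 / 4 + ∑ t ∈ Finset.range τ,
      ((S.op H R) ^ (t + 1)) (ind fun z => z ∉ S.ball (S.I x) s) x := by
  have h1 := S.first_exit (H := H) (R := R) (S.ball (S.I x) s) τ x
  have hs0 : (0 : ℝ) ≤ s := Nat.cast_nonneg _
  have hτ0 : (0 : ℝ) < τ := by
    have : 0 < 8 * ((s : ℝ) + 1) * l := by positivity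
    linarith
  have h2 : ((S.op H (R ∩ S.ball (S.I x) s)) ^ τ) 1 x ≤ ((S.op H (S.ball (S.I x) s)) ^ τ) 1 x :=
    S.pow_mono_set (le_refl _) Finset.inter_subset_right τ (fun _ => by simp) x
  have h3 : S.life H (S.ball (S.I x) s) τ x ≤ 2 * ((s : ℝ) + 1) * l := by
    rcases Nat.eq_zero_or_pos s with h0 | h0
    · subst h0
      have h4 : ∀ T, S.life H (S.ball (S.I x) 0) T x ≤ 1 := by
        intro T
        rcases T with _ | T
        · rw [life_zero]; norm_num
        · rw [life_succ]
          have h5 : S.op H (S.ball (S.I x) 0) (S.life H (S.ball (S.I x) 0) T) x = 0 := by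
            by_cases hx : x ∈ H
            · rw [op_mem _ _ hx, Finset.sum_eq_zero, zero_div]
              intro i hi
              rw [Finset.mem_filter, mem_ball] at hi
              omega
            · exact op_notMem _ _ hx
          rw [h5]; norm_num
      have := h4 τ
      push_cast
      linarith
    · have hx : x ∈ S.ball (S.I x) s := by
        rw [mem_ball, Finset.sdiff_self, Finset.card_empty]
        exact h0
      have h4 := S.life_ball hl hH s hK (S.I x)
        (fun B hB T y hy => hreg _ (S.card_I x) B hB T y hy) τ x hx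
      have h5 : S.life H (S.reg (S.I x) (S.I x \ S.I x)) τ x ≤ l := by
        apply hreg _ (S.card_I x) _ _ _ _ (S.mem_reg.mpr rfl)
        rw [Finset.sdiff_self, Finset.card_empty]
        exact h0
      rw [Finset.sdiff_self, Finset.card_empty] at h4
      rw [Finset.sdiff_self] at h5
      push_cast at h4
      linarith
  have h4 := S.mul_surv_le (H := H) (R := S.ball (S.I x) s) τ x
  have h5 : ((S.op H (S.ball (S.I x) s)) ^ τ) 1 x ≤ 1 / 4 := by
    by_contra hcon
    push Not at hcon
    have h6 : (τ : ℝ) * (1 / 4) < (τ : ℝ) * ((S.op H (S.ball (S.I x) s)) ^ τ) 1 x :=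
      mul_lt_mul_of_pos_left hcon hτ0
    linarith
  linarith

lemma pow_pt_rank (z : V) (t : ℕ) : ∀ x, S.rank z < S.rank x + t →
    ((S.op H R) ^ t) (pt z) x = 0 := by
  induction t with
  | zero =>
    intro x hx
    rw [pow_zero_apply]
    unfold pt ind
    rw [if_neg]
    rintro rfl
    omega
  | succ t ih =>
    intro x hx
    rw [pow_succ_apply]
    by_cases hxH : x ∈ H
    · rw [op_mem _ _ hxH, Finset.sum_eq_zero, zero_div]
      intro i hi
      rw [Finset.mem_filter] at hi
      have := S.rank_lt x i hi.1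
      exact ih _ (by omega)
    · exact op_notMem _ _ hxH

lemma pow_pt_notMem {z : V} (hz : z ∉ R) (t : ℕ) (x : V) :
    ((S.op H R) ^ (t + 1)) (pt z) x = 0 := by
  rw [pow_succ_apply']
  have h1 : S.op H R (pt z) = 0 := by
    ext y
    rw [Pi.zero_apply]
    by_cases hyH : y ∈ H
    · rw [op_mem _ _ hyH, Finset.sum_eq_zero, zero_div]
      intro i hi
      rw [Finset.mem_filter] at hi
      unfold pt ind
      rw [if_neg]
      rintro rfl
      exact hz hi.2
    · exact op_notMem _ _ hyH
  rw [h1, map_zero, Pi.zero_apply]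

/-- **The common estimate.** The walk of the operator `op H' R'` (with Green function `green`),
started anywhere, has few expected visits at vertices from which the restricted walk `op H R`
survives `τ` steps. -/
lemma good_visits {K l : ℝ} (hK0 : 0 < K) (hl : 1 ≤ l)
    (hH : ∀ x ∈ H, K ≤ ((S.out x).card : ℝ)) (s : ℕ)
    (hK : 2 * (s : ℝ) * (s + 1) * l ≤ K)
    (hreg : ∀ u : Finset (Fin n), u.card = d → ∀ B : Finset (Fin n), B.card < s → ∀ T : ℕ,
      ∀ x ∈ S.reg u B, S.life H (S.reg u B) T x ≤ l)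
    {τ : ℕ} (hτ : 8 * ((s : ℝ) + 1) * l ≤ τ) {H' : Finset V} (hH' : H ⊆ H') (x₀ : V) :
    S.green H' R 1 x₀ ≤ 2 * S.green H' R (1 - ((S.op H R) ^ τ) 1) x₀ +
      32 * (τ : ℝ) ^ 3 * ((τ : ℝ) ^ s / K ^ s) * R.card := by
  classical
  have hs0 : (0 : ℝ) ≤ s := Nat.cast_nonneg _
  have hτ0 : (0 : ℝ) < τ := by
    have : 0 < 8 * ((s : ℝ) + 1) * l := by positivity
    linarith
  set q : ℝ := (τ : ℝ) ^ s / K ^ s with hq
  have hq0 : 0 < q := by positivity
  set ε : ℕ → V → ℝ := fun t y =>
    ((S.op H R) ^ (t + 1)) (ind fun z => z ∉ S.ball (S.I y) s) y with hε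
  set μ : ℕ → V → V → ℝ := fun t y z =>
    if z ∈ S.ball (S.I y) s then 0 else ((S.op H R) ^ (t + 1)) (pt z) y with hμ
  have hεμ : ∀ t y, ε t y = ∑ z, μ t y z := by
    intro t y
    rw [hε, hμ]
    simp only
    rw [pow_eq_sum]
    refine Finset.sum_congr rfl fun z _ => ?_
    by_cases hz : z ∈ S.ball (S.I y) s
    · have h1 : ind (fun z => z ∉ S.ball (S.I y) s) z = 0 := by
        unfold ind
        exact if_neg (not_not.mpr hz)
      rw [h1, if_pos hz, zero_mul]
    · have h1 : ind (fun z => z ∉ S.ball (S.I y) s) z = 1 := by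
        unfold ind
        exact if_pos hz
      rw [h1, if_neg hz, one_mul]
  have hpass : ∀ t < τ, S.green H' R (fun y => (ε t y) ^ 2) x₀ ≤ 2 * q * τ * R.card := by
    intro t ht
    have h1 := S.passing (H := H') (R := R) R (t + 1) hq0 (μ t) ?_ ?_ ?_ ?_ ?_ x₀
    · have h2 : (fun y => (ε t y) ^ 2) = fun y => (∑ z, μ t y z) ^ 2 := by
        ext y; rw [hεμ]
      rw [h2]
      refine h1.trans ?_
      have h3 : ((t + 1 : ℕ) : ℝ) ≤ τ := by exact_mod_cast ht
      gcongr
    · intro y z
      rw [hμ]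
      simp only
      split_ifs
      · exact le_refl _
      · exact S.pow_nonneg _ (pt_nonneg z) y
    · intro y z
      rw [hμ]
      simp only
      split_ifs
      · exact S.pow_nonneg _ (pt_nonneg z) y
      · exact S.pow_mono_set hH' (le_refl _) _ (pt_nonneg z) y
    · intro y z
      rw [hμ]
      simp only
      split_ifs with hz
      · exact hq0.le
      · rw [mem_ball, not_lt, S.card_sdiff_symm] at hz
        refine (S.atoms hK0 hH z (t + 1) s y hz).trans ?_
        rw [hq]
        have h3 : ((t + 1 : ℕ) : ℝ) ≤ τ := by exact_mod_cast ht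
        gcongr
    · intro y z hz
      rw [hμ]
      simp only
      split_ifs
      · rfl
      · exact S.pow_pt_notMem hz t y
    · intro y z hz
      rw [hμ]
      simp only
      split_ifs
      · rfl
      · exact S.pow_pt_rank z (t + 1) y (by omega)
  have hkey : ∀ y, (1 : V → ℝ) y ≤ ((2 : ℝ) • (1 - ((S.op H R) ^ τ) 1) +
      (16 * (τ : ℝ)) • ∑ t ∈ Finset.range τ, fun y => (ε t y) ^ 2) y := by
    intro y
    simp only [Pi.add_apply, Pi.smul_apply, Pi.sub_apply, Pi.one_apply, smul_eq_mul,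
      Finset.sum_apply]
    have h1 := S.spread (R := R) hl hH s hK hreg hτ y
    have hs1 : ((S.op H R) ^ τ) 1 y ≤ 1 := S.pow_le_one τ (fun _ => by simp) y
    have h2 : 0 ≤ ∑ t ∈ Finset.range τ, (ε t y) ^ 2 := Finset.sum_nonneg fun t _ => sq_nonneg _
    by_cases hh : ((S.op H R) ^ τ) 1 y < 1 / 2
    · have h3 : 0 ≤ 16 * (τ : ℝ) * ∑ t ∈ Finset.range τ, (ε t y) ^ 2 := by positivity
      linarith
    · push Not at hh
      have h3 : 1 / 4 ≤ ∑ t ∈ Finset.range τ, ε t y := by
        have h4 : ∑ t ∈ Finset.range τ, ε t y = ∑ t ∈ Finset.range τ,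
            ((S.op H R) ^ (t + 1)) (ind fun z => z ∉ S.ball (S.I y) s) y := rfl
        rw [h4]
        linarith
      have h4 : (∑ t ∈ Finset.range τ, ε t y) ^ 2 ≤
          (τ : ℝ) * ∑ t ∈ Finset.range τ, (ε t y) ^ 2 := by
        have h5 := sq_sum_le_card_mul_sum_sq (s := Finset.range τ) (f := fun t => ε t y)
        rwa [Finset.card_range] at h5
      have h5 : (1 / 4 : ℝ) ^ 2 ≤ (∑ t ∈ Finset.range τ, ε t y) ^ 2 :=
        pow_le_pow_left₀ (by norm_num) h3 2
      nlinarith
  refine (S.green_mono hkey x₀).trans ?_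
  rw [map_add, Pi.add_apply, map_smul, map_smul, Pi.smul_apply, Pi.smul_apply, map_sum,
    Finset.sum_apply, smul_eq_mul, smul_eq_mul]
  have h1 : ∑ t ∈ Finset.range τ, S.green H' R (fun y => (ε t y) ^ 2) x₀ ≤
      τ * (2 * q * τ * R.card) := by
    calc ∑ t ∈ Finset.range τ, S.green H' R (fun y => (ε t y) ^ 2) x₀
        ≤ ∑ t ∈ Finset.range τ, 2 * q * τ * R.card :=
          Finset.sum_le_sum fun t ht => hpass t (Finset.mem_range.mp ht)
      _ = _ := by rw [Finset.sum_const, Finset.card_range, nsmul_eq_mul]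
  have h2 : 16 * (τ : ℝ) * ∑ t ∈ Finset.range τ, S.green H' R (fun y => (ε t y) ^ 2) x₀ ≤
      16 * (τ : ℝ) * (τ * (2 * q * τ * R.card)) := mul_le_mul_of_nonneg_left h1 (by positivity)
  have h3 : 16 * (τ : ℝ) * (τ * (2 * q * τ * R.card)) = 32 * (τ : ℝ) ^ 3 * q * R.card := by ring
  linarith

lemma card_reg_le {u B : Finset (Fin n)} (hu : u.card = d) : (S.reg u B).card ≤ d ^ B.card := by
  classical
  have h1 : (S.reg u B).card ≤ (u.powersetCard B.card).card := by
    apply Finset.card_le_card_of_injOn (fun y => u \ S.I y)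
    · intro y hy
      rw [Finset.mem_coe, mem_reg] at hy
      rw [Finset.mem_coe, Finset.mem_powersetCard]
      refine ⟨Finset.sdiff_subset, ?_⟩
      show (u \ S.I y).card = B.card
      have h2 := Finset.card_sdiff_add_card_inter (S.I y) u
      have h3 := Finset.card_sdiff_add_card_inter u (S.I y)
      rw [Finset.inter_comm] at h3
      rw [S.card_I] at h2
      rw [hu] at h3
      rw [← hy]
      omega
    · intro y hy y' hy' h
      rw [Finset.mem_coe, mem_reg] at hy hy'
      simp only at h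
      apply S.I_inj
      have h2 : S.I y = (u \ (u \ S.I y)) ∪ (S.I y \ u) := by
        ext a
        simp only [Finset.mem_union, Finset.mem_sdiff]
        tauto
      have h3 : S.I y' = (u \ (u \ S.I y')) ∪ (S.I y' \ u) := by
        ext a
        simp only [Finset.mem_union, Finset.mem_sdiff]
        tauto
      rw [h2, h3, h, hy, hy']
  refine h1.trans ?_
  rw [Finset.card_powersetCard, hu]
  exact Nat.choose_le_pow _ _

/-- **Leaving a region.** -/
lemma life_reg {K l ρ : ℝ} (hK0 : 0 < K) (hl : 1 ≤ l) (hρ : 1 ≤ ρ) (hdK : (d : ℝ) ≤ ρ * K)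
    (hH : ∀ x ∈ H, K ≤ ((S.out x).card : ℝ)) (s : ℕ)
    (hK : 2 * (s : ℝ) * (s + 1) * l ≤ K)
    (hreg : ∀ u : Finset (Fin n), u.card = d → ∀ B : Finset (Fin n), B.card < s → ∀ T : ℕ,
      ∀ x ∈ S.reg u B, S.life H (S.reg u B) T x ≤ l)
    {u B : Finset (Fin n)} (hu : u.card = d) (hB : B.card = s) (T : ℕ) (x : V) :
    S.life H (S.reg u B) T x ≤ 34 * (9 * ((s : ℝ) + 1) * l) ^ (s + 3) * ρ ^ s := by
  have hs0 : (0 : ℝ) ≤ s := Nat.cast_nonneg _
  obtain ⟨τ, hτ1, hτ2⟩ : ∃ τ : ℕ, 8 * ((s : ℝ) + 1) * l ≤ τ ∧ (τ : ℝ) ≤ 9 * ((s : ℝ) + 1) * l := by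
    refine ⟨⌈8 * ((s : ℝ) + 1) * l⌉₊, Nat.le_ceil _, ?_⟩
    have h1 := Nat.ceil_lt_add_one (a := 8 * ((s : ℝ) + 1) * l) (by positivity)
    nlinarith
  have hτ0 : (1 : ℝ) ≤ τ := by
    have : 1 ≤ 8 * ((s : ℝ) + 1) * l := by nlinarith
    linarith
  refine (S.life_le_green T x).trans ?_
  have h1 := S.good_visits hK0 hl hH s hK hreg hτ1 (H' := H) (le_refl _) (R := S.reg u B) x
  have h2 : ∀ t : ℕ, S.green H (S.reg u B) (1 - ((S.op H (S.reg u B)) ^ t) 1) x ≤ t := by
    intro t
    induction t with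
    | zero =>
      rw [pow_zero_apply, sub_self, map_zero]
      simp
    | succ t ih =>
      have h3 := S.green_op (H := H) (R := S.reg u B) (((S.op H (S.reg u B)) ^ t) 1) x
      have h4 : ((S.op H (S.reg u B)) ^ t) 1 x ≤ 1 := S.pow_le_one t (fun _ => by simp) x
      rw [map_sub, Pi.sub_apply] at ih ⊢
      rw [pow_succ_apply, h3]
      push_cast
      linarith
  have h3 := h2 τ
  have h4 : ((S.reg u B).card : ℝ) ≤ (ρ * K) ^ s := by
    have h5 : ((S.reg u B).card : ℝ) ≤ (d : ℝ) ^ s := by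
      have := S.card_reg_le (B := B) hu
      rw [hB] at this
      exact_mod_cast this
    exact h5.trans (pow_le_pow_left₀ (Nat.cast_nonneg _) hdK s)
  have h5 : 32 * (τ : ℝ) ^ 3 * ((τ : ℝ) ^ s / K ^ s) * (S.reg u B).card ≤
      32 * (τ : ℝ) ^ (s + 3) * ρ ^ s := by
    calc 32 * (τ : ℝ) ^ 3 * ((τ : ℝ) ^ s / K ^ s) * (S.reg u B).card
        ≤ 32 * (τ : ℝ) ^ 3 * ((τ : ℝ) ^ s / K ^ s) * (ρ * K) ^ s := by gcongr
      _ = 32 * (τ : ℝ) ^ (s + 3) * ρ ^ s := by
          rw [mul_pow]
          field_simp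
          ring
  have h6 : (1 : ℝ) ≤ ρ ^ s := one_le_pow₀ hρ
  have h7 : (τ : ℝ) ≤ (τ : ℝ) ^ (s + 3) * ρ ^ s := by
    calc (τ : ℝ) = (τ : ℝ) ^ 1 * 1 := by ring
      _ ≤ (τ : ℝ) ^ (s + 3) * ρ ^ s := by
          apply mul_le_mul _ h6 (by norm_num) (by positivity)
          exact pow_le_pow_right₀ hτ0 (by omega)
  have h8 : (τ : ℝ) ^ (s + 3) ≤ (9 * ((s : ℝ) + 1) * l) ^ (s + 3) :=
    pow_le_pow_left₀ (by linarith) hτ2 _
  have h9 : 34 * (τ : ℝ) ^ (s + 3) * ρ ^ s ≤ 34 * (9 * ((s : ℝ) + 1) * l) ^ (s + 3) * ρ ^ s := by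
    gcongr
  calc S.green H (S.reg u B) 1 x ≤ 2 * τ + 32 * (τ : ℝ) ^ (s + 3) * ρ ^ s := by linarith
    _ ≤ 34 * (τ : ℝ) ^ (s + 3) * ρ ^ s := by linarith
    _ ≤ _ := h9

end PSys

end Pool.Agent.Hhelper78.RandomEdgePoly
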